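import Mathlib

/-!
# Common definitions for MP_c0c498_gt (S13874), non-existence half

`V = ℂ^5` (a real Euclidean space of dimension 10), `W = ℝ^7`,
`q(z)_j = Re (zᵀ Φ_j z)` with seven complex symmetric `5 × 5` matrices `Φ_j`,
`φ_w = ∑ w_j Φ_j`, and `A(w) z = conj (φ_w z)`, a real-linear symmetric operator with
`⟪A(w) x, y⟫ = ⟪w, B(x,y)⟫` and `A(w) (i z) = - i A(w) z`.
-/

namespace Pool.Agent.Flip

open scoped InnerProductSpace ComplexConjugate
open Complex

noncomputable section

/-- `ℂ^5`, used as a real inner product space of dimension 10. -/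
abbrev V := EuclideanSpace ℂ (Fin 5)

/-- `ℝ^7`. -/
abbrev W := EuclideanSpace ℝ (Fin 7)

/-- Seven complex `5 × 5` matrices (symmetry is a separate hypothesis). -/
abbrev Sys := Fin 7 → Matrix (Fin 5) (Fin 5) ℂ

/-- All seven matrices are symmetric. -/
def Symm (Φ : Sys) : Prop := ∀ j, (Φ j).IsSymm

/-- The complex symmetric matrix `φ_w = ∑ w_j Φ_j`. -/
def phi (Φ : Sys) (w : W) : Matrix (Fin 5) (Fin 5) ℂ := ∑ j, ((w j : ℝ) : ℂ) • Φ j

/-- Multiplication by `i` on `V` as a real-linear map. -/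
def J : V →L[ℝ] V :=
  LinearMap.toContinuousLinearMap
    { toFun := fun z => (Complex.I) • z
      map_add' := fun x y => smul_add _ x y
      map_smul' := fun r x => (smul_comm r (Complex.I) x).symm }

/-- The operator `A(w) z = conj (φ_w z)`. -/
def A (Φ : Sys) (w : W) : V →L[ℝ] V :=
  LinearMap.toContinuousLinearMap
    { toFun := fun z => WithLp.toLp 2 fun i => conj ((phi Φ w).mulVec (WithLp.ofLp z) i)
      map_add' := fun x y => by
        ext i; simp [Matrix.mulVec_add]
      map_smul' := fun r x => by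
        ext i
        have h : (WithLp.ofLp (r • x)) = (r : ℂ) • WithLp.ofLp x := by
          ext k; simp
        simp only [h, Matrix.mulVec_smul]
        simp }

/-- The symmetric bilinear map `B(x,y)_j = Re (xᵀ Φ_j y)`. -/
def B (Φ : Sys) : V →ₗ[ℝ] V →ₗ[ℝ] W :=
  LinearMap.mk₂ ℝ (fun x y => WithLp.toLp 2 fun j =>
      (dotProduct (WithLp.ofLp x) ((Φ j).mulVec (WithLp.ofLp y))).re)
    (by intro x x' y; ext j; simp [add_dotProduct])
    (by
      intro c x y; ext j
      have h : (WithLp.ofLp (c • x)) = (c : ℂ) • WithLp.ofLp x := by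
        ext k; simp
      simp only [h, smul_dotProduct]
      simp)
    (by intro x y y'; ext j; simp [Matrix.mulVec_add, dotProduct_add])
    (by
      intro c x y; ext j
      have h : (WithLp.ofLp (c • y)) = (c : ℂ) • WithLp.ofLp y := by
        ext k; simp
      simp only [h, Matrix.mulVec_smul, dotProduct_smul]
      simp)

/-- The quadratic map `q(z)_j = Re (zᵀ Φ_j z)`. -/
def q (Φ : Sys) (z : V) : W := B Φ z z

/-- `q` has no zero besides `0`. -/
def ZeroFree (Φ : Sys) : Prop := ∀ z : V, q Φ z = 0 → z = 0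

@[simp] lemma J_apply (z : V) : J z = (Complex.I) • z := rfl

lemma A_apply (Φ : Sys) (w : W) (z : V) (i : Fin 5) :
    (A Φ w z) i = conj ((phi Φ w).mulVec (WithLp.ofLp z) i) := rfl

lemma B_apply (Φ : Sys) (x y : V) (j : Fin 7) :
    (B Φ x y) j = (dotProduct (WithLp.ofLp x) ((Φ j).mulVec (WithLp.ofLp y))).re := rfl

/-- The degeneracy locus in the unit sphere. -/
def D (Φ : Sys) : Set W := {w | ‖w‖ = 1 ∧ ∃ z : V, z ≠ 0 ∧ A Φ w z = 0}

/-- Corank (over `ℂ`) exactly one. -/
def D1 (Φ : Sys) : Set W := {w | ‖w‖ = 1 ∧ Module.finrank ℝ (LinearMap.ker (A Φ w).toLinearMap) = 2}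

/-- Corank (over `ℂ`) at least two. -/
def D2 (Φ : Sys) : Set W := {w | ‖w‖ = 1 ∧ 2 < Module.finrank ℝ (LinearMap.ker (A Φ w).toLinearMap)}

end

end Pool.Agent.Flip
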