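import Pool.Agent.Lib_helper89.Flip.Gamma7
import Pool.Agent.Lib_helper47.Flip.GammaGlob

/-!
# Block GAMMA, part 8: existence of the local data and the final theorem
-/

set_option autoImplicit false

namespace Pool.Agent.Flip.Gam

open scoped InnerProductSpace ComplexConjugate
open Complex Set Metric Filter Topology Module Pool.Agent.Deg47

noncomputable section

variable {Φ : Sys} {w₀ : W} {v : V} {u : W}

lemma exists_unit_ker (hw₀ : w₀ ∈ D1 Φ) : ∃ k₀ ∈ Kr (A Φ w₀), ‖k₀‖ = 1 := by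
  have h : finrank ℝ (Kr (A Φ w₀)) = 2 := hw₀.2
  have hne : Kr (A Φ w₀) ≠ ⊥ := by
    intro hb
    rw [hb, finrank_bot] at h
    omega
  obtain ⟨k, hk, hk0⟩ := (Submodule.ne_bot_iff _).1 hne
  refine ⟨‖k‖⁻¹ • k, Submodule.smul_mem _ _ hk, ?_⟩
  rw [norm_smul, norm_inv, norm_norm, inv_mul_cancel₀ (norm_ne_zero_iff.2 hk0)]

lemma exists_OF (hS : Symm Φ) (hw₀ : w₀ ∈ D1 Φ) {k₀ : V} (hk : k₀ ∈ Kr (A Φ w₀))
    (hk1 : ‖k₀‖ = 1) : ∃ f₀, OF Φ w₀ k₀ f₀ := by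
  have hfr : finrank ℝ (Fp (A Φ w₀)) = 4 := by
    have h1 := finrank_Kr_add hS w₀
    have h2 : finrank ℝ (Kr (A Φ w₀)) = 2 := hw₀.2
    omega
  set b := (stdOrthonormalBasis ℝ (Fp (A Φ w₀))).reindex (finCongr hfr) with hb
  refine ⟨fun j => (b j : V), hw₀, hk, hk1, ?_, fun j => (b j).2⟩
  exact b.orthonormal.comp_linearIsometry (Fp (A Φ w₀)).subtypeₗᵢ

lemma OF.frameAt {k₀ : V} {f₀ : Fin 4 → V} (h : OF Φ w₀ k₀ f₀) : FrameAt Φ w₀ k₀ f₀ where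
  k_ne := by
    intro h0
    have := h.nrm
    rw [h0, norm_zero] at this
    exact zero_ne_one this
  k_ker := mem_Kr.1 h.ker
  li := h.orth.linearIndependent
  mem := h.memF

lemma exists_low (hU2 : ∀ x ∈ Fp (A Φ w₀), ∀ c : ℝ, q Φ (J1 x) - c • w₀ ≠ u) (R : ℝ) :
    ∃ η > 0, ∀ x ∈ Fp (A Φ w₀), ‖x‖ ≤ R → ∀ c : ℝ, |c| ≤ 4 * ‖u‖ →
      η ≤ ‖q Φ (J1 x) - c • w₀ - u‖ := by
  set C : Set (V × ℝ) := {p | p.1 ∈ Fp (A Φ w₀)} ∩ (closedBall (0 : V) R ×ˢ closedBall (0 : ℝ) (4 * ‖u‖))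
    with hC
  have hCc : IsCompact C := by
    have h1 : IsClosed {p : V × ℝ | p.1 ∈ Fp (A Φ w₀)} :=
      (Fp (A Φ w₀)).closed_of_finiteDimensional.preimage continuous_fst
    rw [hC, inter_comm]
    exact ((isCompact_closedBall _ _).prod (isCompact_closedBall _ _)).inter_right h1
  have hcont : Continuous fun p : V × ℝ => ‖q Φ (J1 p.1) - p.2 • w₀ - u‖ := by
    have := continuous_q Φ
    fun_prop
  rcases C.eq_empty_or_nonempty with he | hne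
  · refine ⟨1, one_pos, fun x hx hxR c hc => ?_⟩
    have : ((x, c) : V × ℝ) ∈ C := ⟨hx, by simpa using hxR, by simpa using hc⟩
    rw [he] at this
    exact this.elim
  · obtain ⟨p, hp, hmin⟩ := hCc.exists_isMinOn hne hcont.continuousOn
    have hpos : 0 < ‖q Φ (J1 p.1) - p.2 • w₀ - u‖ :=
      norm_pos_iff.2 (sub_ne_zero.2 (hU2 p.1 hp.1 p.2))
    refine ⟨‖q Φ (J1 p.1) - p.2 • w₀ - u‖, hpos, ?_⟩
    intro x hx hxR c hc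
    have hmem : ((x, c) : V × ℝ) ∈ C := ⟨hx, by simpa using hxR, by simpa using hc⟩
    have h1 := isMinOn_iff.1 hmin (x, c) hmem
    exact h1

/-- Isolation from finiteness. -/
lemma exists_isol (hS : Symm Φ) (hV2 : ∀ w ∈ D2 Φ, Ap Φ w v ≠ 0)
    (hVfin : {w | w ∈ D1 Φ ∧ Ap Φ w v = 0}.Finite) (w₀ : W) :
    ∀ᶠ ρ : ℝ in 𝓝[>] 0, ∀ w ∈ D Φ, ‖w - w₀‖ ≤ ρ → Ap Φ w v = 0 → w = w₀ := by
  have hfin : ({w | w ∈ D1 Φ ∧ Ap Φ w v = 0} \ {w₀}).Finite := hVfin.subset sdiff_subset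
  have hcl : IsClosed ({w | w ∈ D1 Φ ∧ Ap Φ w v = 0} \ {w₀}) := hfin.isClosed
  have hmem : w₀ ∈ ({w | w ∈ D1 Φ ∧ Ap Φ w v = 0} \ {w₀})ᶜ := by simp
  obtain ⟨ρ, hρ, hsub⟩ := Metric.isOpen_iff.1 hcl.isOpen_compl w₀ hmem
  filter_upwards [Ioo_mem_nhdsGT hρ] with s hs w hw hws h0
  by_contra hne
  have h1 : w ∈ ball w₀ ρ := by
    rw [mem_ball, dist_eq_norm]
    exact lt_of_le_of_lt hws hs.2
  have h2 := hsub h1
  apply h2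
  refine ⟨⟨?_, h0⟩, hne⟩
  rw [D_eq_union hS] at hw
  rcases hw with h | h
  · exact h
  · exact absurd h0 (hV2 w h)

/-- Existence of the local data. -/
theorem exists_loc (hS : Symm Φ) (hZ : ZeroFree Φ) (hw₀ : w₀ ∈ D1 Φ) {k₀ : V}
    (hk : k₀ ∈ Kr (A Φ w₀)) (hk1 : ‖k₀‖ = 1) (hV2 : ∀ w ∈ D2 Φ, Ap Φ w v ≠ 0)
    (hVfin : {w | w ∈ D1 Φ ∧ Ap Φ w v = 0}.Finite)
    (hU2 : ∀ x ∈ Fp (A Φ w₀), ∀ c : ℝ, q Φ (J1 x) - c • w₀ ≠ u) {r₀ : ℝ} (hr₀ : 0 < r₀) :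
    ∃ r R δ : ℝ, r ≤ r₀ ∧ Loc Φ v u w₀ k₀ r R δ := by
  obtain ⟨m, hm0, hm⟩ := exists_q_bound hZ
  obtain ⟨CB, hCB0, hCB⟩ := exists_B_bound Φ
  set R := Real.sqrt (6 * ‖u‖ / m) + 1 with hRdef
  have hR0 : 0 < R := by positivity
  have hR : 6 * ‖u‖ ≤ m * R ^ 2 := by
    have h1 : Real.sqrt (6 * ‖u‖ / m) ^ 2 = 6 * ‖u‖ / m := Real.sq_sqrt (by positivity)
    have h2 : 6 * ‖u‖ / m ≤ R ^ 2 := by
      rw [← h1]
      gcongr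
      linarith
    rw [div_le_iff₀ hm0] at h2
    linarith
  obtain ⟨η, hη, hlow⟩ := exists_low hU2 R
  set e := min (1 / 4) (min (m / (72 * CB)) (η / (2 * (8 * CB * R ^ 2 + 4 * ‖u‖)))) with he
  have hX : 0 < 8 * CB * R ^ 2 + 4 * ‖u‖ := by positivity
  have he0 : 0 < e := by
    refine lt_min (by norm_num) (lt_min (by positivity) (by positivity))
  have he1 : e ≤ 1 / 4 := min_le_left _ _
  have he2 : 72 * CB * e ≤ m := by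
    have : e ≤ m / (72 * CB) := (min_le_right _ _).trans (min_le_left _ _)
    rw [le_div_iff₀ (by positivity)] at this
    linarith
  have he3 : e * (8 * CB * R ^ 2 + 4 * ‖u‖) ≤ η / 2 := by
    have : e ≤ η / (2 * (8 * CB * R ^ 2 + 4 * ‖u‖)) := (min_le_right _ _).trans (min_le_right _ _)
    rw [le_div_iff₀ (by positivity)] at this
    linarith
  have hrad := exists_radius hS w₀ he0 hw₀.2
  obtain ⟨r1, hr1, hr1b⟩ := Metric.eventually_nhds_iff.1 hrad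
  have hev : ∀ᶠ ρ : ℝ in 𝓝[>] 0, 0 < ρ ∧ ρ < r1 ∧ ρ < r₀ ∧
      ∀ w ∈ D Φ, ‖w - w₀‖ ≤ ρ → Ap Φ w v = 0 → w = w₀ := by
    filter_upwards [Ioo_mem_nhdsGT hr1, Ioo_mem_nhdsGT hr₀, exists_isol hS hV2 hVfin w₀]
      with ρ h1 h2 h3
    exact ⟨h1.1, h1.2, h2.2, h3⟩
  obtain ⟨r, hr0, hrr1, hrr₀, hiso⟩ := hev.exists
  have hb : ∀ w, ‖w - w₀‖ ≤ r → dist w w₀ < r1 := fun w hw => by
    rw [dist_eq_norm]; exact lt_of_le_of_lt hw hrr1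
  refine ⟨r, R, η / (16 * CB * R), hrr₀.le, ?_⟩
  exact
    { mem := hw₀
      ker := hk
      nrm := hk1
      r_pos := hr0
      R_pos := hR0
      δ_pos := by positivity
      unit := fun w hw => (hr1b (hb w hw)).1
      sgn := fun w hw => (hr1b (hb w hw)).2.2.2.2
      est := fun w hw T θ hθ c z h0 => by
        obtain ⟨b1, b2, b3, b4, b5⟩ := hr1b (hb w hw)
        exact fth_zero_est hS hm0 hm hCB0 hCB hw₀ hk hk1 hR hR0 hη hlow b1 he0.le he1 he2 he3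
          b2 b3 b4 hθ h0
      prc := fun w hw hfr => ((hr1b (hb w hw)).2.2.2.1 hfr).trans he1
      isol := hiso }

/-- The local statement of block GAMMA. -/
theorem gamma_local (hS : Symm Φ) (hZ : ZeroFree Φ) (hV2 : ∀ w ∈ D2 Φ, Ap Φ w v ≠ 0)
    (hVfin : {w | w ∈ D1 Φ ∧ Ap Φ w v = 0}.Finite) (hw₀ : w₀ ∈ D1 Φ)
    (hdd : dd Φ w₀ = 0)
    (hU2 : ∀ x ∈ Fp (A Φ w₀), ∀ c : ℝ, q Φ (J1 x) - c • w₀ ≠ u) {r₀ : ℝ} (hr₀ : 0 < r₀) :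
    ∃ r : ℝ, 0 < r ∧ r ≤ r₀ ∧ ∀ᶠ T : ℝ in atTop, deg (sysT Φ v u T) (dom (ball w₀ r)) = 0 := by
  obtain ⟨k₀, hk, hk1⟩ := exists_unit_ker hw₀
  obtain ⟨f₀, ho⟩ := exists_OF hS hw₀ hk hk1
  obtain ⟨r, R, δ, hr, hloc⟩ := exists_loc (u := u) hS hZ hw₀ hk hk1 hV2 hVfin hU2 hr₀
  have hDD : DD Φ w₀ (fr k₀ f₀) = 0 := by
    have h1 := abs_DD_frame hS hZ hw₀ ho.frameAt
    rw [hdd] at h1
    exact abs_eq_zero.1 h1
  refine ⟨r, hloc.r_pos, hr, ?_⟩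
  filter_upwards [hloc.reduce hS, hloc.deg_frozen hS hZ ho hU2 hDD] with T h1 h2
  have h3 := h1.2.1
  rw [h2] at h3
  rcases mul_eq_zero.1 h3 with h4 | h4
  · exfalso
    have hne := det_Mw_ne (Φ := Φ) (w₀ := w₀) (isUnit_Dop₀ hS)
    have : SignType.sign (Mw Φ w₀ w₀).det = 0 := by
      have h5 : ((SignType.sign (Mw Φ w₀ w₀).det : SignType) : ℤ) = 0 := h4
      revert h5
      generalize SignType.sign (Mw Φ w₀ w₀).det = s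
      cases s <;> simp
    rw [sign_eq_zero_iff] at this
    exact hne this
  · exact h4

end

end Pool.Agent.Flip.Gam

namespace Pool.Agent.Flip

open Filter Metric

/-- **Block GAMMA.** -/
theorem gamma {Φ : Sys} (hS : Symm Φ) (hZ : ZeroFree Φ) {v : V} {u : W}
    (hV2 : ∀ w ∈ D2 Φ, Ap Φ w v ≠ 0)
    (hVfin : {w | w ∈ D1 Φ ∧ Ap Φ w v = 0}.Finite)
    (hG1 : ∀ w ∈ D Φ, ∀ t c : ℝ, q Φ (t • J1 (Ap Φ w v)) - c • w ≠ u)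
    (hU2 : ∀ w ∈ D1 Φ, Ap Φ w v = 0 → ∀ x ∈ Fp (A Φ w), ∀ c : ℝ, q Φ (J1 x) - c • w ≠ u)
    {N : Set W} (hN : IsOpen N) (hBN : ∀ w ∈ D Φ, w ∈ N ↔ w ∈ BB Φ) :
    ∀ᶠ T : ℝ in atTop, Pool.Agent.Deg47.deg (sysT Φ v u T) (dom N) = 0 :=
  gamma_of_local hS hZ hV2 hVfin hG1 hN hBN (fun w₀ hw₀ h0 hdd _ hr₀ =>
    Gam.gamma_local hS hZ hV2 hVfin hw₀ hdd (hU2 w₀ hw₀ h0) hr₀)

end Pool.Agent.Flip
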