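import Pool.Agent.Lib_helper89.Flip.Pos

/-!
# Splitting of a symmetric operator: kernel, positive space, negative space
-/

namespace Pool.Agent.Flip

open scoped InnerProductSpace
open Module

noncomputable section

variable {E : Type*} [NormedAddCommGroup E] [InnerProductSpace ℝ E] [FiniteDimensional ℝ E]

/-- The positive space of `T`: the range of the positive part. -/
def Fp (T : E →L[ℝ] E) : Submodule ℝ E := LinearMap.range (pos T : E →ₗ[ℝ] E)

/-- The kernel as a submodule. -/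
def Kr (T : E →L[ℝ] E) : Submodule ℝ E := LinearMap.ker (T : E →ₗ[ℝ] E)

omit [FiniteDimensional ℝ E] in
@[simp] lemma mem_Kr {T : E →L[ℝ] E} {x : E} : x ∈ Kr T ↔ T x = 0 := Iff.rfl

lemma mem_Fp {T : E →L[ℝ] E} {x : E} : x ∈ Fp T ↔ ∃ y, pos T y = x := Iff.rfl

lemma pos_mem_Fp (T : E →L[ℝ] E) (y : E) : pos T y ∈ Fp T := ⟨y, rfl⟩

omit [FiniteDimensional ℝ E] in
@[simp] lemma Kr_neg (T : E →L[ℝ] E) : Kr (-T) = Kr T := by
  ext x; simp

lemma pos_neg_of_mem {T : E →L[ℝ] E} (hT : Sym T) {x : E} (hx : x ∈ Fp T) : pos (-T) x = 0 := by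
  obtain ⟨y, rfl⟩ := hx
  exact pos_neg_mul_pos hT y

lemma pos_of_mem_neg {T : E →L[ℝ] E} (hT : Sym T) {x : E} (hx : x ∈ Fp (-T)) : pos T x = 0 := by
  obtain ⟨y, rfl⟩ := hx
  exact pos_mul_pos_neg hT y

lemma pos_eq_of_mem {T : E →L[ℝ] E} (hT : Sym T) {x : E} (hx : x ∈ Fp T) : pos T x = T x := by
  have h := pos_apply_sub hT x
  rw [pos_neg_of_mem hT hx, sub_zero] at h
  exact h

lemma map_mem_Fp {T : E →L[ℝ] E} (hT : Sym T) {x : E} (hx : x ∈ Fp T) : T x ∈ Fp T := by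
  rw [← pos_eq_of_mem hT hx]; exact pos_mem_Fp _ _

/-- A positive semidefinite symmetric operator with `⟪P x, x⟫ = 0` kills `x`. -/
lemma eq_zero_of_inner_eq_zero {P : E →L[ℝ] E} (hP : Sym P) (h0 : ∀ x, 0 ≤ ⟪P x, x⟫_ℝ) {x : E}
    (hx : ⟪P x, x⟫_ℝ = 0) : P x = 0 := by
  by_contra hne
  have hpos : 0 < ‖P x‖ ^ 2 := by positivity
  -- consider x + t P x
  have key : ∀ t : ℝ, 0 ≤ 2 * t * ‖P x‖ ^ 2 + t ^ 2 * ⟪P (P x), P x⟫_ℝ := by
    intro t
    have h := h0 (x + t • P x)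
    have e : ⟪P (x + t • P x), x + t • P x⟫_ℝ =
        ⟪P x, x⟫_ℝ + 2 * t * ‖P x‖ ^ 2 + t ^ 2 * ⟪P (P x), P x⟫_ℝ := by
      rw [map_add, map_smul, inner_add_left, inner_add_right, inner_add_right,
        real_inner_smul_left, real_inner_smul_left, real_inner_smul_right, real_inner_smul_right,
        hP (P x) x, real_inner_self_eq_norm_sq]
      ring
    rw [e, hx] at h
    linarith
  set a := ‖P x‖ ^ 2
  set c := ⟪P (P x), P x⟫_ℝ
  have hc : 0 ≤ c := h0 _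
  have h := key (-(a / (c + 1)))
  have hc1 : 0 < c + 1 := by linarith
  have e2 : 2 * (-(a / (c + 1))) * a + (-(a / (c + 1))) ^ 2 * c
      = - (a ^ 2 * (c + 2)) / (c + 1) ^ 2 := by
    field_simp; ring
  rw [e2] at h
  have : 0 < a ^ 2 * (c + 2) := by positivity
  have h3 : - (a ^ 2 * (c + 2)) / (c + 1) ^ 2 < 0 := by
    apply div_neg_of_neg_of_pos <;> [linarith; positivity]
  linarith

lemma mem_Kr_iff {T : E →L[ℝ] E} (hT : Sym T) {x : E} :
    x ∈ Kr T ↔ pos T x = 0 ∧ pos (-T) x = 0 := by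
  constructor
  · intro h
    have h1 := pos_apply_sub hT x
    rw [mem_Kr.1 h, sub_eq_zero] at h1
    have h2 : pos T (pos T x) = 0 := by rw [h1]; exact pos_mul_pos_neg hT x
    have h3 : pos T x = 0 := by
      have : ⟪pos T x, pos T x⟫_ℝ = 0 := by
        rw [← pos_sym hT, h2, inner_zero_left]
      exact inner_self_eq_zero.1 this
    exact ⟨h3, by rw [← h1, h3]⟩
  · rintro ⟨h1, h2⟩
    have h := pos_apply_sub hT x
    rw [h1, h2, sub_zero] at h
    exact mem_Kr.2 h.symm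

lemma inner_Fp_Fn {T : E →L[ℝ] E} (hT : Sym T) {x y : E} (hx : x ∈ Fp T) (hy : y ∈ Fp (-T)) :
    ⟪x, y⟫_ℝ = 0 := by
  obtain ⟨z, rfl⟩ := hx
  have h := pos_of_mem_neg hT hy
  change ⟪pos T z, y⟫_ℝ = 0
  rw [pos_sym hT, h, inner_zero_right]

lemma inner_Kr_Fp {T : E →L[ℝ] E} (hT : Sym T) {x y : E} (hx : x ∈ Kr T) (hy : y ∈ Fp T) :
    ⟪x, y⟫_ℝ = 0 := by
  obtain ⟨z, rfl⟩ := hy
  change ⟪x, pos T z⟫_ℝ = 0
  rw [← pos_sym hT, ((mem_Kr_iff hT).1 hx).1, inner_zero_left]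

lemma inner_Kr_Fn {T : E →L[ℝ] E} (hT : Sym T) {x y : E} (hx : x ∈ Kr T) (hy : y ∈ Fp (-T)) :
    ⟪x, y⟫_ℝ = 0 := by
  refine inner_Kr_Fp hT.neg ?_ hy
  simpa using hx

lemma inner_pos_of_mem_Fp {T : E →L[ℝ] E} (hT : Sym T) {x : E} (hx : x ∈ Fp T) (h0 : x ≠ 0) :
    0 < ⟪T x, x⟫_ℝ := by
  rw [← pos_eq_of_mem hT hx]
  refine lt_of_le_of_ne (pos_nonneg hT x) fun h => h0 ?_
  have h1 := eq_zero_of_inner_eq_zero (pos_sym hT) (pos_nonneg hT) h.symm
  have h2 : x ∈ Kr T := (mem_Kr_iff hT).2 ⟨h1, pos_neg_of_mem hT hx⟩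
  exact inner_self_eq_zero.1 (inner_Kr_Fp hT h2 hx)

/-- The orthogonal complement of the range of a symmetric operator is its kernel. -/
lemma orthogonal_range {P : E →L[ℝ] E} (hP : Sym P) :
    (LinearMap.range (P : E →ₗ[ℝ] E))ᗮ = Kr P := by
  ext x
  rw [Submodule.mem_orthogonal, mem_Kr]
  constructor
  · intro h
    have h1 := h (P (P x)) ⟨P x, rfl⟩
    have h2 := h (P x) ⟨x, rfl⟩
    have : ⟪P x, P x⟫_ℝ = 0 := by rw [← hP]; exact h1
    exact inner_self_eq_zero.1 this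
  · rintro h _ ⟨y, rfl⟩
    change ⟪P y, x⟫_ℝ = 0
    rw [hP, h, inner_zero_right]

/-- Orthogonal projection onto the positive space, as an operator of `E`. -/
def Pr (T : E →L[ℝ] E) : E →L[ℝ] E := (Fp T).starProjection

lemma Pr_mem (T : E →L[ℝ] E) (x : E) : Pr T x ∈ Fp T := (Fp T).starProjection_apply_mem x

lemma Pr_of_mem {T : E →L[ℝ] E} {x : E} (hx : x ∈ Fp T) : Pr T x = x :=
  Submodule.starProjection_eq_self_iff.2 hx

lemma inner_sub_Pr {T : E →L[ℝ] E} (x : E) {y : E} (hy : y ∈ Fp T) : ⟪x - Pr T x, y⟫_ℝ = 0 := by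
  exact Submodule.starProjection_inner_eq_zero x y hy

lemma pos_sub_Pr {T : E →L[ℝ] E} (hT : Sym T) (x : E) : pos T (x - Pr T x) = 0 := by
  have h2 : x - Pr T x ∈ (Fp T)ᗮ := Submodule.sub_starProjection_mem_orthogonal x
  unfold Fp at h2
  rw [orthogonal_range (pos_sym hT)] at h2
  exact h2

lemma pos_Pr {T : E →L[ℝ] E} (hT : Sym T) (x : E) : pos T (Pr T x) = pos T x := by
  have h := pos_sub_Pr hT x
  rw [map_sub, sub_eq_zero] at h
  exact h.symm

lemma Pr_sym (T : E →L[ℝ] E) : Sym (Pr T) := by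
  intro x y
  have h1 := inner_sub_Pr (T := T) y (Pr_mem T x)
  have h2 := inner_sub_Pr (T := T) x (Pr_mem T y)
  rw [inner_sub_left, sub_eq_zero] at h1 h2
  rw [h2, real_inner_comm, h1, real_inner_comm]

lemma Pr_eq_zero {T : E →L[ℝ] E} {x : E} (hx : ∀ y ∈ Fp T, ⟪x, y⟫_ℝ = 0) : Pr T x = 0 := by
  have h1 := inner_sub_Pr (T := T) x (Pr_mem T x)
  rw [inner_sub_left, hx _ (Pr_mem T x), zero_sub, neg_eq_zero] at h1
  exact inner_self_eq_zero.1 h1

/-- The component in the kernel. -/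
lemma ker_part_mem {T : E →L[ℝ] E} (hT : Sym T) (x : E) : x - Pr T x - Pr (-T) x ∈ Kr T := by
  rw [mem_Kr_iff hT]
  constructor
  · rw [map_sub, pos_sub_Pr hT, pos_of_mem_neg hT (Pr_mem _ _), sub_zero]
  · have e : x - Pr T x - Pr (-T) x = (x - Pr (-T) x) - Pr T x := by abel
    rw [e, map_sub, pos_sub_Pr hT.neg, pos_neg_of_mem hT (Pr_mem _ _), sub_zero]

lemma exists_decomp {T : E →L[ℝ] E} (hT : Sym T) (x : E) :
    ∃ k ∈ Kr T, ∃ p ∈ Fp T, ∃ n ∈ Fp (-T), x = k + p + n :=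
  ⟨_, ker_part_mem hT x, _, Pr_mem T x, _, Pr_mem (-T) x, by abel⟩

lemma sup_eq_top {T : E →L[ℝ] E} (hT : Sym T) : Kr T ⊔ Fp T ⊔ Fp (-T) = ⊤ := by
  rw [eq_top_iff]
  intro x _
  obtain ⟨k, hk, p, hp, n, hn, rfl⟩ := exists_decomp hT x
  exact Submodule.add_mem_sup (Submodule.add_mem_sup hk hp) hn

lemma disj1 {T : E →L[ℝ] E} (hT : Sym T) : Kr T ⊓ Fp T = ⊥ := by
  rw [eq_bot_iff]
  rintro x ⟨h1, h2⟩
  exact inner_self_eq_zero.1 (inner_Kr_Fp hT h1 h2)

lemma disj2 {T : E →L[ℝ] E} (hT : Sym T) : (Kr T ⊔ Fp T) ⊓ Fp (-T) = ⊥ := by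
  rw [eq_bot_iff]
  rintro x ⟨h1, h2⟩
  obtain ⟨k, hk, p, hp, rfl⟩ := Submodule.mem_sup.1 h1
  have : ⟪k + p, k + p⟫_ℝ = 0 := by
    conv_lhs => rw [inner_add_left]
    rw [inner_Kr_Fn hT hk h2, inner_Fp_Fn hT hp h2, add_zero]
  exact inner_self_eq_zero.1 this

lemma finrank_split {T : E →L[ℝ] E} (hT : Sym T) :
    finrank ℝ (Kr T) + finrank ℝ (Fp T) + finrank ℝ (Fp (-T)) = finrank ℝ E := by
  have h1 := Submodule.finrank_sup_add_finrank_inf_eq (Kr T) (Fp T)
  have h2 := Submodule.finrank_sup_add_finrank_inf_eq (Kr T ⊔ Fp T) (Fp (-T))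
  rw [disj1 hT, finrank_bot] at h1
  rw [disj2 hT, finrank_bot, sup_eq_top hT, finrank_top] at h2
  omega

/-- If `y ∈ Kr T ⊔ Fp T` then the form is nonnegative. -/
lemma inner_nonneg_of_mem_sup {T : E →L[ℝ] E} (hT : Sym T) {x : E} (hx : x ∈ Kr T ⊔ Fp T) :
    0 ≤ ⟪T x, x⟫_ℝ := by
  obtain ⟨k, hk, p, hp, rfl⟩ := Submodule.mem_sup.1 hx
  rw [map_add, mem_Kr.1 hk, zero_add, inner_add_right, hT p k, mem_Kr.1 hk, inner_zero_right,
    zero_add, ← pos_eq_of_mem hT hp]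
  exact pos_nonneg hT p

/-! ### Gap and projection formula -/

/-- `T` has no eigenvalue in `(0, δ)`, in quadratic form version. -/
def Gap (T : E →L[ℝ] E) (δ : ℝ) : Prop := ∀ x ∈ Fp T, δ * ‖x‖ ^ 2 ≤ ⟪T x, x⟫_ℝ

/-- The projection formula. -/
def prj (δ : ℝ) (T : E →L[ℝ] E) : E →L[ℝ] E :=
  δ⁻¹ • (pos T - pos (T - δ • ContinuousLinearMap.id ℝ E))

lemma prj_eq {T : E →L[ℝ] E} (hT : Sym T) {δ : ℝ} (hδ : 0 < δ) (hg : Gap T δ) :
    prj δ T = Pr T := by
  have hs : Sym (T - δ • ContinuousLinearMap.id ℝ E) := hT.sub (Sym.id.smul δ)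
  have key : pos (T - δ • ContinuousLinearMap.id ℝ E) = pos T - δ • Pr T := by
    refine IsPos.eq_pos hs ⟨(pos_sym hT).sub ((Pr_sym T).smul δ), ?_, ?_, ?_⟩
    · intro x
      have e1 : ⟪pos T x, x⟫_ℝ = ⟪T (Pr T x), Pr T x⟫_ℝ := by
        rw [← pos_eq_of_mem hT (Pr_mem T x), pos_Pr hT]
        have := inner_sub_Pr (T := T) x (pos_mem_Fp T x)
        rw [inner_sub_left, sub_eq_zero] at this
        rw [real_inner_comm, this, real_inner_comm]
      have e2 : ⟪Pr T x, x⟫_ℝ = ‖Pr T x‖ ^ 2 := by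
        have := inner_sub_Pr (T := T) x (Pr_mem T x)
        rw [inner_sub_left, sub_eq_zero] at this
        rw [real_inner_comm, this, real_inner_self_eq_norm_sq]
      have h := hg _ (Pr_mem T x)
      simp only [sub_apply, smul_apply, inner_sub_left,
        real_inner_smul_left]
      rw [e1, e2]
      linarith
    · intro x
      have e : (pos T - δ • Pr T) x - (T - δ • ContinuousLinearMap.id ℝ E) x =
          (pos T x - T x) + δ • (x - Pr T x) := by
        simp [smul_sub]; abel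
      have e2 : ⟪x - Pr T x, x⟫_ℝ = ‖x - Pr T x‖ ^ 2 := by
        have := inner_sub_Pr (T := T) x (Pr_mem T x)
        rw [← real_inner_self_eq_norm_sq]
        conv_rhs => rw [inner_sub_right]
        rw [this, sub_zero]
      rw [e, inner_add_left, real_inner_smul_left, e2]
      have := (pos_spec hT).nonneg_sub x
      positivity
    · intro x
      have e : (pos T - δ • Pr T) x - (T - δ • ContinuousLinearMap.id ℝ E) x =
          pos (-T) x + δ • (x - Pr T x) := by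
        rw [pos_neg hT]
        simp [smul_sub]; abel
      rw [e]
      have h1 : Pr T (pos (-T) x) = 0 := Pr_eq_zero fun y hy => by
        rw [real_inner_comm]; exact inner_Fp_Fn hT hy (pos_mem_Fp _ _)
      have h2 : Pr T (x - Pr T x) = 0 := Pr_eq_zero fun y hy => inner_sub_Pr x hy
      simp only [sub_apply, smul_apply, map_add, map_smul,
        h1, h2, pos_sub_Pr hT, pos_mul_pos_neg hT]
      simp
  unfold prj
  rw [key, sub_sub_cancel, smul_smul, inv_mul_cancel₀ hδ.ne', one_smul]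

lemma prj_lip {S T : E →L[ℝ] E} (hS : Sym S) (hT : Sym T) {δ : ℝ} (hδ : 0 < δ) :
    ‖prj δ S - prj δ T‖ ≤ 2 * δ⁻¹ * Real.sqrt (finrank ℝ E) * ‖S - T‖ := by
  have h1 := norm_pos_sub_le hS hT
  have h2 := norm_pos_sub_le (hS.sub (Sym.id.smul δ)) (hT.sub (Sym.id.smul δ))
  have e : S - δ • ContinuousLinearMap.id ℝ E - (T - δ • ContinuousLinearMap.id ℝ E) = S - T := by
    abel
  rw [e] at h2
  have e2 : prj δ S - prj δ T = δ⁻¹ • ((pos S - pos T) -
      (pos (S - δ • ContinuousLinearMap.id ℝ E) - pos (T - δ • ContinuousLinearMap.id ℝ E))) := by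
    unfold prj; rw [← smul_sub]; congr 1; abel
  rw [e2, norm_smul, Real.norm_of_nonneg (by positivity)]
  have h3 := norm_sub_le (pos S - pos T)
      (pos (S - δ • ContinuousLinearMap.id ℝ E) - pos (T - δ • ContinuousLinearMap.id ℝ E))
  have h4 : 0 < δ⁻¹ := by positivity
  calc δ⁻¹ * _ ≤ δ⁻¹ * (Real.sqrt (finrank ℝ E) * ‖S - T‖ + Real.sqrt (finrank ℝ E) * ‖S - T‖) := by
        gcongr; linarith
    _ = _ := by ring

/-- A subspace meets another one if the dimensions add up to more than the total. -/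
lemma exists_inter {U X : Submodule ℝ E} (h : finrank ℝ E < finrank ℝ U + finrank ℝ X) :
    ∃ x ∈ U, x ∈ X ∧ x ≠ 0 := by
  have h1 := Submodule.finrank_sup_add_finrank_inf_eq U X
  have h2 := Submodule.finrank_le (U ⊔ X)
  have h3 : 0 < finrank ℝ (U ⊓ X : Submodule ℝ E) := by omega
  obtain ⟨x, hx, hx0⟩ := (Submodule.ne_bot_iff _).1 (fun hb => by
    rw [hb, finrank_bot] at h3; exact lt_irrefl _ h3 : (U ⊓ X : Submodule ℝ E) ≠ ⊥)
  exact ⟨x, hx.1, hx.2, hx0⟩

/-- A uniform gap on the positive space exists. -/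
lemma exists_gap {T : E →L[ℝ] E} (hT : Sym T) : ∃ δ > 0, Gap T δ := by
  classical
  -- compactness of the unit sphere of `Fp T`
  by_cases hne : ∃ x ∈ Fp T, x ≠ 0
  · obtain ⟨x0, hx0, hx00⟩ := hne
    let S : Set E := {x | x ∈ Fp T ∧ ‖x‖ = 1}
    have hS : IsCompact S := by
      have h1 : IsClosed {x : E | x ∈ Fp T} := (Fp T).closed_of_finiteDimensional
      have h2 : IsCompact (Metric.sphere (0 : E) 1) := isCompact_sphere _ _
      have : S = {x : E | x ∈ Fp T} ∩ Metric.sphere (0 : E) 1 := by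
        ext x; simp [S]
      rw [this, Set.inter_comm]
      exact h2.inter_right h1
    have hSn : S.Nonempty := ⟨‖x0‖⁻¹ • x0, (Fp T).smul_mem _ hx0, by
      rw [norm_smul, norm_inv, norm_norm, inv_mul_cancel₀ (norm_ne_zero_iff.2 hx00)]⟩
    have hc : ContinuousOn (fun x => ⟪T x, x⟫_ℝ) S := by fun_prop
    obtain ⟨y, hy, hmin⟩ := hS.exists_isMinOn hSn hc
    have hy0 : y ≠ 0 := by
      intro h; have := hy.2; rw [h, norm_zero] at this; exact zero_ne_one this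
    refine ⟨⟪T y, y⟫_ℝ, inner_pos_of_mem_Fp hT hy.1 hy0, fun x hx => ?_⟩
    by_cases hx0 : x = 0
    · simp [hx0]
    · have hn : ‖x‖ ≠ 0 := norm_ne_zero_iff.2 hx0
      have h := hmin (show ‖x‖⁻¹ • x ∈ S from ⟨(Fp T).smul_mem _ hx, by
        rw [norm_smul, norm_inv, norm_norm, inv_mul_cancel₀ hn]⟩)
      simp only [Set.mem_setOf_eq, map_smul, real_inner_smul_left, real_inner_smul_right] at h
      have : ⟪T y, y⟫_ℝ * ‖x‖ ^ 2 ≤ (‖x‖⁻¹ * (‖x‖⁻¹ * ⟪T x, x⟫_ℝ)) * ‖x‖ ^ 2 := by gcongr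
      refine this.trans (le_of_eq ?_)
      field_simp
  · push Not at hne
    refine ⟨1, one_pos, fun x hx => ?_⟩
    simp [hne x hx]

/-- Near a symmetric `T0`, a symmetric `T` with a kernel of at least the same dimension has a
uniform gap (for the positive space). -/
lemma exists_gap_near {T0 : E →L[ℝ] E} (h0 : Sym T0) :
    ∃ δ > 0, ∀ T : E →L[ℝ] E, Sym T → ‖T - T0‖ < δ →
      finrank ℝ (Fp T0) ≤ finrank ℝ (Fp T) ∧
      (finrank ℝ (Kr T0) ≤ finrank ℝ (Kr T) →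
        Gap T δ ∧ Gap (-T) δ ∧ finrank ℝ (Fp T) = finrank ℝ (Fp T0) ∧
          finrank ℝ (Fp (-T)) = finrank ℝ (Fp (-T0)) ∧ finrank ℝ (Kr T) = finrank ℝ (Kr T0)) := by
  obtain ⟨c1, hc1, hg1⟩ := exists_gap h0
  obtain ⟨c2, hc2, hg2⟩ := exists_gap h0.neg
  -- comparison
  have cmp : ∀ {c δ : ℝ} {S0 S : E →L[ℝ] E}, Sym S → Gap S0 c → ‖S - S0‖ < δ → δ ≤ c →
      finrank ℝ (Fp S0) ≤ finrank ℝ (Fp S) := by
    intro c δ S0 S hS hg hlt hδ
    by_contra hcon
    push Not at hcon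
    have hsp := finrank_split hS
    have hsup : finrank ℝ (Kr (-S) ⊔ Fp (-S) : Submodule ℝ E) + finrank ℝ (Fp S) = finrank ℝ E := by
      have h2 := Submodule.finrank_sup_add_finrank_inf_eq (Kr (-S)) (Fp (-S))
      rw [disj1 hS.neg, finrank_bot, Kr_neg] at h2
      rw [Kr_neg]; omega
    obtain ⟨x, hx1, hx2, hx0⟩ := exists_inter (U := Kr (-S) ⊔ Fp (-S)) (X := Fp S0) (by omega)
    have h1 := inner_nonneg_of_mem_sup hS.neg hx1
    have h2 := hg x hx2
    have h3 : ⟪S0 x, x⟫_ℝ - ⟪S x, x⟫_ℝ ≤ ‖S - S0‖ * ‖x‖ ^ 2 := by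
      have h4 := real_inner_le_norm ((S0 - S) x) x
      have h5 := (S0 - S).le_opNorm x
      rw [sub_apply, inner_sub_left] at h4
      rw [norm_sub_rev S0 S] at h5
      calc _ ≤ _ := h4
        _ ≤ (‖S - S0‖ * ‖x‖) * ‖x‖ := by
            gcongr
            exact h5
        _ = _ := by ring
    have h6 : ⟪(-S) x, x⟫_ℝ = - ⟪S x, x⟫_ℝ := by simp
    rw [h6] at h1
    have hxn : 0 < ‖x‖ ^ 2 := by positivity
    nlinarith
  set δ := min (c1 / 2) (c2 / 2) with hδdef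
  have hδ : 0 < δ := by positivity
  have hδ1 : δ ≤ c1 / 2 := min_le_left _ _
  have hδ2 : δ ≤ c2 / 2 := min_le_right _ _
  -- gap
  have gapl : ∀ {c : ℝ} {S0 S : E →L[ℝ] E}, Sym S → Gap S0 c → ‖S - S0‖ < δ → δ ≤ c / 2 → 0 < c →
      finrank ℝ (Fp S) = finrank ℝ (Fp S0) → Gap S δ := by
    intro c S0 S hS hg hlt hle hc hf x hx
    by_contra hcon
    push Not at hcon
    have hx0 : x ≠ 0 := by
      rintro rfl; simp at hcon
    -- the space Kr ⊔ Fp(-S) ⊔ span x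
    set U : Submodule ℝ E := (Kr (-S) ⊔ Fp (-S)) ⊔ (Submodule.span ℝ {x}) with hU
    have horth : ∀ y ∈ Kr (-S) ⊔ Fp (-S), ⟪y, x⟫_ℝ = 0 := by
      intro y hy
      obtain ⟨k, hk, p, hp, rfl⟩ := Submodule.mem_sup.1 hy
      rw [inner_add_left]
      rw [Kr_neg] at hk
      rw [inner_Kr_Fp hS hk hx, real_inner_comm, inner_Fp_Fn hS hx hp, add_zero]
    have hUf : finrank ℝ U + finrank ℝ (Fp S) = finrank ℝ E + 1 := by
      have h2 := Submodule.finrank_sup_add_finrank_inf_eq (Kr (-S)) (Fp (-S))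
      rw [disj1 hS.neg, finrank_bot, Kr_neg] at h2
      have h3 := Submodule.finrank_sup_add_finrank_inf_eq (Kr (-S) ⊔ Fp (-S)) (Submodule.span ℝ {x})
      have h4 : (Kr (-S) ⊔ Fp (-S)) ⊓ (Submodule.span ℝ {x}) = ⊥ := by
        rw [eq_bot_iff]
        rintro y ⟨hy1, hy2⟩
        obtain ⟨a, rfl⟩ := Submodule.mem_span_singleton.1 hy2
        have := horth _ hy1
        rw [real_inner_smul_left, real_inner_self_eq_norm_sq] at this
        have ha : a = 0 := by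
          rcases mul_eq_zero.1 this with h | h
          · exact h
          · exact absurd (by simpa using h) hx0
        simp [ha]
      rw [h4, finrank_bot, finrank_span_singleton hx0] at h3
      have h5 := finrank_split hS
      rw [Kr_neg] at h3
      rw [hU, Kr_neg]
      omega
    obtain ⟨y, hy1, hy2, hy0⟩ := exists_inter (U := U) (X := Fp S0) (by omega)
    obtain ⟨z, hz, t, ht, rfl⟩ := Submodule.mem_sup.1 hy1
    obtain ⟨a, rfl⟩ := Submodule.mem_span_singleton.1 ht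
    have hzn := inner_nonneg_of_mem_sup hS.neg hz
    have hcross : ⟪S z, x⟫_ℝ = 0 := by
      rw [hS z x]
      exact horth z hz |> fun _ => by
        have := map_mem_Fp hS hx
        obtain ⟨k, hk, p, hp, rfl⟩ := Submodule.mem_sup.1 hz
        rw [inner_add_left]
        rw [Kr_neg] at hk
        rw [inner_Kr_Fp hS hk this, real_inner_comm, inner_Fp_Fn hS this hp, add_zero]
    have hval : ⟪S (z + a • x), z + a • x⟫_ℝ = ⟪S z, z⟫_ℝ + a ^ 2 * ⟪S x, x⟫_ℝ := by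
      rw [map_add, map_smul, inner_add_left, inner_add_right, inner_add_right,
        real_inner_smul_left, real_inner_smul_left, real_inner_smul_right, real_inner_smul_right,
        hcross, hS x z, real_inner_comm (S z) x, hcross]
      ring
    have hnorm : ‖z + a • x‖ ^ 2 = ‖z‖ ^ 2 + a ^ 2 * ‖x‖ ^ 2 := by
      rw [← real_inner_self_eq_norm_sq, ← real_inner_self_eq_norm_sq, ← real_inner_self_eq_norm_sq,
        inner_add_left, inner_add_right, inner_add_right,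
        real_inner_smul_left, real_inner_smul_left, real_inner_smul_right, real_inner_smul_right,
        horth z hz, real_inner_comm z x, horth z hz]
      ring
    have h2 := hg _ hy2
    set y := z + a • x with hy
    have h3 : ⟪S0 y, y⟫_ℝ - ⟪S y, y⟫_ℝ ≤ ‖S - S0‖ * ‖y‖ ^ 2 := by
      have h4 := real_inner_le_norm ((S0 - S) y) y
      have h5 := (S0 - S).le_opNorm y
      rw [sub_apply, inner_sub_left] at h4
      rw [norm_sub_rev S0 S] at h5
      calc _ ≤ _ := h4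
        _ ≤ (‖S - S0‖ * ‖y‖) * ‖y‖ := by
            gcongr
            exact h5
        _ = _ := by ring
    have h6 : ⟪(-S) z, z⟫_ℝ = - ⟪S z, z⟫_ℝ := by simp
    rw [h6] at hzn
    have hyn : 0 < ‖y‖ ^ 2 := by positivity
    have h7 : ⟪S y, y⟫_ℝ ≤ δ * ‖y‖ ^ 2 := by
      rw [hval, hnorm]
      nlinarith [sq_nonneg a, sq_nonneg ‖z‖, mul_le_mul_of_nonneg_left hcon.le (sq_nonneg a)]
    nlinarith
  refine ⟨δ, hδ, fun T hT hlt => ⟨cmp hT hg1 hlt (by linarith), fun hk => ?_⟩⟩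
  have a1 := cmp hT hg1 hlt (by linarith)
  have hlt' : ‖-T - -T0‖ < δ := by
    have : -T - -T0 = -(T - T0) := by abel
    rwa [this, norm_neg]
  have a2 := cmp hT.neg hg2 hlt' (by linarith)
  have b1 := finrank_split hT
  have b2 := finrank_split h0
  have f1 : finrank ℝ (Fp T) = finrank ℝ (Fp T0) := by omega
  have f2 : finrank ℝ (Fp (-T)) = finrank ℝ (Fp (-T0)) := by omega
  exact ⟨gapl hT hg1 hlt hδ1 hc1 f1, gapl hT.neg hg2 hlt' hδ2 hc2 f2, f1, f2, by omega⟩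

/-! ### Interaction with a complex structure anticommuting with `T` -/

section J

variable {T : E →L[ℝ] E} (U : E ≃ₗᵢ[ℝ] E)

/-- If an isometry `U` anticommutes with `T` then `pos (-T) ∘ U = U ∘ pos T`. -/
lemma pos_neg_anti (hT : Sym T) (hU : ∀ x, T (U x) = - U (T x)) (x : E) :
    pos (-T) (U x) = U (pos T x) := by
  have e : ((U.toContinuousLinearEquiv : E →L[ℝ] E) ∘L T ∘L
      (U.symm.toContinuousLinearEquiv : E →L[ℝ] E)) = -T := by
    ext y
    have h := hU (U.symm y)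
    rw [U.apply_symm_apply] at h
    simp only [ContinuousLinearMap.comp_apply, ContinuousLinearEquiv.coe_coe,
      LinearIsometryEquiv.coe_toContinuousLinearEquiv, neg_apply]
    rw [h, neg_neg]
  have h := pos_conj hT U (U x)
  rw [e, U.symm_apply_apply] at h
  exact h

lemma pos_anti (hT : Sym T) (hU : ∀ x, T (U x) = - U (T x)) (x : E) :
    pos T (U x) = U (pos (-T) x) := by
  have h := pos_neg_anti (T := -T) U hT.neg (fun x => by simp [hU x]) x
  rwa [neg_neg] at h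

lemma map_Fp_anti (hT : Sym T) (hU : ∀ x, T (U x) = - U (T x)) {x : E} (hx : x ∈ Fp T) :
    U x ∈ Fp (-T) := by
  obtain ⟨y, rfl⟩ := hx
  exact ⟨U y, pos_neg_anti U hT hU y⟩

lemma map_Fn_anti (hT : Sym T) (hU : ∀ x, T (U x) = - U (T x)) {x : E} (hx : x ∈ Fp (-T)) :
    U x ∈ Fp T := by
  obtain ⟨y, rfl⟩ := hx
  exact ⟨U y, pos_anti U hT hU y⟩

lemma Fp_neg_eq_map (hT : Sym T) (hU : ∀ x, T (U x) = - U (T x)) :
    Fp (-T) = (Fp T).map (U.toLinearEquiv : E →ₗ[ℝ] E) := by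
  ext x
  constructor
  · rintro ⟨y, rfl⟩
    refine ⟨pos T (U.symm y), pos_mem_Fp _ _, ?_⟩
    have := pos_neg_anti U hT hU (U.symm y)
    rw [U.apply_symm_apply] at this
    exact this.symm
  · rintro ⟨y, hy, rfl⟩
    exact map_Fp_anti U hT hU hy

lemma finrank_Fp_neg (hT : Sym T) (hU : ∀ x, T (U x) = - U (T x)) :
    finrank ℝ (Fp (-T)) = finrank ℝ (Fp T) := by
  rw [Fp_neg_eq_map U hT hU]
  exact LinearEquiv.finrank_map_eq U.toLinearEquiv (Fp T)

lemma finrank_split_anti (hT : Sym T) (hU : ∀ x, T (U x) = - U (T x)) :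
    finrank ℝ (Kr T) + 2 * finrank ℝ (Fp T) = finrank ℝ E := by
  have h1 := finrank_split hT
  have h2 := finrank_Fp_neg U hT hU
  omega

end J

end

end Pool.Agent.Flip
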