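import Pool.Agent.Lib_helper47.Flip.Base

/-!
# Block GAMMA, part 1: isotropic vectors and elementary bounds
-/

set_option autoImplicit false

namespace Pool.Agent.Flip.Gam

open scoped InnerProductSpace ComplexConjugate
open Complex Set Metric Filter Topology Module Pool.Agent.Deg47

noncomputable section

variable {Φ : Sys}

/-- `J` as a linear isometry equivalence. -/
def JJ : V ≃ₗᵢ[ℝ] V where
  toFun := J
  invFun := fun x => -J x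
  left_inv := fun x => by
    change -J (J x) = x
    rw [J_J, neg_neg]
  right_inv := fun x => by
    change J (-J x) = x
    rw [map_neg, J_J, neg_neg]
  map_add' := fun x y => map_add J x y
  map_smul' := fun c x => map_smul J c x
  norm_map' := norm_J

@[simp] lemma JJ_apply (x : V) : JJ x = J x := rfl

lemma A_JJ (w : W) (x : V) : A Φ w (JJ x) = - JJ (A Φ w x) := A_J Φ w x

lemma q_add (hS : Symm Φ) (x y : V) : q Φ (x + y) = q Φ x + (2 : ℝ) • B Φ x y + q Φ y := by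
  unfold q
  rw [map_add, map_add, LinearMap.add_apply, LinearMap.add_apply, B_symm hS y x, two_smul]
  abel

lemma exists_B_bound (Φ : Sys) : ∃ C > 0, ∀ x y : V, ‖B Φ x y‖ ≤ C * ‖x‖ * ‖y‖ := by
  set BL := LinearMap.toContinuousLinearMap
      ((LinearMap.toContinuousLinearMap : (V →ₗ[ℝ] W) ≃ₗ[ℝ] (V →L[ℝ] W)).toLinearMap ∘ₗ (B Φ))
  refine ⟨‖BL‖ + 1, by positivity, fun x y => ?_⟩
  have h : ‖BL x y‖ ≤ ‖BL‖ * ‖x‖ * ‖y‖ := BL.le_opNorm₂ x y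
  refine h.trans ?_
  gcongr
  linarith

/-- `q` is Lipschitz on bounded sets: quantitative version. -/
lemma q_sub_le {C : ℝ} (hS : Symm Φ) (hC : ∀ x y : V, ‖B Φ x y‖ ≤ C * ‖x‖ * ‖y‖) (x y : V) :
    ‖q Φ x - q Φ y‖ ≤ C * (‖x‖ + ‖y‖) * ‖x - y‖ := by
  have e : q Φ x - q Φ y = B Φ (x + y) (x - y) := by
    unfold q
    rw [map_add, LinearMap.add_apply, map_sub, map_sub, B_symm hS y x]
    abel
  rw [e]
  have h0 : 0 ≤ C * ‖x - y‖ := by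
    have := hC (x - y) (x - y)
    have h1 := norm_nonneg (B Φ (x - y) (x - y))
    by_cases h : ‖x - y‖ = 0
    · rw [h]; simp
    · have h2 : 0 < ‖x - y‖ := lt_of_le_of_ne (norm_nonneg _) (Ne.symm h)
      have h3 : 0 ≤ C * ‖x - y‖ * ‖x - y‖ := le_trans h1 this
      exact nonneg_of_mul_nonneg_left h3 h2
  calc ‖B Φ (x + y) (x - y)‖ ≤ C * ‖x + y‖ * ‖x - y‖ := hC _ _
    _ = (C * ‖x - y‖) * ‖x + y‖ := by ring
    _ ≤ (C * ‖x - y‖) * (‖x‖ + ‖y‖) := by gcongr; exact norm_add_le _ _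
    _ = _ := by ring

lemma Ap_mem (w : W) (x : V) : Ap Φ w x ∈ Fp (A Φ w) := pos_mem_Fp _ _

lemma J_mem_Fn (hS : Symm Φ) {w : W} {f : V} (hf : f ∈ Fp (A Φ w)) : J f ∈ Fp (-A Φ w) :=
  map_Fp_anti JJ (A_sym hS w) (A_JJ w) hf

lemma J_mem_Kr {w : W} {k : V} (hk : k ∈ Kr (A Φ w)) : J k ∈ Kr (A Φ w) := by
  rw [mem_Kr] at *
  rw [A_J, hk, map_zero, neg_zero]

lemma finrank_Kr_add (hS : Symm Φ) (w : W) :
    finrank ℝ (Kr (A Φ w)) + 2 * finrank ℝ (Fp (A Φ w)) = 10 := by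
  rw [finrank_split_anti JJ (A_sym hS w) (A_JJ w), finrank_V]

/-- Isotropy: for `k, k' ∈ ker A(w)` and `f, f'` in the positive space. -/
lemma isotropic_bil (hS : Symm Φ) (w : W) {k k' f f' : V} (hk : A Φ w k = 0) (hk' : A Φ w k' = 0)
    (hf : f ∈ Fp (A Φ w)) (hf' : f' ∈ Fp (A Φ w)) :
    ⟪w, B Φ (k + J1 f) (k' + J1 f')⟫_ℝ = 0 := by
  have hs := A_sym hS w
  have hJf' : J f' ∈ Fp (-A Φ w) := J_mem_Fn hS hf'
  have hAf : A Φ w f ∈ Fp (A Φ w) := map_mem_Fp hs hf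
  have hJAf : J (A Φ w f) ∈ Fp (-A Φ w) := J_mem_Fn hS hAf
  rw [← inner_A' hS, J1_apply, J1_apply]
  have e1 : A Φ w (k + (f + J f)) = A Φ w f - J (A Φ w f) := by
    rw [map_add, map_add, hk, A_J, zero_add]; abel
  rw [e1, inner_add_right, inner_sub_left, inner_sub_left, inner_add_right, inner_add_right]
  have hk'' : k' ∈ Kr (A Φ w) := hk'
  have a1 : ⟪A Φ w f, k'⟫_ℝ = 0 := by
    rw [real_inner_comm]; exact inner_Kr_Fp hs hk'' hAf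
  have a2 : ⟪J (A Φ w f), k'⟫_ℝ = 0 := by
    rw [real_inner_comm]; exact inner_Kr_Fn hs hk'' hJAf
  have a3 : ⟪A Φ w f, J f'⟫_ℝ = 0 := inner_Fp_Fn hs hAf hJf'
  have a4 : ⟪J (A Φ w f), f'⟫_ℝ = 0 := by
    rw [real_inner_comm]; exact inner_Fp_Fn hs hf' hJAf
  have a5 : ⟪J (A Φ w f), J f'⟫_ℝ = ⟪A Φ w f, f'⟫_ℝ := inner_J _ _
  rw [a1, a2, a3, a4, a5]
  ring

lemma isotropic (hS : Symm Φ) (w : W) {k f : V} (hk : A Φ w k = 0)
    (hf : f ∈ Fp (A Φ w)) : ⟪w, q Φ (k + J1 f)⟫_ℝ = 0 :=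
  isotropic_bil hS w hk hk hf hf

/-- Norm of `k + J1 f`. -/
lemma norm_sq_iso (hS : Symm Φ) (w : W) {k f : V} (hk : A Φ w k = 0)
    (hf : f ∈ Fp (A Φ w)) : ‖k + J1 f‖ ^ 2 = ‖k‖ ^ 2 + 2 * ‖f‖ ^ 2 := by
  have hs := A_sym hS w
  have hJf : J f ∈ Fp (-A Φ w) := J_mem_Fn hS hf
  have hk' : k ∈ Kr (A Φ w) := hk
  have a1 : ⟪k, f⟫_ℝ = 0 := inner_Kr_Fp hs hk' hf
  have a2 : ⟪k, J f⟫_ℝ = 0 := inner_Kr_Fn hs hk' hJf
  have a3 : ⟪f, J f⟫_ℝ = 0 := inner_Fp_Fn hs hf hJf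
  rw [J1_apply, norm_add_sq_real, inner_add_right, a1, a2, norm_add_sq_real, a3, norm_J]
  ring

/-- `q (k + J1 f) = c w` forces everything to vanish (`w ≠ 0`). -/
lemma eq_zero_of_iso (hS : Symm Φ) (hZ : ZeroFree Φ) {w : W} (hw : w ≠ 0) {k f : V} {c : ℝ}
    (hk : A Φ w k = 0) (hf : f ∈ Fp (A Φ w)) (h : q Φ (k + J1 f) = c • w) :
    k = 0 ∧ f = 0 ∧ c = 0 := by
  have h1 := isotropic hS w hk hf
  rw [h, inner_smul_right, real_inner_self_eq_norm_sq] at h1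
  have hw2 : ‖w‖ ^ 2 ≠ 0 := by positivity
  have hc : c = 0 := by
    rcases mul_eq_zero.1 h1 with h | h
    · exact h
    · exact absurd h hw2
  rw [hc, zero_smul] at h
  have h2 := hZ _ h
  have h3 := norm_sq_iso hS w hk hf
  rw [h2, norm_zero] at h3
  have h4 : ‖k‖ ^ 2 = 0 := by nlinarith [sq_nonneg ‖k‖, sq_nonneg ‖f‖]
  have h5 : ‖f‖ ^ 2 = 0 := by nlinarith [sq_nonneg ‖k‖, sq_nonneg ‖f‖]
  exact ⟨by simpa using h4, by simpa using h5, hc⟩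

/-- Membership in `D`. -/
lemma mem_D_iff {w : W} : w ∈ D Φ ↔ ‖w‖ = 1 ∧ ∃ z : V, z ≠ 0 ∧ A Φ w z = 0 := Iff.rfl

lemma finrank_Kr_even (hS : Symm Φ) (w : W) (h : ∃ z : V, z ≠ 0 ∧ A Φ w z = 0) :
    2 ≤ finrank ℝ (Kr (A Φ w)) := by
  obtain ⟨z, hz, hz0⟩ := h
  have h1 := finrank_Kr_add hS w
  have h2 : 0 < finrank ℝ (Kr (A Φ w)) := by
    have hmem : z ∈ Kr (A Φ w) := hz0
    have : Kr (A Φ w) ≠ ⊥ := fun hb => hz (by rw [hb] at hmem; simpa using hmem)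
    exact Submodule.one_le_finrank_iff.2 this
  omega

lemma D_eq_union (hS : Symm Φ) : D Φ = D1 Φ ∪ D2 Φ := by
  ext w
  constructor
  · intro hw
    have h := finrank_Kr_even hS w hw.2
    rcases Nat.eq_or_lt_of_le h with h1 | h1
    · exact Or.inl ⟨hw.1, h1.symm⟩
    · exact Or.inr ⟨hw.1, h1⟩
  · intro hw
    have h : ‖w‖ = 1 ∧ 2 ≤ finrank ℝ (Kr (A Φ w)) := by
      rcases hw with hw | hw
      · exact ⟨hw.1, hw.2.ge⟩
      · exact ⟨hw.1, hw.2.le⟩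
    have h2 : Kr (A Φ w) ≠ ⊥ := by
      intro hb
      have := h.2
      rw [hb, finrank_bot] at this
      omega
    obtain ⟨z, hz, hz0⟩ := (Submodule.ne_bot_iff _).1 h2
    exact ⟨h.1, z, hz0, hz⟩

lemma D1_subset_D (hS : Symm Φ) : D1 Φ ⊆ D Φ := by
  rw [D_eq_union hS]; exact subset_union_left

/-- `D` is closed. -/
lemma isCompact_D (Φ : Sys) : IsCompact (D Φ) := by
  have h1 : IsCompact {p : W × V | ‖p.1‖ = 1 ∧ ‖p.2‖ = 1 ∧ A Φ p.1 p.2 = 0} := by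
    have hc : IsClosed {p : W × V | ‖p.1‖ = 1 ∧ ‖p.2‖ = 1 ∧ A Φ p.1 p.2 = 0} := by
      refine (isClosed_eq (by fun_prop) continuous_const).inter
        ((isClosed_eq (by fun_prop) continuous_const).inter (isClosed_eq ?_ continuous_const))
      exact ((continuous_A Φ).comp continuous_fst).clm_apply continuous_snd
    refine IsCompact.of_isClosed_subset ((isCompact_sphere (0 : W) 1).prod (isCompact_sphere (0 : V) 1))
      hc ?_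
    rintro ⟨w, z⟩ ⟨h1, h2, -⟩
    exact ⟨by simpa using h1, by simpa using h2⟩
  have h2 : D Φ = Prod.fst '' {p : W × V | ‖p.1‖ = 1 ∧ ‖p.2‖ = 1 ∧ A Φ p.1 p.2 = 0} := by
    ext w
    constructor
    · rintro ⟨hw, z, hz, hz0⟩
      refine ⟨(w, ‖z‖⁻¹ • z), ⟨hw, ?_, ?_⟩, rfl⟩
      · rw [norm_smul, norm_inv, norm_norm, inv_mul_cancel₀ (norm_ne_zero_iff.2 hz)]
      · change A Φ w (‖z‖⁻¹ • z) = 0
        rw [map_smul, hz0, smul_zero]
    · rintro ⟨⟨w, z⟩, ⟨h1, h2, h3⟩, rfl⟩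
      refine ⟨h1, z, ?_, h3⟩
      rintro rfl
      simp at h2
  rw [h2]
  exact h1.image continuous_fst

/-! ### Zeros of the system -/

lemma sysT_eq_zero_iff {v : V} {u : W} {T : ℝ} {w : W} {c : ℝ} {z : V} :
    sysT Φ v u T (w, c, z) = 0 ↔
      q Φ (z + T • J1 (Ap Φ w v)) - c • w = u ∧ ‖w‖ = 1 ∧ A Φ w z = 0 := by
  unfold sysT
  rw [Prod.mk_eq_zero, Prod.mk_eq_zero]
  constructor
  · rintro ⟨h1, h2, h3⟩
    refine ⟨sub_eq_zero.1 h1, ?_, h3⟩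
    have : ‖w‖ ^ 2 = 1 := by
      change ‖w‖ ^ 2 - 1 = 0 at h2
      linarith
    have h0 := norm_nonneg w
    nlinarith
  · rintro ⟨h1, h2, h3⟩
    refine ⟨sub_eq_zero.2 h1, ?_, h3⟩
    change ‖w‖ ^ 2 - 1 = 0
    rw [h2]; norm_num

/-- Bounds for the zeros. -/
lemma zero_bounds (hS : Symm Φ) {m : ℝ} (hm : ∀ z, m * ‖z‖ ^ 2 ≤ ‖q Φ z‖) {v : V} {u : W}
    {T : ℝ} {w : W} {c : ℝ} {z : V} (hw : ‖w‖ = 1) (hz : A Φ w z = 0)
    (h : q Φ (z + T • J1 (Ap Φ w v)) - c • w = u) :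
    |c| ≤ ‖u‖ ∧ m * (‖z‖ ^ 2 + 2 * (T ^ 2 * ‖Ap Φ w v‖ ^ 2)) ≤ 2 * ‖u‖ := by
  have e : T • J1 (Ap Φ w v) = J1 (T • Ap Φ w v) := by rw [map_smul]
  have hf : T • Ap Φ w v ∈ Fp (A Φ w) := (Fp (A Φ w)).smul_mem _ (Ap_mem w v)
  have h1 := isotropic hS w hz hf
  have h2 := norm_sq_iso hS w hz hf
  rw [← e] at h1 h2
  have hc : |c| ≤ ‖u‖ := by
    have h3 : ⟪w, u⟫_ℝ = -c := by
      rw [← h, inner_sub_right, h1, inner_smul_right, real_inner_self_eq_norm_sq, hw]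
      ring
    have h4 := abs_real_inner_le_norm w u
    rw [h3, abs_neg, hw, one_mul] at h4
    exact h4
  refine ⟨hc, ?_⟩
  have h5 := hm (z + T • J1 (Ap Φ w v))
  rw [h2, norm_smul, Real.norm_eq_abs, mul_pow, sq_abs] at h5
  have h6 : ‖q Φ (z + T • J1 (Ap Φ w v))‖ ≤ ‖u‖ + |c| := by
    have : q Φ (z + T • J1 (Ap Φ w v)) = u + c • w := by rw [← h]; abel
    rw [this]
    refine (norm_add_le _ _).trans ?_
    rw [norm_smul, hw, mul_one, Real.norm_eq_abs]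
  linarith

end

end Pool.Agent.Flip.Gam
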