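import Pool.Agent.Lib_helper89.Flip.Gamma1

/-!
# Block GAMMA, part 2: the Schur complement near a point of corank one
-/

set_option autoImplicit false

namespace Pool.Agent.Flip.Gam

open scoped InnerProductSpace ComplexConjugate
open Complex Set Metric Filter Topology Module Pool.Agent.Deg47

noncomputable section

variable {Φ : Sys} {w₀ : W}

/-- Projection onto the kernel of `A(w₀)`. -/
def PK (Φ : Sys) (w₀ : W) : V →L[ℝ] V := (Kr (A Φ w₀)).starProjection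

/-- The complementary projection. -/
def QK (Φ : Sys) (w₀ : W) : V →L[ℝ] V := ContinuousLinearMap.id ℝ V - PK Φ w₀

lemma QK_apply (x : V) : QK Φ w₀ x = x - PK Φ w₀ x := rfl

lemma PK_mem (x : V) : PK Φ w₀ x ∈ Kr (A Φ w₀) := Submodule.starProjection_apply_mem _ x

lemma PK_of_mem {x : V} (hx : x ∈ Kr (A Φ w₀)) : PK Φ w₀ x = x :=
  Submodule.starProjection_eq_self_iff.2 hx

@[simp] lemma PK_PK (x : V) : PK Φ w₀ (PK Φ w₀ x) = PK Φ w₀ x := PK_of_mem (PK_mem x)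

@[simp] lemma PK_QK (x : V) : PK Φ w₀ (QK Φ w₀ x) = 0 := by
  rw [QK_apply, map_sub, PK_PK, sub_self]

@[simp] lemma QK_PK (x : V) : QK Φ w₀ (PK Φ w₀ x) = 0 := by
  rw [QK_apply, PK_PK, sub_self]

@[simp] lemma QK_QK (x : V) : QK Φ w₀ (QK Φ w₀ x) = QK Φ w₀ x := by
  rw [QK_apply, PK_QK, sub_zero]

lemma PK_add_QK (x : V) : PK Φ w₀ x + QK Φ w₀ x = x := by rw [QK_apply]; abel

lemma inner_QK (x : V) {k : V} (hk : k ∈ Kr (A Φ w₀)) : ⟪QK Φ w₀ x, k⟫_ℝ = 0 :=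
  Submodule.starProjection_inner_eq_zero x k hk

lemma PK_eq_zero {x : V} (hx : ∀ k ∈ Kr (A Φ w₀), ⟪x, k⟫_ℝ = 0) : PK Φ w₀ x = 0 := by
  have h1 := inner_QK (Φ := Φ) (w₀ := w₀) x (PK_mem x)
  rw [QK_apply, inner_sub_left, hx _ (PK_mem x), zero_sub, neg_eq_zero] at h1
  exact inner_self_eq_zero.1 h1

lemma PK_A0 (hS : Symm Φ) (x : V) : PK Φ w₀ (A Φ w₀ x) = 0 := by
  refine PK_eq_zero fun k hk => ?_
  rw [A_sym hS, mem_Kr.1 hk, inner_zero_right]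

lemma A0_PK (x : V) : A Φ w₀ (PK Φ w₀ x) = 0 := mem_Kr.1 (PK_mem x)

lemma PK_J (x : V) : PK Φ w₀ (J x) = J (PK Φ w₀ x) := by
  have h : PK Φ w₀ (J x - J (PK Φ w₀ x)) = 0 := by
    refine PK_eq_zero fun k hk => ?_
    rw [← map_sub, inner_J_left]
    have := inner_QK (Φ := Φ) (w₀ := w₀) x (J_mem_Kr hk)
    rw [QK_apply] at this
    rw [this, neg_zero]
  rw [map_sub, sub_eq_zero] at h
  rw [h]
  exact PK_of_mem (J_mem_Kr (PK_mem x))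

lemma QK_J (x : V) : QK Φ w₀ (J x) = J (QK Φ w₀ x) := by
  rw [QK_apply, QK_apply, PK_J, map_sub]

lemma norm_PK_le (x : V) : ‖PK Φ w₀ x‖ ≤ ‖x‖ := Submodule.norm_starProjection_apply_le _ x

lemma norm_sq_PK_QK (x : V) : ‖x‖ ^ 2 = ‖PK Φ w₀ x‖ ^ 2 + ‖QK Φ w₀ x‖ ^ 2 := by
  conv_lhs => rw [← PK_add_QK (Φ := Φ) (w₀ := w₀) x]
  rw [norm_add_sq_real, real_inner_comm, inner_QK x (PK_mem x)]
  ring

lemma norm_QK_le (x : V) : ‖QK Φ w₀ x‖ ≤ ‖x‖ := by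
  have h := norm_sq_PK_QK (Φ := Φ) (w₀ := w₀) x
  exact le_of_sq_le_sq (by nlinarith [sq_nonneg ‖PK Φ w₀ x‖]) (norm_nonneg _)

/-- The block-diagonal operator `Q A(w) Q + P`. -/
def Dop (Φ : Sys) (w₀ w : W) : V →L[ℝ] V := QK Φ w₀ ∘L A Φ w ∘L QK Φ w₀ + PK Φ w₀

lemma Dop_apply (w : W) (x : V) :
    Dop Φ w₀ w x = QK Φ w₀ (A Φ w (QK Φ w₀ x)) + PK Φ w₀ x := rfl

lemma Dop_PK (w : W) (x : V) : Dop Φ w₀ w (PK Φ w₀ x) = PK Φ w₀ x := by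
  rw [Dop_apply, QK_PK, map_zero, map_zero, zero_add, PK_PK]

lemma PK_Dop (w : W) (x : V) : PK Φ w₀ (Dop Φ w₀ w x) = PK Φ w₀ x := by
  rw [Dop_apply, map_add, PK_QK, zero_add, PK_PK]

lemma Dop_QK (w : W) (x : V) : Dop Φ w₀ w (QK Φ w₀ x) = QK Φ w₀ (A Φ w (QK Φ w₀ x)) := by
  rw [Dop_apply, QK_QK, PK_QK, add_zero]

lemma continuous_Dop : Continuous (Dop Φ w₀) := by
  unfold Dop
  have := continuous_A Φ
  fun_prop

lemma isUnit_Dop₀ (hS : Symm Φ) : IsUnit (Dop Φ w₀ w₀) := by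
  rw [ContinuousLinearMap.isUnit_iff_bijective]
  have hinj : Function.Injective (Dop Φ w₀ w₀) := by
    rw [injective_iff_map_eq_zero]
    intro x hx
    have h1 : PK Φ w₀ x = 0 := by rw [← PK_Dop w₀ x, hx, map_zero]
    have h2 : QK Φ w₀ x = x := by rw [QK_apply, h1, sub_zero]
    rw [Dop_apply, h1, h2, add_zero, QK_apply, PK_A0 hS, sub_zero] at hx
    have : x ∈ Kr (A Φ w₀) := hx
    rw [← PK_of_mem this, h1]
  exact ⟨hinj, LinearMap.surjective_of_injective (f := (Dop Φ w₀ w₀ : V →ₗ[ℝ] V)) hinj⟩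

/-- The inverse of `Dop`. -/
def Di (Φ : Sys) (w₀ w : W) : V →L[ℝ] V := Ring.inverse (Dop Φ w₀ w)

lemma isOpen_unit : IsOpen {w | IsUnit (Dop Φ w₀ w)} := Units.isOpen.preimage continuous_Dop

lemma continuousOn_Di : ContinuousOn (Di Φ w₀) {w | IsUnit (Dop Φ w₀ w)} := by
  intro w hw
  obtain ⟨U, hU⟩ := id hw
  have h1 : ContinuousAt Ring.inverse (Dop Φ w₀ w) := by
    rw [← hU]; exact NormedRing.inverse_continuousAt U
  exact (h1.comp continuous_Dop.continuousAt).continuousWithinAt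

section unit

variable {w : W} (hU : IsUnit (Dop Φ w₀ w))

include hU

lemma Dop_Di (x : V) : Dop Φ w₀ w (Di Φ w₀ w x) = x := by
  have := Ring.mul_inverse_cancel _ hU
  exact congrArg (fun S : V →L[ℝ] V => S x) this

lemma Di_Dop (x : V) : Di Φ w₀ w (Dop Φ w₀ w x) = x := by
  have := Ring.inverse_mul_cancel _ hU
  exact congrArg (fun S : V →L[ℝ] V => S x) this

lemma Di_PK (x : V) : Di Φ w₀ w (PK Φ w₀ x) = PK Φ w₀ x := by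
  rw [← Dop_PK w x, Di_Dop hU, Dop_PK]

lemma PK_Di (x : V) : PK Φ w₀ (Di Φ w₀ w x) = PK Φ w₀ x := by
  rw [← PK_Dop w (Di Φ w₀ w x), Dop_Di hU]

end unit

/-- The operator `E_w : K → K^⊥`. -/
def Ee (Φ : Sys) (w₀ w : W) : V →L[ℝ] V := Di Φ w₀ w ∘L QK Φ w₀ ∘L A Φ w ∘L PK Φ w₀

lemma Ee_apply (w : W) (x : V) :
    Ee Φ w₀ w x = Di Φ w₀ w (QK Φ w₀ (A Φ w (PK Φ w₀ x))) := rfl

lemma Ee_PK (w : W) (x : V) : Ee Φ w₀ w (PK Φ w₀ x) = Ee Φ w₀ w x := by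
  rw [Ee_apply, Ee_apply, PK_PK]

/-- The Schur complement. -/
def Sc (Φ : Sys) (w₀ w : W) : V →L[ℝ] V := PK Φ w₀ ∘L A Φ w ∘L (PK Φ w₀ - Ee Φ w₀ w)

lemma Sc_apply (w : W) (x : V) :
    Sc Φ w₀ w x = PK Φ w₀ (A Φ w (PK Φ w₀ x - Ee Φ w₀ w x)) := rfl

lemma Sc_PK (w : W) (x : V) : Sc Φ w₀ w (PK Φ w₀ x) = Sc Φ w₀ w x := by
  rw [Sc_apply, Sc_apply, PK_PK, Ee_PK]

@[simp] lemma PK_Sc (w : W) (x : V) : PK Φ w₀ (Sc Φ w₀ w x) = Sc Φ w₀ w x := by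
  rw [Sc_apply, PK_PK]

@[simp] lemma QK_Sc (w : W) (x : V) : QK Φ w₀ (Sc Φ w₀ w x) = 0 := by
  rw [Sc_apply, QK_PK]

/-- The left multiplier. -/
def Mw (Φ : Sys) (w₀ w : W) : V →L[ℝ] V :=
  (ContinuousLinearMap.id ℝ V - PK Φ w₀ ∘L A Φ w ∘L QK Φ w₀) ∘L Di Φ w₀ w

lemma Mw_apply (w : W) (x : V) :
    Mw Φ w₀ w x = Di Φ w₀ w x - PK Φ w₀ (A Φ w (QK Φ w₀ (Di Φ w₀ w x))) := rfl

section unit

variable {w : W} (hU : IsUnit (Dop Φ w₀ w))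

include hU

@[simp] lemma PK_Ee (x : V) : PK Φ w₀ (Ee Φ w₀ w x) = 0 := by
  rw [Ee_apply, PK_Di hU, PK_QK]

@[simp] lemma QK_Ee (x : V) : QK Φ w₀ (Ee Φ w₀ w x) = Ee Φ w₀ w x := by
  rw [QK_apply, PK_Ee hU, sub_zero]

lemma QK_A_Ee (x : V) : QK Φ w₀ (A Φ w (Ee Φ w₀ w x)) = QK Φ w₀ (A Φ w (PK Φ w₀ x)) := by
  have h := Dop_Di hU (QK Φ w₀ (A Φ w (PK Φ w₀ x)))
  rw [← Ee_apply, Dop_apply, QK_Ee hU, PK_Ee hU, add_zero] at h
  exact h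

lemma Di_QAQ (x : V) : Di Φ w₀ w (QK Φ w₀ (A Φ w (QK Φ w₀ x))) = QK Φ w₀ x := by
  rw [← Dop_QK w x, Di_Dop hU]

/-- The factorization. -/
lemma Mw_A (z : V) : Mw Φ w₀ w (A Φ w z) = Sc Φ w₀ w z + (QK Φ w₀ z + Ee Φ w₀ w z) := by
  have h1 : Di Φ w₀ w (A Φ w z) = PK Φ w₀ (A Φ w z) + (QK Φ w₀ z + Ee Φ w₀ w z) := by
    have e : A Φ w z = PK Φ w₀ (A Φ w z) + (QK Φ w₀ (A Φ w (QK Φ w₀ z)) +
        QK Φ w₀ (A Φ w (PK Φ w₀ z))) := by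
      rw [← map_add, ← map_add, add_comm (QK Φ w₀ z), PK_add_QK, PK_add_QK]
    conv_lhs => rw [e]
    rw [map_add, map_add, Di_PK hU, Di_QAQ hU, ← Ee_apply]
  rw [Mw_apply, h1]
  have h2 : QK Φ w₀ (PK Φ w₀ (A Φ w z) + (QK Φ w₀ z + Ee Φ w₀ w z)) =
      QK Φ w₀ z + Ee Φ w₀ w z := by
    rw [map_add, map_add, QK_PK, QK_QK, QK_Ee hU, zero_add]
  rw [h2, Sc_apply]
  have h3 : PK Φ w₀ (A Φ w z) =
      PK Φ w₀ (A Φ w (PK Φ w₀ z)) + PK Φ w₀ (A Φ w (QK Φ w₀ z)) := by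
    rw [← map_add, ← map_add, PK_add_QK]
  rw [h3]
  simp only [map_add, map_sub]
  abel

lemma ker_iff (z : V) : A Φ w z = 0 → Sc Φ w₀ w z = 0 ∧ QK Φ w₀ z = - Ee Φ w₀ w z := by
  intro h
  have h1 := Mw_A hU z
  rw [h, map_zero] at h1
  have h2 := congrArg (PK Φ w₀) h1
  have h3 := congrArg (QK Φ w₀) h1
  simp only [map_zero, map_add, PK_Sc, PK_QK, PK_Ee hU, QK_Sc, QK_QK, QK_Ee hU, add_zero,
    zero_add] at h2 h3
  exact ⟨h2.symm, eq_neg_of_add_eq_zero_left h3.symm⟩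

lemma ker_of_Sc {x : V} (h : Sc Φ w₀ w x = 0) : A Φ w (PK Φ w₀ x - Ee Φ w₀ w x) = 0 := by
  rw [← PK_add_QK (Φ := Φ) (w₀ := w₀) (A Φ w (PK Φ w₀ x - Ee Φ w₀ w x)), ← Sc_apply, h, zero_add,
    map_sub, map_sub, QK_A_Ee hU, sub_self]

lemma Mw_injective {x : V} (h : Mw Φ w₀ w x = 0) : x = 0 := by
  rw [Mw_apply] at h
  have h3 := congrArg (QK Φ w₀) h
  rw [map_sub, QK_PK, sub_zero, map_zero] at h3
  rw [h3, map_zero, map_zero, sub_zero] at h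
  rw [← Dop_Di hU x, h, map_zero]

lemma det_Mw_ne : (Mw Φ w₀ w).det ≠ 0 := by
  rw [det_ne_zero_iff, injective_iff_map_eq_zero]
  exact fun x hx => Mw_injective hU hx

lemma Ee_J (x : V) : Ee Φ w₀ w (J x) = J (Ee Φ w₀ w x) := by
  -- both have the same image under `Dop`
  have h1 : Dop Φ w₀ w (Ee Φ w₀ w (J x)) = QK Φ w₀ (A Φ w (PK Φ w₀ (J x))) := Dop_Di hU _
  have h2 : Dop Φ w₀ w (J (Ee Φ w₀ w x)) = QK Φ w₀ (A Φ w (PK Φ w₀ (J x))) := by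
    rw [Dop_apply, QK_J, PK_J, PK_Ee hU, map_zero, add_zero, QK_Ee hU, A_J, map_neg, QK_J,
      QK_A_Ee hU, PK_J, A_J, map_neg, QK_J]
  have h3 : Dop Φ w₀ w (Ee Φ w₀ w (J x) - J (Ee Φ w₀ w x)) = 0 := by
    rw [map_sub, h1, h2, sub_self]
  have h4 := congrArg (Di Φ w₀ w) h3
  rw [Di_Dop hU, map_zero] at h4
  exact sub_eq_zero.1 h4

lemma Sc_J (x : V) : Sc Φ w₀ w (J x) = - J (Sc Φ w₀ w x) := by
  rw [Sc_apply, Sc_apply, PK_J, Ee_J hU, ← map_sub, A_J, map_neg, PK_J]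

end unit

lemma Ee₀ (hS : Symm Φ) : Ee Φ w₀ w₀ = 0 := by
  ext1 x
  rw [Ee_apply, A0_PK, map_zero, map_zero]; rfl

/-! ### Coordinates in the kernel -/

/-- A unit vector spanning the kernel over `ℂ`. -/
lemma Kr_eq (hw₀ : w₀ ∈ D1 Φ) {k₀ : V} (hk : k₀ ∈ Kr (A Φ w₀)) (hk1 : ‖k₀‖ = 1) (x : V) :
    PK Φ w₀ x = ⟪k₀, x⟫_ℝ • k₀ + ⟪J k₀, x⟫_ℝ • J k₀ := by
  -- `k₀, J k₀` is an orthonormal basis of the kernel
  have hJ : J k₀ ∈ Kr (A Φ w₀) := J_mem_Kr hk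
  have o1 : ⟪k₀, k₀⟫_ℝ = 1 := by rw [real_inner_self_eq_norm_sq, hk1]; norm_num
  have o2 : ⟪J k₀, J k₀⟫_ℝ = 1 := by rw [inner_J, o1]
  have o3 : ⟪J k₀, k₀⟫_ℝ = 0 := inner_J_self k₀
  have o4 : ⟪k₀, J k₀⟫_ℝ = 0 := by rw [real_inner_comm]; exact o3
  -- the span
  have hspan : Submodule.span ℝ {k₀, J k₀} = Kr (A Φ w₀) := by
    have hle : Submodule.span ℝ {k₀, J k₀} ≤ Kr (A Φ w₀) := by
      rw [Submodule.span_le]
      rintro y (rfl | rfl)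
      · exact hk
      · exact hJ
    refine Submodule.eq_of_le_of_finrank_le hle ?_
    have hli : LinearIndependent ℝ ![k₀, J k₀] := by
      rw [LinearIndependent.pair_iff]
      intro s t hst
      have e1 := congrArg (fun y => ⟪k₀, y⟫_ℝ) hst
      have e2 := congrArg (fun y => ⟪J k₀, y⟫_ℝ) hst
      simp only [inner_add_right, inner_smul_right, o1, o2, o3, o4, inner_zero_right] at e1 e2
      constructor <;> linarith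
    have h2 := finrank_span_eq_card hli
    have e : Set.range ![k₀, J k₀] = {k₀, J k₀} := by
      rw [Matrix.range_cons, Matrix.range_cons, Matrix.range_empty, Set.union_empty,
        Set.singleton_union]
    rw [e] at h2
    have h3 : finrank ℝ (Kr (A Φ w₀)) = 2 := hw₀.2
    rw [h3, h2]; simp
  have hmem := PK_mem (Φ := Φ) (w₀ := w₀) x
  rw [← hspan, Submodule.mem_span_pair] at hmem
  obtain ⟨a, b, hab⟩ := hmem
  have i1 : ⟪k₀, x⟫_ℝ = ⟪k₀, PK Φ w₀ x⟫_ℝ := by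
    have := inner_QK (Φ := Φ) (w₀ := w₀) x hk
    rw [QK_apply, inner_sub_left, sub_eq_zero] at this
    rw [real_inner_comm, this, real_inner_comm]
  have i2 : ⟪J k₀, x⟫_ℝ = ⟪J k₀, PK Φ w₀ x⟫_ℝ := by
    have := inner_QK (Φ := Φ) (w₀ := w₀) x hJ
    rw [QK_apply, inner_sub_left, sub_eq_zero] at this
    rw [real_inner_comm, this, real_inner_comm]
  rw [i1, i2, ← hab, inner_add_right, inner_add_right, inner_smul_right, inner_smul_right,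
    inner_smul_right, inner_smul_right, o1, o2, o3, o4]
  simp

/-- If the Schur complement kills `k₀`, it vanishes. -/
lemma Sc_eq_zero (hw₀ : w₀ ∈ D1 Φ) {k₀ : V} (hk : k₀ ∈ Kr (A Φ w₀)) (hk1 : ‖k₀‖ = 1) {w : W}
    (hU : IsUnit (Dop Φ w₀ w)) (h : Sc Φ w₀ w k₀ = 0) (x : V) : Sc Φ w₀ w x = 0 := by
  rw [← Sc_PK, Kr_eq hw₀ hk hk1 x, map_add, map_smul, map_smul, Sc_J hU, h]
  simp

lemma exists_ker_of_Sc {k₀ : V} (hk : k₀ ∈ Kr (A Φ w₀)) (hk1 : ‖k₀‖ = 1)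
    {w : W} (hU : IsUnit (Dop Φ w₀ w)) (h : Sc Φ w₀ w k₀ = 0) :
    ∃ z : V, z ≠ 0 ∧ A Φ w z = 0 := by
  refine ⟨_, ?_, ker_of_Sc hU h⟩
  intro h0
  have := congrArg (PK Φ w₀) h0
  rw [map_sub, PK_Ee hU, sub_zero, PK_PK, PK_of_mem hk, map_zero] at this
  rw [this, norm_zero] at hk1
  exact zero_ne_one hk1

end

end Pool.Agent.Flip.Gam
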