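import Pool.Agent.Lib_helper89.Flip.Gamma2

/-!
# Block GAMMA, part 3: the homotopy and its a priori bounds
-/

set_option autoImplicit false

namespace Pool.Agent.Flip.Gam

open scoped InnerProductSpace ComplexConjugate
open Complex Set Metric Filter Topology Module Pool.Agent.Deg47

noncomputable section

variable {Φ : Sys} {w₀ : W}

/-- The homotopy. -/
def Fth (Φ : Sys) (v : V) (u w₀ : W) (k₀ : V) (T θ : ℝ) (p : EE) : EE :=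
  (q Φ (p.2.2 + J1 (T • Ap Φ p.1 v) - θ • (QK Φ w₀ p.2.2 +
      J1 (T • Ap Φ p.1 v - Pr (A Φ w₀) (T • Ap Φ p.1 v))))
    - p.2.1 • ((1 - θ) • p.1 + θ • w₀) - u,
   ‖p.1‖ ^ 2 - 1,
   Sc Φ w₀ p.1 k₀ + (QK Φ w₀ p.2.2 + (1 - θ) • Ee Φ w₀ p.1 p.2.2))

lemma norm_J1_le (x : V) : ‖J1 x‖ ≤ 2 * ‖x‖ := by
  rw [J1_apply]
  refine (norm_add_le _ _).trans ?_
  rw [norm_J]; linarith

lemma Pr_norm_le (T : V →L[ℝ] V) (x : V) : ‖Pr T x‖ ≤ ‖x‖ :=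
  Submodule.norm_starProjection_apply_le _ x

/-- The basic geometric estimates for a zero of the homotopy. -/
structure ZeroEst (Φ : Sys) (v : V) (u w₀ : W) (T θ : ℝ) (w : W) (c : ℝ) (z : V) (R δ : ℝ) :
    Prop where
  memD : w ∈ D Φ
  normz : ‖z‖ ≤ 2 * R
  normb : ‖T • Ap Φ w v‖ ≤ R
  normc : |c| ≤ 4 * ‖u‖
  low : δ ≤ ‖PK Φ w₀ z‖

lemma fth_zero_est (hS : Symm Φ) {m CB : ℝ} (hm0 : 0 < m) (hm : ∀ z, m * ‖z‖ ^ 2 ≤ ‖q Φ z‖)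
    (hCB0 : 0 < CB) (hCB : ∀ x y : V, ‖B Φ x y‖ ≤ CB * ‖x‖ * ‖y‖)
    (hw₀ : w₀ ∈ D1 Φ) {k₀ : V} (hk : k₀ ∈ Kr (A Φ w₀)) (hk1 : ‖k₀‖ = 1)
    {v : V} {u : W} {R η : ℝ} (hR : 6 * ‖u‖ ≤ m * R ^ 2) (hR0 : 0 < R) (hη : 0 < η)
    (hlow : ∀ x ∈ Fp (A Φ w₀), ‖x‖ ≤ R → ∀ c : ℝ, |c| ≤ 4 * ‖u‖ →
      η ≤ ‖q Φ (J1 x) - c • w₀ - u‖)
    {w : W} (hU : IsUnit (Dop Φ w₀ w)) {e : ℝ} (he0 : 0 ≤ e) (he1 : e ≤ 1 / 4)
    (he2 : 72 * CB * e ≤ m) (he3 : e * (8 * CB * R ^ 2 + 4 * ‖u‖) ≤ η / 2)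
    (hE : ‖Ee Φ w₀ w‖ ≤ e) (hd : ‖w - w₀‖ ≤ e)
    (hp : 2 ≤ finrank ℝ (Kr (A Φ w)) → ‖Pr (A Φ w) - Pr (A Φ w₀)‖ ≤ e)
    {T θ : ℝ} (hθ : θ ∈ Icc (0 : ℝ) 1) {c : ℝ} {z : V}
    (h0 : Fth Φ v u w₀ k₀ T θ (w, c, z) = 0) :
    ZeroEst Φ v u w₀ T θ w c z R (η / (16 * CB * R)) := by
  unfold Fth at h0
  rw [Prod.mk_eq_zero, Prod.mk_eq_zero] at h0
  obtain ⟨h1, h2, h3⟩ := h0
  simp only at h1 h2 h3
  -- unpack the third equation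
  have h3P := congrArg (PK Φ w₀) h3
  have h3Q := congrArg (QK Φ w₀) h3
  simp only [map_zero, map_add, map_smul, PK_Sc, PK_QK, PK_Ee hU, QK_Sc, QK_QK, QK_Ee hU,
    add_zero, zero_add, smul_zero] at h3P h3Q
  have hQz : QK Φ w₀ z = -((1 - θ) • Ee Φ w₀ w z) := eq_neg_of_add_eq_zero_left h3Q
  have hw1 : ‖w‖ = 1 := by
    have : ‖w‖ ^ 2 = 1 := by linarith
    have h0 := norm_nonneg w
    nlinarith
  have hker := exists_ker_of_Sc hk hk1 hU h3P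
  have hwD : w ∈ D Φ := ⟨hw1, hker⟩
  have hfr := finrank_Kr_even hS w hker
  have hp' := hp hfr
  have hw₀1 : ‖w₀‖ = 1 := hw₀.1
  -- notation
  set b := T • Ap Φ w v with hb
  have hbF : b ∈ Fp (A Φ w) := (Fp (A Φ w)).smul_mem _ (Ap_mem w v)
  set z' := PK Φ w₀ z - Ee Φ w₀ w z with hz'
  have hz'0 : A Φ w z' = 0 := ker_of_Sc hU (Sc_eq_zero hw₀ hk hk1 hU h3P z)
  set x₀ := z' + J1 b with hx₀
  have hiso : ⟪w, q Φ x₀⟫_ℝ = 0 := isotropic hS w hz'0 hbF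
  have hnsq : ‖x₀‖ ^ 2 = ‖z'‖ ^ 2 + 2 * ‖b‖ ^ 2 := norm_sq_iso hS w hz'0 hbF
  set ρ := ‖x₀‖ with hρ
  have hρ0 : 0 ≤ ρ := norm_nonneg _
  have hz'ρ : ‖z'‖ ≤ ρ := le_of_sq_le_sq (by nlinarith [sq_nonneg ‖b‖]) hρ0
  have hbρ : ‖b‖ ≤ ρ := le_of_sq_le_sq (by nlinarith [sq_nonneg ‖z'‖, sq_nonneg ‖b‖]) hρ0
  have hPz' : PK Φ w₀ z' = PK Φ w₀ z := by rw [hz', map_sub, PK_PK, PK_Ee hU, sub_zero]
  have hPzρ : ‖PK Φ w₀ z‖ ≤ ρ := by rw [← hPz']; exact (norm_PK_le _).trans hz'ρ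
  have hEz : ‖Ee Φ w₀ w z‖ ≤ e * ‖PK Φ w₀ z‖ := by
    rw [← Ee_PK]
    exact ((Ee Φ w₀ w).le_opNorm _).trans (by gcongr)
  have hθ0 := hθ.1
  have hθ1 := hθ.2
  have hQzn : ‖QK Φ w₀ z‖ ≤ e * ‖PK Φ w₀ z‖ := by
    rw [hQz, norm_neg, norm_smul, Real.norm_of_nonneg (by linarith)]
    calc (1 - θ) * ‖Ee Φ w₀ w z‖ ≤ 1 * ‖Ee Φ w₀ w z‖ := by gcongr; linarith
      _ ≤ _ := by rw [one_mul]; exact hEz
  have hzz' : ‖z - z'‖ ≤ e * ‖PK Φ w₀ z‖ := by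
    have e1 : z - z' = θ • Ee Φ w₀ w z := by
      have e5 : z - z' = QK Φ w₀ z + Ee Φ w₀ w z := by
        rw [hz', QK_apply]; abel
      rw [e5, hQz, sub_smul, one_smul]; abel
    rw [e1, norm_smul, Real.norm_of_nonneg hθ0]
    calc θ * ‖Ee Φ w₀ w z‖ ≤ 1 * ‖Ee Φ w₀ w z‖ := by gcongr
      _ ≤ _ := by rw [one_mul]; exact hEz
  have hbPr : ‖b - Pr (A Φ w₀) b‖ ≤ e * ‖b‖ := by
    have e1 : b - Pr (A Φ w₀) b = (Pr (A Φ w) - Pr (A Φ w₀)) b := by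
      rw [sub_apply, Pr_of_mem hbF]
    rw [e1]
    exact (ContinuousLinearMap.le_opNorm _ _).trans (by gcongr)
  have hJ1b : ‖J1 (b - Pr (A Φ w₀) b)‖ ≤ 2 * (e * ‖b‖) :=
    (norm_J1_le _).trans (by gcongr)
  -- the argument of q
  set x := z + J1 b - θ • (QK Φ w₀ z + J1 (b - Pr (A Φ w₀) b)) with hx
  have hxx₀ : ‖x - x₀‖ ≤ 4 * e * ρ := by
    have e1 : x - x₀ = (z - z') - θ • (QK Φ w₀ z + J1 (b - Pr (A Φ w₀) b)) := by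
      rw [hx, hx₀]; abel
    rw [e1]
    refine (norm_sub_le _ _).trans ?_
    rw [norm_smul, Real.norm_of_nonneg hθ0]
    have e2 : ‖QK Φ w₀ z + J1 (b - Pr (A Φ w₀) b)‖ ≤ e * ‖PK Φ w₀ z‖ + 2 * (e * ‖b‖) :=
      (norm_add_le _ _).trans (add_le_add hQzn hJ1b)
    calc ‖z - z'‖ + θ * ‖QK Φ w₀ z + J1 (b - Pr (A Φ w₀) b)‖
        ≤ e * ‖PK Φ w₀ z‖ + 1 * (e * ‖PK Φ w₀ z‖ + 2 * (e * ‖b‖)) := by gcongr
      _ ≤ e * ρ + 1 * (e * ρ + 2 * (e * ρ)) := by gcongr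
      _ = 4 * e * ρ := by ring
  have hxρ : ‖x‖ ≤ 2 * ρ := by
    have e1 : ‖x‖ ≤ ‖x - x₀‖ + ‖x₀‖ := by
      have := norm_add_le (x - x₀) x₀
      rwa [sub_add_cancel] at this
    have e2 : 4 * e * ρ ≤ 1 * ρ := by gcongr; linarith
    linarith
  have hqd : ‖q Φ x - q Φ x₀‖ ≤ 12 * CB * e * ρ ^ 2 := by
    refine (q_sub_le hS hCB x x₀).trans ?_
    calc CB * (‖x‖ + ‖x₀‖) * ‖x - x₀‖ ≤ CB * (2 * ρ + ρ) * (4 * e * ρ) := by gcongr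
      _ = _ := by ring
  -- the vector w_θ
  set wθ := (1 - θ) • w + θ • w₀ with hwθ
  have hwθn : ‖wθ‖ ≤ 1 := by
    refine (norm_add_le _ _).trans ?_
    rw [norm_smul, norm_smul, hw1, hw₀1, Real.norm_of_nonneg hθ0,
      Real.norm_of_nonneg (by linarith)]
    linarith
  have hwθd : ‖wθ - w₀‖ ≤ e := by
    have e1 : wθ - w₀ = (1 - θ) • (w - w₀) := by
      rw [hwθ, smul_sub, sub_smul, sub_smul, one_smul, one_smul]; abel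
    rw [e1, norm_smul, Real.norm_of_nonneg (by linarith)]
    calc (1 - θ) * ‖w - w₀‖ ≤ 1 * ‖w - w₀‖ := by gcongr; linarith
      _ ≤ e := by rw [one_mul]; exact hd
  have hwθi : 1 / 2 ≤ ⟪w, wθ⟫_ℝ := by
    have e1 : wθ = w - θ • (w - w₀) := by
      rw [hwθ, smul_sub, sub_smul, one_smul]; abel
    rw [e1, inner_sub_right, real_inner_self_eq_norm_sq, hw1, inner_smul_right]
    have e2 := real_inner_le_norm w (w - w₀)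
    rw [hw1, one_mul] at e2
    have e3 : ⟪w, w - w₀⟫_ℝ ≤ e := e2.trans hd
    have e4 : θ * ⟪w, w - w₀⟫_ℝ ≤ e := by
      rcases le_total 0 ⟪w, w - w₀⟫_ℝ with h | h
      · calc θ * ⟪w, w - w₀⟫_ℝ ≤ 1 * ⟪w, w - w₀⟫_ℝ := by gcongr
          _ ≤ e := by rw [one_mul]; exact e3
      · have := mul_nonpos_of_nonneg_of_nonpos hθ0 h
        linarith
    linarith
  have heq : q Φ x = u + c • wθ := by
    have := sub_eq_zero.1 h1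
    rw [← this]; abel
  -- bound for c
  have hc1 : |c| ≤ 2 * ‖u‖ + 24 * CB * e * ρ ^ 2 := by
    have e1 : c * ⟪w, wθ⟫_ℝ = ⟪w, q Φ x - q Φ x₀⟫_ℝ - ⟪w, u⟫_ℝ := by
      have e9 : ⟪w, q Φ x⟫_ℝ = ⟪w, u⟫_ℝ + c * ⟪w, wθ⟫_ℝ := by
        rw [heq, inner_add_right w u (c • wθ), inner_smul_right]
      rw [inner_sub_right, hiso, e9]; ring
    have e2 : |c * ⟪w, wθ⟫_ℝ| ≤ 12 * CB * e * ρ ^ 2 + ‖u‖ := by
      rw [e1]
      refine (abs_sub _ _).trans ?_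
      have a1 := abs_real_inner_le_norm w (q Φ x - q Φ x₀)
      have a2 := abs_real_inner_le_norm w u
      rw [hw1, one_mul] at a1 a2
      linarith
    rw [abs_mul] at e2
    have e3 : |c| * (1 / 2) ≤ |c| * |⟪w, wθ⟫_ℝ| := by
      gcongr
      exact hwθi.trans (le_abs_self _)
    linarith
  -- bound for ρ
  have hρb : m * ρ ^ 2 ≤ 6 * ‖u‖ := by
    have e1 := hm x₀
    have e2 : ‖q Φ x₀‖ ≤ ‖q Φ x‖ + ‖q Φ x - q Φ x₀‖ := by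
      have := norm_sub_le (q Φ x) (q Φ x - q Φ x₀)
      rwa [sub_sub_cancel] at this
    have e3 : ‖q Φ x‖ ≤ ‖u‖ + |c| := by
      rw [heq]
      refine (norm_add_le _ _).trans ?_
      rw [norm_smul, Real.norm_eq_abs]
      have : |c| * ‖wθ‖ ≤ |c| * 1 := by gcongr
      linarith
    have e4 : 72 * CB * e * ρ ^ 2 ≤ m * ρ ^ 2 := by gcongr
    rw [← hρ] at e1
    linarith
  have hρR : ρ ≤ R := by
    refine le_of_sq_le_sq ?_ hR0.le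
    have : m * ρ ^ 2 ≤ m * R ^ 2 := hρb.trans hR
    exact le_of_mul_le_mul_left this hm0
  have hc : |c| ≤ 4 * ‖u‖ := by
    have e4 : 72 * CB * e * ρ ^ 2 ≤ m * ρ ^ 2 := by gcongr
    linarith
  -- lower bound
  have hlow' : η / (16 * CB * R) ≤ ‖PK Φ w₀ z‖ := by
    set x' := Pr (A Φ w₀) b with hx'
    have hx'F : x' ∈ Fp (A Φ w₀) := Pr_mem _ _
    have hx'n : ‖x'‖ ≤ R := (Pr_norm_le _ _).trans (hbρ.trans hρR)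
    have e1 := hlow x' hx'F hx'n c hc
    have e2 : q Φ (J1 x') - c • w₀ - u = (q Φ (J1 x') - q Φ x) + c • (wθ - w₀) := by
      rw [heq, smul_sub]; abel
    have e3 : ‖J1 x' - x‖ ≤ 2 * ‖PK Φ w₀ z‖ + 2 * e * R := by
      have e4 : J1 x' - x = -((PK Φ w₀ z + QK Φ w₀ z) - θ • QK Φ w₀ z +
          (1 - θ) • J1 (b - x')) := by
        rw [PK_add_QK, hx, smul_add, map_sub, sub_smul, one_smul]
        simp only [smul_sub]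
        abel
      rw [e4, norm_neg]
      have a1 : ‖(1 - θ) • J1 (b - x')‖ ≤ 2 * (e * ‖b‖) := by
        rw [norm_smul, Real.norm_of_nonneg (by linarith)]
        calc (1 - θ) * ‖J1 (b - x')‖ ≤ 1 * (2 * (e * ‖b‖)) := by gcongr; linarith
          _ = _ := by ring
      have a2 : ‖θ • QK Φ w₀ z‖ ≤ e * ‖PK Φ w₀ z‖ := by
        rw [norm_smul, Real.norm_of_nonneg hθ0]
        calc θ * ‖QK Φ w₀ z‖ ≤ 1 * (e * ‖PK Φ w₀ z‖) := by gcongr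
          _ = _ := by ring
      calc ‖(PK Φ w₀ z + QK Φ w₀ z) - θ • QK Φ w₀ z + (1 - θ) • J1 (b - x')‖
          ≤ ‖(PK Φ w₀ z + QK Φ w₀ z) - θ • QK Φ w₀ z‖ + ‖(1 - θ) • J1 (b - x')‖ :=
            norm_add_le _ _
        _ ≤ (‖PK Φ w₀ z + QK Φ w₀ z‖ + ‖θ • QK Φ w₀ z‖) + 2 * (e * ‖b‖) :=
            add_le_add (norm_sub_le _ _) a1
        _ ≤ ((‖PK Φ w₀ z‖ + ‖QK Φ w₀ z‖) + e * ‖PK Φ w₀ z‖) + 2 * (e * ‖b‖) := by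
            gcongr
            exact norm_add_le _ _
        _ ≤ ((‖PK Φ w₀ z‖ + e * ‖PK Φ w₀ z‖) + e * ‖PK Φ w₀ z‖) + 2 * (e * R) := by
            gcongr
            exact hbρ.trans hρR
        _ ≤ ((‖PK Φ w₀ z‖ + (1 / 4) * ‖PK Φ w₀ z‖) + (1 / 4) * ‖PK Φ w₀ z‖) + 2 * (e * R) := by
            gcongr
        _ ≤ _ := by nlinarith [norm_nonneg (PK Φ w₀ z)]
    have e5 : ‖q Φ (J1 x') - q Φ x‖ ≤ CB * (2 * R + 2 * R) * (2 * ‖PK Φ w₀ z‖ + 2 * e * R) := by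
      refine (q_sub_le hS hCB _ _).trans ?_
      have a1 : ‖J1 x'‖ ≤ 2 * R := (norm_J1_le _).trans (by gcongr)
      have a2 : ‖x‖ ≤ 2 * R := hxρ.trans (by gcongr)
      gcongr
    have e6 : ‖c • (wθ - w₀)‖ ≤ 4 * ‖u‖ * e := by
      rw [norm_smul, Real.norm_eq_abs]
      gcongr
    rw [e2] at e1
    have e7 := e1.trans (norm_add_le _ _)
    have e8 : η / 2 ≤ 8 * CB * R * ‖PK Φ w₀ z‖ := by nlinarith
    rw [div_le_iff₀ (by positivity)]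
    linarith
  refine ⟨hwD, ?_, hbρ.trans hρR, hc, hlow'⟩
  have e1 : ‖z‖ ≤ ‖PK Φ w₀ z‖ + ‖QK Φ w₀ z‖ := by
    have := norm_add_le (PK Φ w₀ z) (QK Φ w₀ z)
    rwa [PK_add_QK] at this
  have e2 : e * ‖PK Φ w₀ z‖ ≤ 1 * ‖PK Φ w₀ z‖ := by gcongr; linarith
  have e3 : ‖PK Φ w₀ z‖ ≤ R := hPzρ.trans hρR
  linarith

end

end Pool.Agent.Flip.Gam
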