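import Pool.Agent.Lib_helper89.Flip.Gamma3

/-!
# Block GAMMA, part 4: from the system to the frozen system
-/

set_option autoImplicit false

namespace Pool.Agent.Flip.Gam

open scoped InnerProductSpace ComplexConjugate
open Complex Set Metric Filter Topology Module Pool.Agent.Deg47

noncomputable section

variable {Φ : Sys} {w₀ : W}

/-! ### The complex scalars on the kernel -/

/-- `(a + b i)` on the kernel, identity on its complement. -/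
def Tc (Φ : Sys) (w₀ : W) (a b : ℝ) : V →L[ℝ] V :=
  (a • ContinuousLinearMap.id ℝ V + b • J) ∘L PK Φ w₀ + QK Φ w₀

lemma Tc_apply (a b : ℝ) (x : V) :
    Tc Φ w₀ a b x = (a • PK Φ w₀ x + b • J (PK Φ w₀ x)) + QK Φ w₀ x := rfl

lemma PK_Tc (a b : ℝ) (x : V) :
    PK Φ w₀ (Tc Φ w₀ a b x) = a • PK Φ w₀ x + b • J (PK Φ w₀ x) := by
  rw [Tc_apply, map_add, map_add, map_smul, map_smul, PK_PK, PK_J, PK_PK, PK_QK, add_zero]

lemma QK_Tc (a b : ℝ) (x : V) : QK Φ w₀ (Tc Φ w₀ a b x) = QK Φ w₀ x := by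
  rw [Tc_apply, map_add, map_add, map_smul, map_smul, QK_PK, QK_J, QK_PK, QK_QK]
  simp

lemma Tc_comp (a b c d : ℝ) :
    Tc Φ w₀ a b ∘L Tc Φ w₀ c d = Tc Φ w₀ (a * c - b * d) (a * d + b * c) := by
  ext1 x
  change Tc Φ w₀ a b (Tc Φ w₀ c d x) = _
  rw [Tc_apply a b, PK_Tc, QK_Tc, Tc_apply]
  congr 1
  rw [map_add, map_smul, map_smul, J_J, smul_add, smul_add, smul_smul, smul_smul, smul_smul,
    smul_smul, smul_neg, sub_smul, add_smul]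
  abel

lemma Tc_one : Tc Φ w₀ 1 0 = ContinuousLinearMap.id ℝ V := by
  ext1 x
  rw [Tc_apply, one_smul, zero_smul, add_zero, PK_add_QK]; rfl

lemma det_Tc_ne {a b : ℝ} (h : a ^ 2 + b ^ 2 ≠ 0) : (Tc Φ w₀ a b).det ≠ 0 := by
  have h1 := Tc_comp (Φ := Φ) (w₀ := w₀) (a / (a ^ 2 + b ^ 2)) (-b / (a ^ 2 + b ^ 2)) a b
  have e1 : a / (a ^ 2 + b ^ 2) * a - -b / (a ^ 2 + b ^ 2) * b = 1 := by field_simp; ring
  have e2 : a / (a ^ 2 + b ^ 2) * b + -b / (a ^ 2 + b ^ 2) * a = 0 := by ring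
  rw [e1, e2, Tc_one] at h1
  have h2 := congrArg ContinuousLinearMap.det h1
  rw [det_comp'] at h2
  intro h0
  rw [h0, mul_zero] at h2
  have : (ContinuousLinearMap.id ℝ V).det = 1 := by
    unfold ContinuousLinearMap.det
    exact LinearMap.det_id
  rw [this] at h2
  exact zero_ne_one h2

lemma det_Tc_pos {a b : ℝ} (h : a ^ 2 + b ^ 2 ≠ 0) : 0 < (Tc Φ w₀ a b).det := by
  obtain ⟨s, hs⟩ := IsAlgClosed.exists_pow_nat_eq (⟨a, b⟩ : ℂ) (n := 2) (by norm_num)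
  have ha : s.re * s.re - s.im * s.im = a := by
    have := congrArg Complex.re hs
    simpa [sq] using this
  have hb : s.re * s.im + s.im * s.re = b := by
    have := congrArg Complex.im hs
    simpa [sq] using this
  have h1 := Tc_comp (Φ := Φ) (w₀ := w₀) s.re s.im s.re s.im
  rw [ha, hb] at h1
  have h2 := congrArg ContinuousLinearMap.det h1
  rw [det_comp'] at h2
  have h3 : s.re ^ 2 + s.im ^ 2 ≠ 0 := by
    intro h0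
    apply h
    rw [← ha, ← hb]
    nlinarith [sq_nonneg s.re, sq_nonneg s.im]
  have h4 := det_Tc_ne (Φ := Φ) (w₀ := w₀) h3
  rw [← h2]
  exact mul_self_pos.2 h4

lemma continuous_Tc : Continuous (fun p : ℝ × ℝ => Tc Φ w₀ p.1 p.2) := by
  unfold Tc
  fun_prop

/-- coordinates -/
lemma Sc_expand (hw₀ : w₀ ∈ D1 Φ) {k₀ : V} (hk : k₀ ∈ Kr (A Φ w₀)) (hk1 : ‖k₀‖ = 1) {w : W}
    (hU : IsUnit (Dop Φ w₀ w)) (z : V) :
    Sc Φ w₀ w z = ⟪k₀, z⟫_ℝ • Sc Φ w₀ w k₀ - ⟪J k₀, z⟫_ℝ • J (Sc Φ w₀ w k₀) := by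
  rw [← Sc_PK, Kr_eq hw₀ hk hk1 z, map_add, map_smul, map_smul, Sc_J hU, smul_neg, sub_eq_add_neg]

lemma norm_sq_PK (hw₀ : w₀ ∈ D1 Φ) {k₀ : V} (hk : k₀ ∈ Kr (A Φ w₀)) (hk1 : ‖k₀‖ = 1) (z : V) :
    ‖PK Φ w₀ z‖ ^ 2 = ⟪k₀, z⟫_ℝ ^ 2 + ⟪J k₀, z⟫_ℝ ^ 2 := by
  rw [Kr_eq hw₀ hk hk1 z, norm_add_sq_real, norm_smul, norm_smul, norm_J, hk1,
    real_inner_smul_left, inner_smul_right, real_inner_comm (J k₀) k₀, inner_J_self]
  simp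

/-- The inverse scalar. -/
def Rz (Φ : Sys) (w₀ : W) (k₀ z : V) : V →L[ℝ] V :=
  Tc Φ w₀ (⟪k₀, z⟫_ℝ / (⟪k₀, z⟫_ℝ ^ 2 + ⟪J k₀, z⟫_ℝ ^ 2))
    (⟪J k₀, z⟫_ℝ / (⟪k₀, z⟫_ℝ ^ 2 + ⟪J k₀, z⟫_ℝ ^ 2))

lemma det_Rz_pos (hw₀ : w₀ ∈ D1 Φ) {k₀ : V} (hk : k₀ ∈ Kr (A Φ w₀)) (hk1 : ‖k₀‖ = 1) {z : V}
    (hz : PK Φ w₀ z ≠ 0) : 0 < (Rz Φ w₀ k₀ z).det := by
  refine det_Tc_pos ?_
  have h1 := norm_sq_PK hw₀ hk hk1 z
  have h2 : 0 < ‖PK Φ w₀ z‖ ^ 2 := by positivity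
  rw [h1] at h2
  set a := ⟪k₀, z⟫_ℝ
  set b := ⟪J k₀, z⟫_ℝ
  have : (a / (a ^ 2 + b ^ 2)) ^ 2 + (b / (a ^ 2 + b ^ 2)) ^ 2 = 1 / (a ^ 2 + b ^ 2) := by
    field_simp
  rw [this]
  positivity

lemma continuousOn_Rz (hw₀ : w₀ ∈ D1 Φ) {k₀ : V} (hk : k₀ ∈ Kr (A Φ w₀)) (hk1 : ‖k₀‖ = 1) :
    ContinuousOn (Rz Φ w₀ k₀) {z | PK Φ w₀ z ≠ 0} := by
  unfold Rz
  refine (continuous_Tc (Φ := Φ) (w₀ := w₀)).comp_continuousOn (s := {z | PK Φ w₀ z ≠ 0})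
    (f := fun z => ((⟪k₀, z⟫_ℝ / (⟪k₀, z⟫_ℝ ^ 2 + ⟪J k₀, z⟫_ℝ ^ 2)),
    (⟪J k₀, z⟫_ℝ / (⟪k₀, z⟫_ℝ ^ 2 + ⟪J k₀, z⟫_ℝ ^ 2)))) ?_
  have hne : ∀ z ∈ {z | PK Φ w₀ z ≠ 0}, ⟪k₀, z⟫_ℝ ^ 2 + ⟪J k₀, z⟫_ℝ ^ 2 ≠ 0 := by
    intro z hz
    rw [← norm_sq_PK hw₀ hk hk1 z]
    have : PK Φ w₀ z ≠ 0 := hz
    positivity
  refine ContinuousOn.prodMk ?_ ?_
  · exact ContinuousOn.div (by fun_prop) (by fun_prop) hne
  · exact ContinuousOn.div (by fun_prop) (by fun_prop) hne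

/-- The inverse scalar turns `Sc w z` into `Sc w k₀`. -/
lemma Rz_Sc (hw₀ : w₀ ∈ D1 Φ) {k₀ : V} (hk : k₀ ∈ Kr (A Φ w₀)) (hk1 : ‖k₀‖ = 1) {w : W}
    (hU : IsUnit (Dop Φ w₀ w)) {z : V} (hz : PK Φ w₀ z ≠ 0) {y : V} (hy : PK Φ w₀ y = 0) :
    Rz Φ w₀ k₀ z (Sc Φ w₀ w z + y) = Sc Φ w₀ w k₀ + y := by
  have h1 := norm_sq_PK hw₀ hk hk1 z
  have h2 : 0 < ‖PK Φ w₀ z‖ ^ 2 := by positivity
  rw [h1] at h2
  have hQy : QK Φ w₀ y = y := by rw [QK_apply, hy, sub_zero]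
  unfold Rz
  rw [Tc_apply, map_add (PK Φ w₀), map_add (QK Φ w₀), hy, add_zero, QK_Sc, zero_add, hQy, PK_Sc,
    Sc_expand hw₀ hk hk1 hU z]
  set a := ⟪k₀, z⟫_ℝ
  set b := ⟪J k₀, z⟫_ℝ
  set s := Sc Φ w₀ w k₀
  congr 1
  have e1 : a / (a ^ 2 + b ^ 2) * a + b / (a ^ 2 + b ^ 2) * b = 1 := by field_simp
  have e2 : b / (a ^ 2 + b ^ 2) * a - a / (a ^ 2 + b ^ 2) * b = 0 := by ring
  calc (a / (a ^ 2 + b ^ 2)) • (a • s - b • J s) + (b / (a ^ 2 + b ^ 2)) • J (a • s - b • J s)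
      = (a / (a ^ 2 + b ^ 2) * a + b / (a ^ 2 + b ^ 2) * b) • s
        + (b / (a ^ 2 + b ^ 2) * a - a / (a ^ 2 + b ^ 2) * b) • J s := by
        rw [map_sub, map_smul, map_smul, J_J]
        simp only [smul_sub, smul_smul, smul_neg, add_smul, sub_smul]
        abel
    _ = s := by rw [e1, e2, one_smul, zero_smul, add_zero]

/-! ### Continuity of the Schur operators -/

lemma continuousOn_Ee : ContinuousOn (Ee Φ w₀) {w | IsUnit (Dop Φ w₀ w)} := by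
  unfold Ee
  have h1 := continuousOn_Di (Φ := Φ) (w₀ := w₀)
  have h2 : Continuous fun w => QK Φ w₀ ∘L A Φ w ∘L PK Φ w₀ := by
    have := continuous_A Φ
    fun_prop
  exact h1.clm_comp h2.continuousOn

lemma continuousOn_Sc : ContinuousOn (Sc Φ w₀) {w | IsUnit (Dop Φ w₀ w)} := by
  unfold Sc
  have h1 := continuousOn_Ee (Φ := Φ) (w₀ := w₀)
  have h2 : Continuous (A Φ) := continuous_A Φ
  exact continuousOn_const.clm_comp (h2.continuousOn.clm_comp (continuousOn_const.sub h1))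

lemma continuousOn_Mw : ContinuousOn (Mw Φ w₀) {w | IsUnit (Dop Φ w₀ w)} := by
  unfold Mw
  have h1 := continuousOn_Di (Φ := Φ) (w₀ := w₀)
  have h2 : Continuous fun w => (ContinuousLinearMap.id ℝ V - PK Φ w₀ ∘L A Φ w ∘L QK Φ w₀) := by
    have := continuous_A Φ
    fun_prop
  exact h2.continuousOn.clm_comp h1

lemma continuous_det : Continuous (fun S : V →L[ℝ] V => S.det) := by
  exact ContinuousLinearMap.continuous_det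

/-- The good radius. -/
lemma exists_radius (hS : Symm Φ) (w₀ : W) {e : ℝ} (he : 0 < e)
    (hk2 : finrank ℝ (Kr (A Φ w₀)) = 2) :
    ∀ᶠ w in 𝓝 w₀, IsUnit (Dop Φ w₀ w) ∧ ‖Ee Φ w₀ w‖ ≤ e ∧ ‖w - w₀‖ ≤ e ∧
      (2 ≤ finrank ℝ (Kr (A Φ w)) → ‖Pr (A Φ w) - Pr (A Φ w₀)‖ ≤ e) ∧
      SignType.sign (Mw Φ w₀ w).det = SignType.sign (Mw Φ w₀ w₀).det := by
  have hopen := isOpen_unit (Φ := Φ) (w₀ := w₀)
  have h0 : w₀ ∈ {w | IsUnit (Dop Φ w₀ w)} := isUnit_Dop₀ hS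
  have hn := hopen.mem_nhds h0
  have c1 : ContinuousAt (Ee Φ w₀) w₀ := continuousOn_Ee.continuousAt hn
  have c2 : ContinuousAt (Mw Φ w₀) w₀ := continuousOn_Mw.continuousAt hn
  have a1 : ∀ᶠ w in 𝓝 w₀, ‖Ee Φ w₀ w‖ ≤ e := by
    have : Tendsto (fun w => ‖Ee Φ w₀ w‖) (𝓝 w₀) (𝓝 0) := by
      have := c1.norm.tendsto
      simpa [Ee₀ hS] using this
    exact this.eventually_le_const he
  have a2 : ∀ᶠ w in 𝓝 w₀, ‖w - w₀‖ ≤ e := by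
    have : Tendsto (fun w => ‖w - w₀‖) (𝓝 w₀) (𝓝 0) := by
      have : Continuous (fun w : W => ‖w - w₀‖) := by fun_prop
      simpa using this.tendsto w₀
    exact this.eventually_le_const he
  have a3 : ∀ᶠ w in 𝓝 w₀, SignType.sign (Mw Φ w₀ w).det = SignType.sign (Mw Φ w₀ w₀).det := by
    have hd : ContinuousAt (fun w => (Mw Φ w₀ w).det) w₀ :=
      continuous_det.continuousAt.comp c2
    have hne := det_Mw_ne (Φ := Φ) (w₀ := w₀) h0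
    rcases lt_or_gt_of_ne hne with h | h
    · filter_upwards [hd.eventually_lt_const h] with w hw
      rw [sign_neg hw, sign_neg h]
    · filter_upwards [hd.eventually_const_lt h] with w hw
      rw [sign_pos hw, sign_pos h]
  have a4 : ∀ᶠ w in 𝓝 w₀, (2 ≤ finrank ℝ (Kr (A Φ w)) → ‖Pr (A Φ w) - Pr (A Φ w₀)‖ ≤ e) := by
    obtain ⟨δ, hδ, hgap⟩ := exists_gap_near (A_sym hS w₀)
    have g0 := (hgap (A Φ w₀) (A_sym hS w₀) (by rw [sub_self, norm_zero]; exact hδ)).2 le_rfl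
    have hcont : Tendsto (fun w => ‖A Φ w - A Φ w₀‖) (𝓝 w₀) (𝓝 0) := by
      have hA := continuous_A Φ
      have : Continuous (fun w : W => ‖A Φ w - A Φ w₀‖) := by fun_prop
      simpa using this.tendsto w₀
    set Cp := 2 * δ⁻¹ * Real.sqrt (finrank ℝ V) with hCp
    have hCp0 : 0 ≤ Cp := by positivity
    have hcont2 : Tendsto (fun w => Cp * ‖A Φ w - A Φ w₀‖) (𝓝 w₀) (𝓝 0) := by
      have := hcont.const_mul Cp
      simpa using this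
    filter_upwards [hcont.eventually_lt_const hδ, hcont2.eventually_le_const he] with w hw1 hw2 hfr
    have g1 := (hgap (A Φ w) (A_sym hS w) hw1).2 (by rw [hk2]; exact hfr)
    rw [← prj_eq (A_sym hS w) hδ g1.1, ← prj_eq (A_sym hS w₀) hδ g0.1]
    exact (prj_lip (A_sym hS w) (A_sym hS w₀) hδ).trans hw2
  filter_upwards [hn, a1, a2, a3, a4] with w b0 b1 b2 b3 b4
  exact ⟨b0, b1, b2, b4, b3⟩

end

end Pool.Agent.Flip.Gam
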