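import Pool.Agent.Lib_helper89.Flip.Gamma4

/-!
# Block GAMMA, part 5: the homotopy argument
-/

set_option autoImplicit false

namespace Pool.Agent.Flip.Gam

open scoped InnerProductSpace ComplexConjugate
open Complex Set Metric Filter Topology Module Pool.Agent.Deg47

noncomputable section

variable {Φ : Sys} {w₀ : W}

/-- Local data near a point of corank one. -/
structure Loc (Φ : Sys) (v : V) (u w₀ : W) (k₀ : V) (r R δ : ℝ) : Prop where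
  mem : w₀ ∈ D1 Φ
  ker : k₀ ∈ Kr (A Φ w₀)
  nrm : ‖k₀‖ = 1
  r_pos : 0 < r
  R_pos : 0 < R
  δ_pos : 0 < δ
  unit : ∀ w, ‖w - w₀‖ ≤ r → IsUnit (Dop Φ w₀ w)
  sgn : ∀ w, ‖w - w₀‖ ≤ r → SignType.sign (Mw Φ w₀ w).det = SignType.sign (Mw Φ w₀ w₀).det
  est : ∀ w, ‖w - w₀‖ ≤ r → ∀ (T θ : ℝ), θ ∈ Icc (0 : ℝ) 1 → ∀ (c : ℝ) (z : V),
    Fth Φ v u w₀ k₀ T θ (w, c, z) = 0 → ZeroEst Φ v u w₀ T θ w c z R δ
  prc : ∀ w, ‖w - w₀‖ ≤ r → 2 ≤ finrank ℝ (Kr (A Φ w)) → ‖Pr (A Φ w) - Pr (A Φ w₀)‖ ≤ 1 / 4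
  isol : ∀ w ∈ D Φ, ‖w - w₀‖ ≤ r → Ap Φ w v = 0 → w = w₀

/-- The open domain. -/
def Ur (Φ : Sys) (w₀ : W) (r : ℝ) : Set EE := {p | p.1 ∈ ball w₀ r ∧ PK Φ w₀ p.2.2 ≠ 0}

/-- The compact set containing the zeros. -/
def Kc (Φ : Sys) (u w₀ : W) (r R δ : ℝ) : Set EE :=
  {p | ‖p.1 - w₀‖ ≤ r / 2 ∧ |p.2.1| ≤ 4 * ‖u‖ ∧ ‖p.2.2‖ ≤ 2 * R ∧ δ ≤ ‖PK Φ w₀ p.2.2‖}

lemma isOpen_Ur {r : ℝ} : IsOpen (Ur Φ w₀ r) := by
  unfold Ur
  refine (isOpen_ball.preimage continuous_fst).inter ?_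
  exact isOpen_ne_fun (by fun_prop) continuous_const

lemma isCompact_Kc {u : W} {r R δ : ℝ} : IsCompact (Kc Φ u w₀ r R δ) := by
  have hcl : IsClosed (Kc Φ u w₀ r R δ) := by
    have h1 : IsClosed {p : EE | ‖p.1 - w₀‖ ≤ r / 2} := isClosed_le (by fun_prop) (by fun_prop)
    have h2 : IsClosed {p : EE | |p.2.1| ≤ 4 * ‖u‖} := isClosed_le (by fun_prop) (by fun_prop)
    have h3 : IsClosed {p : EE | ‖p.2.2‖ ≤ 2 * R} := isClosed_le (by fun_prop) (by fun_prop)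
    have h4 : IsClosed {p : EE | δ ≤ ‖PK Φ w₀ p.2.2‖} := isClosed_le (by fun_prop) (by fun_prop)
    exact h1.inter (h2.inter (h3.inter h4))
  refine IsCompact.of_isClosed_subset ((isCompact_closedBall w₀ (r / 2)).prod
    ((isCompact_closedBall (0 : ℝ) (4 * ‖u‖)).prod (isCompact_closedBall (0 : V) (2 * R)))) hcl ?_
  rintro ⟨w, c, z⟩ ⟨h1, h2, h3, -⟩
  refine ⟨?_, ?_, ?_⟩
  · simpa [dist_eq_norm] using h1
  · simpa using h2
  · simpa using h3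

lemma Kc_subset_Ur {u : W} {r R δ : ℝ} (hr : 0 < r) (hδ : 0 < δ) :
    Kc Φ u w₀ r R δ ⊆ Ur Φ w₀ r := by
  rintro ⟨w, c, z⟩ ⟨h1, -, -, h4⟩
  refine ⟨?_, ?_⟩
  · rw [mem_ball, dist_eq_norm]
    exact lt_of_le_of_lt h1 (by linarith)
  · intro h0
    simp only at h4 h0
    rw [h0, norm_zero] at h4
    linarith

variable {v : V} {u : W} {k₀ : V} {r R δ : ℝ}

/-- For large `T` the zeros of the homotopy over the ball stay in a fixed compact set. -/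
lemma Loc.eventually (hS : Symm Φ) (h : Loc Φ v u w₀ k₀ r R δ) :
    ∀ᶠ T : ℝ in atTop, ∀ θ ∈ Icc (0 : ℝ) 1, ∀ p : EE, ‖p.1 - w₀‖ ≤ r →
      Fth Φ v u w₀ k₀ T θ p = 0 → p ∈ Kc Φ u w₀ r R δ := by
  -- lower bound of `‖A_+ v‖` on the annulus
  set C : Set W := D Φ ∩ {w | r / 2 ≤ ‖w - w₀‖ ∧ ‖w - w₀‖ ≤ r} with hC
  have hCc : IsCompact C := by
    refine (isCompact_D Φ).inter_right ?_
    have h1 : IsClosed {w : W | r / 2 ≤ ‖w - w₀‖} := isClosed_le (by fun_prop) (by fun_prop)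
    have h2 : IsClosed {w : W | ‖w - w₀‖ ≤ r} := isClosed_le (by fun_prop) (by fun_prop)
    exact h1.inter h2
  have hcont : Continuous fun w => ‖Ap Φ w v‖ := by
    have := continuous_Ap hS
    fun_prop
  obtain ⟨ε, hε, hεb⟩ : ∃ ε > 0, ∀ w ∈ C, ε ≤ ‖Ap Φ w v‖ := by
    rcases C.eq_empty_or_nonempty with he | hne
    · exact ⟨1, one_pos, fun w hw => by rw [he] at hw; exact hw.elim⟩
    · obtain ⟨w1, hw1, hmin⟩ := hCc.exists_isMinOn hne hcont.continuousOn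
      refine ⟨‖Ap Φ w1 v‖, ?_, fun w hw => hmin hw⟩
      rw [gt_iff_lt, norm_pos_iff]
      intro h0
      have := h.isol w1 hw1.1 hw1.2.2 h0
      have h2 := hw1.2.1
      rw [this, sub_self, norm_zero] at h2
      have := h.r_pos
      linarith
  filter_upwards [eventually_gt_atTop (R / ε), eventually_gt_atTop 0] with T hT hT0 θ hθ p hp h0
  obtain ⟨w, c, z⟩ := p
  have E := h.est w hp T θ hθ c z h0
  refine ⟨?_, E.normc, E.normz, E.low⟩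
  by_contra hcon
  push Not at hcon
  have hwC : w ∈ C := ⟨E.memD, hcon.le, hp⟩
  have h1 := hεb w hwC
  have h2 := E.normb
  rw [norm_smul, Real.norm_of_nonneg hT0.le] at h2
  have h3 : R < T * ε := by
    rw [div_lt_iff₀ hε] at hT
    exact hT
  have h4 : T * ε ≤ T * ‖Ap Φ w v‖ := by gcongr
  linarith

/-- The left multiplier on the total space. -/
def MM (Φ : Sys) (w₀ : W) (k₀ : V) (p : EE) : EE →L[ℝ] EE :=
  (ContinuousLinearMap.id ℝ W).prodMap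
    ((ContinuousLinearMap.id ℝ ℝ).prodMap (Rz Φ w₀ k₀ p.2.2 ∘L Mw Φ w₀ p.1))

lemma det_MM (p : EE) :
    (MM Φ w₀ k₀ p).det = (Rz Φ w₀ k₀ p.2.2).det * (Mw Φ w₀ p.1).det := by
  unfold MM
  have hdetprod : ∀ {E F : Type} [NormedAddCommGroup E] [NormedSpace ℝ E] [FiniteDimensional ℝ E]
      [NormedAddCommGroup F] [NormedSpace ℝ F] [FiniteDimensional ℝ F]
      (S : E →L[ℝ] E) (S' : F →L[ℝ] F), (S.prodMap S').det = S.det * S'.det := by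
    intro E F _ _ _ _ _ _ S S'
    unfold ContinuousLinearMap.det
    exact LinearMap.det_prodMap (S : E →ₗ[ℝ] E) (S' : F →ₗ[ℝ] F)
  have hid : ∀ {E : Type} [NormedAddCommGroup E] [NormedSpace ℝ E] [FiniteDimensional ℝ E],
      (ContinuousLinearMap.id ℝ E).det = 1 := by
    intro E _ _ _
    unfold ContinuousLinearMap.det
    exact LinearMap.det_id
  rw [hdetprod, hdetprod, hid, hid, det_comp', one_mul, one_mul]

lemma Loc.MM_sys (h : Loc Φ v u w₀ k₀ r R δ) {T : ℝ} {p : EE} (hp : p ∈ Ur Φ w₀ r) :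
    MM Φ w₀ k₀ p (sysT Φ v u T p) = Fth Φ v u w₀ k₀ T 0 p := by
  obtain ⟨w, c, z⟩ := p
  obtain ⟨h1, h2⟩ := hp
  simp only [mem_ball, dist_eq_norm] at h1 h2
  have hU := h.unit w h1.le
  have e1 : Rz Φ w₀ k₀ z (Mw Φ w₀ w (A Φ w z)) =
      Sc Φ w₀ w k₀ + (QK Φ w₀ z + Ee Φ w₀ w z) := by
    rw [Mw_A hU, Rz_Sc h.mem h.ker h.nrm hU h2]
    rw [map_add, PK_QK, PK_Ee hU, add_zero]
  refine Prod.ext ?_ (Prod.ext rfl ?_)
  · change q Φ (z + T • J1 (Ap Φ w v)) - c • w - u = q Φ (z + J1 (T • Ap Φ w v) - (0 : ℝ) • _) -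
      c • ((1 - (0 : ℝ)) • w + (0 : ℝ) • w₀) - u
    rw [zero_smul, sub_zero, zero_smul, sub_zero, one_smul, add_zero, map_smul]
  · change Rz Φ w₀ k₀ z (Mw Φ w₀ w (A Φ w z)) =
      Sc Φ w₀ w k₀ + (QK Φ w₀ z + (1 - (0 : ℝ)) • Ee Φ w₀ w z)
    rw [e1, sub_zero, one_smul]

lemma Loc.continuousOn_MM (h : Loc Φ v u w₀ k₀ r R δ) :
    ContinuousOn (MM Φ w₀ k₀) (Ur Φ w₀ r) := by
  have hU : ∀ w ∈ ball w₀ r, w ∈ {w | IsUnit (Dop Φ w₀ w)} := by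
    intro w hw
    rw [mem_ball, dist_eq_norm] at hw
    exact h.unit w hw.le
  have c1 : ContinuousOn (fun p : EE => Rz Φ w₀ k₀ p.2.2) (Ur Φ w₀ r) :=
    (continuousOn_Rz h.mem h.ker h.nrm).comp (by fun_prop) (fun p hp => hp.2)
  have c2 : ContinuousOn (fun p : EE => Mw Φ w₀ p.1) (Ur Φ w₀ r) :=
    continuousOn_Mw.comp (by fun_prop) (fun p hp => hU _ hp.1)
  have c3 : ContinuousOn (fun p : EE => Rz Φ w₀ k₀ p.2.2 ∘L Mw Φ w₀ p.1) (Ur Φ w₀ r) :=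
    c1.clm_comp c2
  have lin : Continuous fun S : V →L[ℝ] V => (ContinuousLinearMap.id ℝ W).prodMap
    ((ContinuousLinearMap.id ℝ ℝ).prodMap S) :=
    continuous_const.prod_mapL ℝ (continuous_const.prod_mapL ℝ continuous_id)
  exact lin.comp_continuousOn c3

lemma continuous_sysT (hS : Symm Φ) (T : ℝ) : Continuous (sysT Φ v u T) := by
  unfold sysT
  have h1 := continuous_q Φ
  have h2 := continuous_Ap hS
  have h3 := continuous_A Φ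
  fun_prop

lemma Loc.continuousOn_Fth (hS : Symm Φ) (h : Loc Φ v u w₀ k₀ r R δ) (T : ℝ) :
    ContinuousOn (fun x : ℝ × EE => Fth Φ v u w₀ k₀ T x.1 x.2) (Icc (0 : ℝ) 1 ×ˢ Ur Φ w₀ r) := by
  have hU : ∀ w ∈ ball w₀ r, w ∈ {w | IsUnit (Dop Φ w₀ w)} := by
    intro w hw
    rw [mem_ball, dist_eq_norm] at hw
    exact h.unit w hw.le
  unfold Fth
  have h1 := continuous_q Φ
  have h2 := continuous_Ap hS
  refine ContinuousOn.prodMk ?_ (ContinuousOn.prodMk ?_ ?_)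
  · fun_prop
  · fun_prop
  · have c1 : ContinuousOn (fun x : ℝ × EE => Sc Φ w₀ x.2.1 k₀) (Icc (0 : ℝ) 1 ×ˢ Ur Φ w₀ r) := by
      have : ContinuousOn (fun x : ℝ × EE => Sc Φ w₀ x.2.1) (Icc (0 : ℝ) 1 ×ˢ Ur Φ w₀ r) :=
        continuousOn_Sc.comp (by fun_prop) (fun x hx => hU _ hx.2.1)
      exact this.clm_apply continuousOn_const
    have c2 : ContinuousOn (fun x : ℝ × EE => Ee Φ w₀ x.2.1 x.2.2.2)
        (Icc (0 : ℝ) 1 ×ˢ Ur Φ w₀ r) := by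
      have : ContinuousOn (fun x : ℝ × EE => Ee Φ w₀ x.2.1) (Icc (0 : ℝ) 1 ×ˢ Ur Φ w₀ r) :=
        continuousOn_Ee.comp (by fun_prop) (fun x hx => hU _ hx.2.1)
      exact this.clm_apply (by fun_prop)
    have c3 : ContinuousOn (fun x : ℝ × EE => 1 - x.1) (Icc (0 : ℝ) 1 ×ˢ Ur Φ w₀ r) := by fun_prop
    exact c1.add (ContinuousOn.add (by fun_prop) (c3.smul c2))

/-- The main reduction. -/
theorem Loc.reduce (hS : Symm Φ) (h : Loc Φ v u w₀ k₀ r R δ) :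
    ∀ᶠ T : ℝ in atTop, Adm (sysT Φ v u T) (dom (ball w₀ r)) ∧
      (SignType.sign (Mw Φ w₀ w₀).det : ℤ) * deg (sysT Φ v u T) (dom (ball w₀ r)) =
        deg (Fth Φ v u w₀ k₀ T 1) (Ur Φ w₀ r) ∧
      (∀ p : EE, ‖p.1 - w₀‖ ≤ r → Fth Φ v u w₀ k₀ T 1 p = 0 → p ∈ Kc Φ u w₀ r R δ) := by
  filter_upwards [h.eventually hS] with T hT
  have hK := isCompact_Kc (Φ := Φ) (u := u) (w₀ := w₀) (r := r) (R := R) (δ := δ)
  have hKU := Kc_subset_Ur (Φ := Φ) (u := u) (w₀ := w₀) (R := R) h.r_pos h.δ_pos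
  -- zeros of `sysT`
  have hz : ∀ p ∈ dom (ball w₀ r), sysT Φ v u T p = 0 → p ∈ Kc Φ u w₀ r R δ := by
    rintro ⟨w, c, z⟩ ⟨hp1, hp2⟩ h0
    simp only [mem_ball, dist_eq_norm] at hp1 hp2
    have hU := h.unit w hp1.le
    have hz0 := (sysT_eq_zero_iff.1 h0).2.2
    obtain ⟨hs1, hs2⟩ := ker_iff hU z hz0
    have hPz : PK Φ w₀ z ≠ 0 := by
      intro hP
      have : QK Φ w₀ z = 0 := by rw [hs2, ← Ee_PK, hP, map_zero, neg_zero]
      apply hp2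
      rw [← PK_add_QK (Φ := Φ) (w₀ := w₀) z, hP, this, add_zero]
    have hmem : ((w, c, z) : EE) ∈ Ur Φ w₀ r :=
      ⟨by rw [mem_ball, dist_eq_norm]; exact hp1, hPz⟩
    have h1 := h.MM_sys (T := T) hmem
    rw [h0, map_zero] at h1
    exact hT 0 ⟨le_rfl, zero_le_one⟩ (w, c, z) hp1.le h1.symm
  have hUd : Ur Φ w₀ r ⊆ dom (ball w₀ r) := by
    rintro ⟨w, c, z⟩ ⟨h1, h2⟩
    refine ⟨h1, fun h0 => h2 ?_⟩
    simp only at h0
    simp [h0]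
  have hadm : Adm (sysT Φ v u T) (dom (ball w₀ r)) :=
    Adm.of_subset_compact (isOpen_dom isOpen_ball) (continuous_sysT hS T).continuousOn hK
      (hKU.trans hUd) hz
  refine ⟨hadm, ?_, fun p hp h0 => hT 1 ⟨zero_le_one, le_rfl⟩ p hp h0⟩
  have e1 : deg (sysT Φ v u T) (Ur Φ w₀ r) = deg (sysT Φ v u T) (dom (ball w₀ r)) :=
    deg_excision hadm isOpen_Ur hUd (fun p hp h0 => hKU (hz p hp h0))
  have hadm' : Adm (sysT Φ v u T) (Ur Φ w₀ r) :=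
    hadm.mono isOpen_Ur hUd (fun p hp h0 => hKU (hz p hp h0))
  have hballn : ∀ p ∈ Ur Φ w₀ r, ‖p.1 - w₀‖ ≤ r := by
    intro p hp
    have := hp.1
    rw [mem_ball, dist_eq_norm] at this
    exact this.le
  have e2 : deg (fun p => MM Φ w₀ k₀ p (sysT Φ v u T p)) (Ur Φ w₀ r) =
      (SignType.sign (Mw Φ w₀ w₀).det : ℤ) * deg (sysT Φ v u T) (Ur Φ w₀ r) := by
    refine deg_mul hadm' h.continuousOn_MM ?_ ?_
    · intro p hp
      rw [det_MM]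
      exact mul_ne_zero (det_Rz_pos h.mem h.ker h.nrm hp.2).ne' (det_Mw_ne (h.unit _ (hballn p hp)))
    · intro p hp
      rw [det_MM, sign_mul, sign_pos (det_Rz_pos h.mem h.ker h.nrm hp.2), one_mul,
        h.sgn _ (hballn p hp)]
  have hadm2 : Adm (fun p => MM Φ w₀ k₀ p (sysT Φ v u T p)) (Ur Φ w₀ r) := by
    refine Adm.of_subset_compact isOpen_Ur
      (h.continuousOn_MM.clm_apply (continuous_sysT hS T).continuousOn) hK hKU ?_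
    intro p hp h0
    rw [h.MM_sys hp] at h0
    exact hT 0 ⟨le_rfl, zero_le_one⟩ p (hballn p hp) h0
  have e3 : deg (fun p => MM Φ w₀ k₀ p (sysT Φ v u T p)) (Ur Φ w₀ r) =
      deg (Fth Φ v u w₀ k₀ T 0) (Ur Φ w₀ r) :=
    deg_congr hadm2 (fun p hp => h.MM_sys hp)
  have e4 : deg (Fth Φ v u w₀ k₀ T 0) (Ur Φ w₀ r) = deg (Fth Φ v u w₀ k₀ T 1) (Ur Φ w₀ r) :=
    deg_homotopy (fun θ p => Fth Φ v u w₀ k₀ T θ p) isOpen_Ur (h.continuousOn_Fth hS T) hK hKU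
      (fun θ hθ p hp h0 => hT θ hθ p (hballn p hp) h0)
  rw [← e1, ← e2, e3, e4]

end

end Pool.Agent.Flip.Gam
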