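import Pool.Agent.Lib_helper89.Flip.Gamma5

/-!
# Block GAMMA, part 6: coordinates and the frozen map
-/

set_option autoImplicit false

namespace Pool.Agent.Flip.Gam

open scoped InnerProductSpace ComplexConjugate
open Complex Set Metric Filter Topology Module Pool.Agent.Deg47

noncomputable section

variable {Φ : Sys} {w₀ : W}

/-- Orthonormal frame data at `w₀`. -/
structure OF (Φ : Sys) (w₀ : W) (k₀ : V) (f₀ : Fin 4 → V) : Prop where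
  mem : w₀ ∈ D1 Φ
  ker : k₀ ∈ Kr (A Φ w₀)
  nrm : ‖k₀‖ = 1
  orth : Orthonormal ℝ f₀
  memF : ∀ j, f₀ j ∈ Fp (A Φ w₀)

/-- The coordinates of `W`. -/
def ccL : W →L[ℝ] ℝ := (ContinuousLinearMap.fst ℝ ℝ (Fin 6 → ℝ)) ∘L (e7.symm : W →L[ℝ] ℝ × (Fin 6 → ℝ))

/-- the kernel part -/
def ssL (k₀ : V) : W →L[ℝ] V :=
  ((ContinuousLinearMap.proj 0 : (Fin 6 → ℝ) →L[ℝ] ℝ).smulRight k₀ +
    (ContinuousLinearMap.proj 1 : (Fin 6 → ℝ) →L[ℝ] ℝ).smulRight (J k₀)) ∘L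
    (ContinuousLinearMap.snd ℝ ℝ (Fin 6 → ℝ)) ∘L (e7.symm : W →L[ℝ] ℝ × (Fin 6 → ℝ))

/-- the positive part -/
def xxL (f₀ : Fin 4 → V) : W →L[ℝ] V :=
  ((ContinuousLinearMap.proj 2 : (Fin 6 → ℝ) →L[ℝ] ℝ).smulRight (f₀ 0) +
   (ContinuousLinearMap.proj 3 : (Fin 6 → ℝ) →L[ℝ] ℝ).smulRight (f₀ 1) +
   (ContinuousLinearMap.proj 4 : (Fin 6 → ℝ) →L[ℝ] ℝ).smulRight (f₀ 2) +
   (ContinuousLinearMap.proj 5 : (Fin 6 → ℝ) →L[ℝ] ℝ).smulRight (f₀ 3)) ∘L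
    (ContinuousLinearMap.snd ℝ ℝ (Fin 6 → ℝ)) ∘L (e7.symm : W →L[ℝ] ℝ × (Fin 6 → ℝ))

lemma ccL_apply (ω : W) : ccL ω = (e7.symm ω).1 := rfl

lemma ssL_apply (k₀ : V) (ω : W) :
    ssL k₀ ω = (e7.symm ω).2 0 • k₀ + (e7.symm ω).2 1 • J k₀ := rfl

lemma xxL_apply (f₀ : Fin 4 → V) (ω : W) :
    xxL f₀ ω = (e7.symm ω).2 2 • f₀ 0 + (e7.symm ω).2 3 • f₀ 1 + (e7.symm ω).2 4 • f₀ 2 +
      (e7.symm ω).2 5 • f₀ 3 := rfl

/-- The inverse coordinates, linear in `(y, ρ, s)`. -/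
def mkL (k₀ : V) (f₀ : Fin 4 → V) : (V × ℝ × V) →L[ℝ] W :=
  LinearMap.toContinuousLinearMap
    { toFun := fun p => e7 (p.2.1, ![⟪k₀, p.2.2⟫_ℝ, ⟪J k₀, p.2.2⟫_ℝ, ⟪f₀ 0, p.1⟫_ℝ, ⟪f₀ 1, p.1⟫_ℝ,
        ⟪f₀ 2, p.1⟫_ℝ, ⟪f₀ 3, p.1⟫_ℝ])
      map_add' := fun p p' => by
        rw [← map_add]
        congr 1
        refine Prod.ext rfl ?_
        funext i
        fin_cases i <;> simp [inner_add_right]
      map_smul' := fun c p => by
        rw [RingHom.id_apply, ← map_smul]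
        congr 1
        refine Prod.ext rfl ?_
        funext i
        fin_cases i <;> simp [inner_smul_right] }

lemma mkL_apply (k₀ : V) (f₀ : Fin 4 → V) (y : V) (ρ : ℝ) (s : V) :
    mkL k₀ f₀ (y, ρ, s) = e7 (ρ, ![⟪k₀, s⟫_ℝ, ⟪J k₀, s⟫_ℝ, ⟪f₀ 0, y⟫_ℝ, ⟪f₀ 1, y⟫_ℝ,
        ⟪f₀ 2, y⟫_ℝ, ⟪f₀ 3, y⟫_ℝ]) := rfl

lemma ccL_mkL (k₀ : V) (f₀ : Fin 4 → V) (y : V) (ρ : ℝ) (s : V) :
    ccL (mkL k₀ f₀ (y, ρ, s)) = ρ := by
  rw [mkL_apply, ccL_apply, e7.symm_apply_apply]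

/-- Expansion of `Pr` in an orthonormal basis. -/
lemma Pr_expand (hS : Symm Φ) {k₀ : V} {f₀ : Fin 4 → V} (h : OF Φ w₀ k₀ f₀) (y : V) :
    Pr (A Φ w₀) y = ⟪f₀ 0, y⟫_ℝ • f₀ 0 + ⟪f₀ 1, y⟫_ℝ • f₀ 1 + ⟪f₀ 2, y⟫_ℝ • f₀ 2 +
      ⟪f₀ 3, y⟫_ℝ • f₀ 3 := by
  have hfr : finrank ℝ (Fp (A Φ w₀)) = 4 := by
    have h1 := finrank_Kr_add hS w₀
    have h2 : finrank ℝ (Kr (A Φ w₀)) = 2 := h.mem.2
    omega
  have hspan : Submodule.span ℝ (Set.range f₀) = Fp (A Φ w₀) := by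
    refine Submodule.eq_of_le_of_finrank_le ?_ ?_
    · rw [Submodule.span_le]
      rintro _ ⟨j, rfl⟩
      exact h.memF j
    · rw [finrank_span_eq_card h.orth.linearIndependent, hfr]; simp
  have hmem := Pr_mem (A Φ w₀) y
  have ho := h.orth
  rw [orthonormal_iff_ite] at ho
  -- the difference is orthogonal to all `f₀ j`
  set s := ⟪f₀ 0, y⟫_ℝ • f₀ 0 + ⟪f₀ 1, y⟫_ℝ • f₀ 1 + ⟪f₀ 2, y⟫_ℝ • f₀ 2 + ⟪f₀ 3, y⟫_ℝ • f₀ 3 with hs
  have hsF : s ∈ Fp (A Φ w₀) := by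
    refine Submodule.add_mem _ (Submodule.add_mem _ (Submodule.add_mem _ ?_ ?_) ?_) ?_ <;>
    exact Submodule.smul_mem _ _ (h.memF _)
  have hj : ∀ j, ⟪f₀ j, Pr (A Φ w₀) y - s⟫_ℝ = 0 := by
    intro j
    have h1 := inner_sub_Pr (T := A Φ w₀) y (h.memF j)
    rw [inner_sub_left, sub_eq_zero] at h1
    rw [inner_sub_right, real_inner_comm, ← h1, real_inner_comm, hs]
    simp only [inner_add_right, inner_smul_right, ho]
    fin_cases j <;> simp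
  have hall : ∀ x ∈ Fp (A Φ w₀), ⟪x, Pr (A Φ w₀) y - s⟫_ℝ = 0 := by
    intro x hx
    rw [← hspan] at hx
    induction hx using Submodule.span_induction with
    | mem x hx => obtain ⟨j, rfl⟩ := hx; exact hj j
    | zero => simp
    | add a b _ _ ha hb => rw [inner_add_left, ha, hb, add_zero]
    | smul c a _ ha => rw [real_inner_smul_left, ha, mul_zero]
  have := hall _ (Submodule.sub_mem _ hmem hsF)
  exact sub_eq_zero.1 (inner_self_eq_zero.1 this)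

variable {k₀ : V} {f₀ : Fin 4 → V}

lemma ssL_mkL (h : OF Φ w₀ k₀ f₀) (y : V) (ρ : ℝ) (s : V) :
    ssL k₀ (mkL k₀ f₀ (y, ρ, s)) = PK Φ w₀ s := by
  rw [mkL_apply, ssL_apply, e7.symm_apply_apply, Kr_eq h.mem h.ker h.nrm s]
  simp

lemma xxL_mkL (hS : Symm Φ) (h : OF Φ w₀ k₀ f₀) (y : V) (ρ : ℝ) (s : V) :
    xxL f₀ (mkL k₀ f₀ (y, ρ, s)) = Pr (A Φ w₀) y := by
  rw [mkL_apply, xxL_apply, e7.symm_apply_apply, Pr_expand hS h y]
  simp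

lemma ssL_mem (h : OF Φ w₀ k₀ f₀) (ω : W) : ssL k₀ ω ∈ Kr (A Φ w₀) := by
  rw [ssL_apply]
  exact Submodule.add_mem _ (Submodule.smul_mem _ _ h.ker) (Submodule.smul_mem _ _ (J_mem_Kr h.ker))

lemma xxL_mem (h : OF Φ w₀ k₀ f₀) (ω : W) : xxL f₀ ω ∈ Fp (A Φ w₀) := by
  rw [xxL_apply]
  refine Submodule.add_mem _ (Submodule.add_mem _ (Submodule.add_mem _ ?_ ?_) ?_) ?_ <;>
  exact Submodule.smul_mem _ _ (h.memF _)

lemma mkL_coords (h : OF Φ w₀ k₀ f₀) (ω : W) :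
    mkL k₀ f₀ (xxL f₀ ω, ccL ω, ssL k₀ ω) = ω := by
  have o1 : ⟪k₀, k₀⟫_ℝ = 1 := by rw [real_inner_self_eq_norm_sq, h.nrm]; norm_num
  have o2 : ⟪J k₀, J k₀⟫_ℝ = 1 := by rw [inner_J, o1]
  have o3 : ⟪J k₀, k₀⟫_ℝ = 0 := inner_J_self k₀
  have o4 : ⟪k₀, J k₀⟫_ℝ = 0 := by rw [real_inner_comm]; exact o3
  have ho := h.orth
  rw [orthonormal_iff_ite] at ho
  rw [mkL_apply]
  have e : e7.symm ω = ((e7.symm ω).1, (e7.symm ω).2) := rfl
  conv_rhs => rw [← e7.apply_symm_apply ω]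
  congr 1
  refine Prod.ext rfl ?_
  rw [ssL_apply, xxL_apply]
  funext i
  fin_cases i
  · simp only [inner_add_right, inner_smul_right, o1, o4]; simp
  · simp only [inner_add_right, inner_smul_right, o2, o3]; simp
  · simp only [inner_add_right, inner_smul_right, ho]; simp
  · simp only [inner_add_right, inner_smul_right, ho]; simp
  · simp only [inner_add_right, inner_smul_right, ho]; simp
  · simp only [inner_add_right, inner_smul_right, ho]; simp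

lemma sum_fr (ω : W) : ∑ j, (e7.symm ω).2 j • fr k₀ f₀ j = ssL k₀ ω + J1 (xxL f₀ ω) := by
  rw [ssL_apply, xxL_apply]
  simp only [Fin.sum_univ_six, fr, map_add, map_smul]
  simp [add_assoc]

/-- The frozen map on `W`. -/
def ftil (Φ : Sys) (w₀ : W) (k₀ : V) (f₀ : Fin 4 → V) (u : W) (ω : W) : W :=
  q Φ (ssL k₀ ω + J1 (xxL f₀ ω)) - ccL ω • w₀ - u

lemma continuous_ftil (u : W) : Continuous (ftil Φ w₀ k₀ f₀ u) := by
  unfold ftil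
  have := continuous_q Φ
  fun_prop

lemma ftil_zero_eq :
    ftil Φ w₀ k₀ f₀ 0 = Pool.Agent.Deg47.conj e7 (DDmap Φ w₀ (fr k₀ f₀)) := by
  funext ω
  unfold ftil Pool.Agent.Deg47.conj DDmap
  rw [sum_fr, sub_zero, e7.apply_symm_apply]
  rfl

/-- Bounds for the zeros of the frozen equation. -/
lemma frozen_bounds (hS : Symm Φ) {m : ℝ} (hm0 : 0 < m) (hm : ∀ z, m * ‖z‖ ^ 2 ≤ ‖q Φ z‖) {u : W}
    {R : ℝ} (hR : 6 * ‖u‖ ≤ m * R ^ 2) (hR0 : 0 < R) (hw₀ : ‖w₀‖ = 1)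
    {z x : V} {c t : ℝ} (ht : t ∈ Icc (0 : ℝ) 1) (hz : A Φ w₀ z = 0) (hx : x ∈ Fp (A Φ w₀))
    (h : q Φ (z + J1 x) - c • w₀ - t • u = 0) : |c| ≤ ‖u‖ ∧ ‖z‖ ≤ R ∧ ‖x‖ ≤ R := by
  have h1 := isotropic hS w₀ hz hx
  have h2 := norm_sq_iso hS w₀ hz hx
  have heq : q Φ (z + J1 x) = t • u + c • w₀ := by
    rw [sub_sub, sub_eq_zero] at h
    rw [h]; abel
  have htu : ‖t • u‖ ≤ ‖u‖ := by
    rw [norm_smul, Real.norm_of_nonneg ht.1]
    calc t * ‖u‖ ≤ 1 * ‖u‖ := by gcongr; exact ht.2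
      _ = ‖u‖ := one_mul _
  have hc : |c| ≤ ‖u‖ := by
    have h3 : ⟪w₀, t • u⟫_ℝ = -c := by
      have e9 : ⟪w₀, q Φ (z + J1 x)⟫_ℝ = ⟪w₀, t • u⟫_ℝ + c * ⟪w₀, w₀⟫_ℝ := by
        rw [heq, inner_add_right, inner_smul_right w₀ w₀ c]
      rw [h1, real_inner_self_eq_norm_sq, hw₀] at e9
      linarith
    have h4 := abs_real_inner_le_norm w₀ (t • u)
    rw [h3, abs_neg, hw₀, one_mul] at h4
    exact h4.trans htu
  have h5 := hm (z + J1 x)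
  have h6 : ‖q Φ (z + J1 x)‖ ≤ 2 * ‖u‖ := by
    rw [heq]
    refine (norm_add_le _ _).trans ?_
    rw [norm_smul c, hw₀, mul_one, Real.norm_eq_abs]
    linarith
  rw [h2] at h5
  have h7 : m * (‖z‖ ^ 2 + 2 * ‖x‖ ^ 2) ≤ m * R ^ 2 := by
    have := norm_nonneg u
    linarith
  have h8 := le_of_mul_le_mul_left h7 hm0
  refine ⟨hc, le_of_sq_le_sq (by nlinarith [sq_nonneg ‖x‖]) hR0.le,
    le_of_sq_le_sq (by nlinarith [sq_nonneg ‖z‖, sq_nonneg ‖x‖]) hR0.le⟩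

/-- The frozen degree equals `DD`. -/
lemma deg_ftil (hS : Symm Φ) (hZ : ZeroFree Φ) (h : OF Φ w₀ k₀ f₀) (u : W) :
    Adm (ftil Φ w₀ k₀ f₀ u) univ ∧ deg (ftil Φ w₀ k₀ f₀ u) univ = DD Φ w₀ (fr k₀ f₀) := by
  obtain ⟨m, hm0, hm⟩ := exists_q_bound hZ
  have hw₀ : ‖w₀‖ = 1 := h.mem.1
  set R := Real.sqrt (6 * ‖u‖ / m) + 1 with hRdef
  have hR0 : 0 < R := by positivity
  have hR : 6 * ‖u‖ ≤ m * R ^ 2 := by
    have h1 : Real.sqrt (6 * ‖u‖ / m) ^ 2 = 6 * ‖u‖ / m := Real.sq_sqrt (by positivity)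
    have h2 : 6 * ‖u‖ / m ≤ R ^ 2 := by
      rw [← h1]
      gcongr
      linarith
    rw [div_le_iff₀ hm0] at h2
    linarith
  -- compact set containing the zeros
  set K : Set W := (fun p : V × ℝ × V => mkL k₀ f₀ p) ''
    (closedBall (0 : V) R ×ˢ (closedBall (0 : ℝ) ‖u‖ ×ˢ closedBall (0 : V) R)) with hK
  have hKc : IsCompact K := by
    refine IsCompact.image ?_ (mkL k₀ f₀).continuous
    exact (isCompact_closedBall _ _).prod ((isCompact_closedBall _ _).prod (isCompact_closedBall _ _))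
  have hz : ∀ t ∈ Icc (0 : ℝ) 1, ∀ ω ∈ (univ : Set W), ftil Φ w₀ k₀ f₀ (t • u) ω = 0 → ω ∈ K := by
    intro t ht ω _ h0
    have hb := frozen_bounds hS hm0 hm hR hR0 hw₀ ht (mem_Kr.1 (ssL_mem h ω)) (xxL_mem h ω) h0
    refine ⟨(xxL f₀ ω, ccL ω, ssL k₀ ω), ?_, mkL_coords h ω⟩
    exact ⟨by simpa using hb.2.2, by simpa using hb.1, by simpa using hb.2.1⟩
  have hcont : ContinuousOn (fun p : ℝ × W => ftil Φ w₀ k₀ f₀ (p.1 • u) p.2)
      (Icc (0 : ℝ) 1 ×ˢ univ) := by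
    unfold ftil
    have := continuous_q Φ
    fun_prop
  have e1 := deg_homotopy (fun t ω => ftil Φ w₀ k₀ f₀ (t • u) ω) isOpen_univ hcont hKc
    (subset_univ _) hz
  simp only [zero_smul, one_smul] at e1
  have hadm1 : Adm (ftil Φ w₀ k₀ f₀ u) univ :=
    Adm.of_subset_compact isOpen_univ (continuous_ftil u).continuousOn hKc (subset_univ _)
      (fun ω hω h0 => hz 1 ⟨zero_le_one, le_rfl⟩ ω hω (by rw [one_smul]; exact h0))
  have hadm0 : Adm (DDmap Φ w₀ (fr k₀ f₀)) univ := by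
    refine Adm.of_subset_compact isOpen_univ ?_ (isCompact_singleton (x := (0 : ℝ × (Fin 6 → ℝ))))
      (subset_univ _) ?_
    · have h1 := continuous_q Φ
      have : Continuous (DDmap Φ w₀ (fr k₀ f₀)) := by
        unfold DDmap
        fun_prop
      exact this.continuousOn
    · intro p _ h0
      have h1 : q Φ (∑ j, p.2 j • fr k₀ f₀ j) - p.1 • w₀ = 0 := by
        have := congrArg e7 h0
        unfold DDmap at this
        rwa [e7.apply_symm_apply, map_zero] at this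
      have h2 := sum_fr (k₀ := k₀) (f₀ := f₀) (e7 p)
      rw [e7.symm_apply_apply] at h2
      rw [h2, sub_eq_zero] at h1
      have hw0ne : w₀ ≠ 0 := by
        intro h; rw [h, norm_zero] at hw₀; exact zero_ne_one hw₀
      obtain ⟨a1, a2, a3⟩ := eq_zero_of_iso hS hZ hw0ne (mem_Kr.1 (ssL_mem h (e7 p)))
        (xxL_mem h (e7 p)) h1
      have h3 := mkL_coords h (e7 p)
      have h4 : ccL (e7 p) = 0 := by rw [ccL_apply, e7.symm_apply_apply, a3]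
      rw [a1, a2, h4] at h3
      have h5 : (mkL k₀ f₀) (0, 0, 0) = 0 := (mkL k₀ f₀).map_zero
      rw [h5] at h3
      have h6 : p = 0 := by
        have := congrArg e7.symm h3
        rw [map_zero, e7.symm_apply_apply] at this
        exact this.symm
      exact h6
  refine ⟨hadm1, ?_⟩
  rw [← e1, ftil_zero_eq]
  have := deg_conj hadm0 e7
  rw [image_univ_of_surjective e7.surjective] at this
  exact this

end

end Pool.Agent.Flip.Gam
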