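import Pool.Agent.Lib_helper89.Flip.Gamma6

/-!
# Block GAMMA, part 7: the product formula
-/

set_option autoImplicit false

namespace Pool.Agent.Flip.Gam

open scoped InnerProductSpace ComplexConjugate
open Complex Set Metric Filter Topology Module Pool.Agent.Deg47

noncomputable section

variable {Φ : Sys} {w₀ : W} {k₀ : V} {f₀ : Fin 4 → V} {v : V} {u : W} {r R δ : ℝ}

/-- The involution exchanging coordinates. -/
def Lam (Φ : Sys) (w₀ : W) (k₀ : V) (f₀ : Fin 4 → V) : EE →L[ℝ] EE :=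
  ((mkL k₀ f₀) ∘L ((xxL f₀ ∘L ContinuousLinearMap.fst ℝ W (ℝ × V)).prod
      (((ContinuousLinearMap.fst ℝ ℝ V) ∘L (ContinuousLinearMap.snd ℝ W (ℝ × V))).prod
        ((PK Φ w₀) ∘L (ContinuousLinearMap.snd ℝ ℝ V) ∘L (ContinuousLinearMap.snd ℝ W (ℝ × V)))))).prod
    ((ccL ∘L ContinuousLinearMap.fst ℝ W (ℝ × V)).prod
      (ssL k₀ ∘L ContinuousLinearMap.fst ℝ W (ℝ × V) +
        (QK Φ w₀) ∘L (ContinuousLinearMap.snd ℝ ℝ V) ∘L (ContinuousLinearMap.snd ℝ W (ℝ × V))))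

lemma Lam_apply (ω : W) (c : ℝ) (z : V) :
    Lam Φ w₀ k₀ f₀ (ω, c, z) = (mkL k₀ f₀ (xxL f₀ ω, c, PK Φ w₀ z), ccL ω, ssL k₀ ω + QK Φ w₀ z) :=
  rfl

lemma PK_ssL (h : OF Φ w₀ k₀ f₀) (ω : W) : PK Φ w₀ (ssL k₀ ω) = ssL k₀ ω := PK_of_mem (ssL_mem h ω)

lemma QK_ssL (h : OF Φ w₀ k₀ f₀) (ω : W) : QK Φ w₀ (ssL k₀ ω) = 0 := by
  rw [QK_apply, PK_ssL h, sub_self]

lemma Lam_Lam (hS : Symm Φ) (h : OF Φ w₀ k₀ f₀) (p : EE) :
    Lam Φ w₀ k₀ f₀ (Lam Φ w₀ k₀ f₀ p) = p := by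
  obtain ⟨ω, c, z⟩ := p
  rw [Lam_apply, Lam_apply, xxL_mkL hS h, Pr_of_mem (xxL_mem h ω), map_add, PK_ssL h, PK_QK,
    add_zero, mkL_coords h, ccL_mkL, ssL_mkL h, PK_PK, map_add, QK_ssL h, zero_add, QK_QK, PK_add_QK]

/-- as an equivalence -/
def LamE (hS : Symm Φ) (h : OF Φ w₀ k₀ f₀) : EE ≃L[ℝ] EE :=
  ContinuousLinearEquiv.equivOfInverse (Lam Φ w₀ k₀ f₀) (Lam Φ w₀ k₀ f₀) (Lam_Lam hS h) (Lam_Lam hS h)

lemma LamE_apply (hS : Symm Φ) (h : OF Φ w₀ k₀ f₀) (p : EE) : LamE hS h p = Lam Φ w₀ k₀ f₀ p := rfl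

/-- The outer map of the composition. -/
def G2 (Φ : Sys) (u w₀ : W) (k₀ : V) (f₀ : Fin 4 → V) (p : EE) : EE :=
  (q Φ (PK Φ w₀ p.2.2 + J1 (xxL f₀ p.1)) - p.2.1 • w₀ - u, ccL p.1, ssL k₀ p.1 + QK Φ w₀ p.2.2)

/-- The inner map of the composition, `W`-part. -/
def eta (Φ : Sys) (v : V) (w₀ : W) (k₀ : V) (f₀ : Fin 4 → V) (T : ℝ) (w : W) : W :=
  mkL k₀ f₀ (T • Ap Φ w v, ‖w‖ ^ 2 - 1, Sc Φ w₀ w k₀)

/-- The inner map. -/
def hmap (Φ : Sys) (v : V) (w₀ : W) (k₀ : V) (f₀ : Fin 4 → V) (T : ℝ) (p : EE) : EE :=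
  (eta Φ v w₀ k₀ f₀ T p.1, p.2.1, p.2.2)

lemma Fth_one (hS : Symm Φ) (h : OF Φ w₀ k₀ f₀) (T : ℝ) (p : EE) :
    Fth Φ v u w₀ k₀ T 1 p = G2 Φ u w₀ k₀ f₀ (hmap Φ v w₀ k₀ f₀ T p) := by
  obtain ⟨w, c, z⟩ := p
  refine Prod.ext ?_ (Prod.ext ?_ ?_)
  · change q Φ (z + J1 (T • Ap Φ w v) - (1 : ℝ) • (QK Φ w₀ z +
      J1 (T • Ap Φ w v - Pr (A Φ w₀) (T • Ap Φ w v)))) - c • ((1 - (1 : ℝ)) • w + (1 : ℝ) • w₀) - u =
      q Φ (PK Φ w₀ z + J1 (xxL f₀ (eta Φ v w₀ k₀ f₀ T w))) - c • w₀ - u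
    rw [sub_self, zero_smul, one_smul, one_smul, zero_add, eta, xxL_mkL hS h, QK_apply, map_sub]
    congr 3
    abel
  · change ‖w‖ ^ 2 - 1 = ccL (eta Φ v w₀ k₀ f₀ T w)
    rw [eta, ccL_mkL]
  · change Sc Φ w₀ w k₀ + (QK Φ w₀ z + (1 - (1 : ℝ)) • Ee Φ w₀ w z) =
      ssL k₀ (eta Φ v w₀ k₀ f₀ T w) + QK Φ w₀ z
    rw [eta, ssL_mkL h, PK_Sc, sub_self, zero_smul, add_zero]

lemma G2_eq (hS : Symm Φ) (h : OF Φ w₀ k₀ f₀) (p : EE) :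
    G2 Φ u w₀ k₀ f₀ p = (fun p : EE => (ftil Φ w₀ k₀ f₀ u p.1, p.2)) (LamE hS h p) := by
  obtain ⟨ω, c, z⟩ := p
  rw [LamE_apply, Lam_apply]
  refine Prod.ext ?_ rfl
  change q Φ (PK Φ w₀ z + J1 (xxL f₀ ω)) - c • w₀ - u =
    ftil Φ w₀ k₀ f₀ u (mkL k₀ f₀ (xxL f₀ ω, c, PK Φ w₀ z))
  unfold ftil
  rw [ssL_mkL h, xxL_mkL hS h, ccL_mkL, PK_PK, Pr_of_mem (xxL_mem h ω)]

lemma continuous_G2 : Continuous (G2 Φ u w₀ k₀ f₀) := by
  unfold G2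
  have := continuous_q Φ
  fun_prop

/-- The open set `{P z ≠ 0}`. -/
def VV (Φ : Sys) (w₀ : W) : Set EE := {p | PK Φ w₀ p.2.2 ≠ 0}

lemma isOpen_VV : IsOpen (VV Φ w₀) := isOpen_ne_fun (by fun_prop) continuous_const

/-- All zeros of `G2` lie in `VV`. -/
lemma G2_zero_mem (h : OF Φ w₀ k₀ f₀)
    (hU2 : ∀ x ∈ Fp (A Φ w₀), ∀ c : ℝ, q Φ (J1 x) - c • w₀ ≠ u) {p : EE}
    (h0 : G2 Φ u w₀ k₀ f₀ p = 0) : p ∈ VV Φ w₀ := by
  intro hz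
  have h1 : q Φ (PK Φ w₀ p.2.2 + J1 (xxL f₀ p.1)) - p.2.1 • w₀ - u = 0 := congrArg Prod.fst h0
  rw [hz, zero_add] at h1
  exact hU2 _ (xxL_mem h p.1) p.2.1 (sub_eq_zero.1 h1)

/-- `G2` is admissible on `VV` and its degree vanishes if `DD` does. -/
lemma deg_G2 (hS : Symm Φ) (hZ : ZeroFree Φ) (h : OF Φ w₀ k₀ f₀)
    (hU2 : ∀ x ∈ Fp (A Φ w₀), ∀ c : ℝ, q Φ (J1 x) - c • w₀ ≠ u)
    (hDD : DD Φ w₀ (fr k₀ f₀) = 0) :
    Adm (G2 Φ u w₀ k₀ f₀) (VV Φ w₀) ∧ deg (G2 Φ u w₀ k₀ f₀) (VV Φ w₀) = 0 := by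
  obtain ⟨hadm, hdeg⟩ := deg_ftil hS hZ h u
  -- product with the identity
  have hid : Adm (fun y : ℝ × V => y) univ := by
    refine Adm.of_subset_compact isOpen_univ continuousOn_id (isCompact_singleton (x := (0 : ℝ × V)))
      (subset_univ _) (fun y _ h0 => h0)
  have hprod := deg_prod hadm hid
  rw [hdeg, hDD, zero_mul] at hprod
  have hadmP : Adm (fun p : EE => (ftil Φ w₀ k₀ f₀ u p.1, p.2)) (univ ×ˢ univ) := by
    refine Adm.of_subset_compact (isOpen_univ.prod isOpen_univ) ?_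
      ((hadm.comp).prod hid.comp) (prod_mono inter_subset_left inter_subset_left) ?_
    · have := continuous_ftil (Φ := Φ) (w₀ := w₀) (k₀ := k₀) (f₀ := f₀) u
      have h2 : Continuous (fun p : EE => (ftil Φ w₀ k₀ f₀ u p.1, p.2)) := by fun_prop
      exact h2.continuousOn
    · rintro ⟨ω, y⟩ _ h0
      rw [Prod.mk_eq_zero] at h0
      exact ⟨⟨mem_univ _, h0.1⟩, ⟨mem_univ _, h0.2⟩⟩
  rw [univ_prod_univ] at hadmP hprod
  have h3 := deg_comp_right hadmP (LamE hS h)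
  rw [hprod, mul_zero, preimage_univ] at h3
  have hfun : (fun p : EE => (fun p : EE => (ftil Φ w₀ k₀ f₀ u p.1, p.2)) (LamE hS h p)) =
      G2 Φ u w₀ k₀ f₀ := by
    funext p; exact (G2_eq hS h p).symm
  rw [hfun] at h3
  -- admissibility of G2 on univ
  have hadmG : Adm (G2 Φ u w₀ k₀ f₀) univ := by
    have hc : IsCompact ((LamE hS h) '' (univ ∩ (fun p : EE => (ftil Φ w₀ k₀ f₀ u p.1, p.2)) ⁻¹' {0})) :=
      hadmP.comp.image (LamE hS h).continuous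
    refine Adm.of_subset_compact isOpen_univ continuous_G2.continuousOn hc (subset_univ _) ?_
    intro p _ h0
    refine ⟨LamE hS h p, ⟨mem_univ _, ?_⟩, Lam_Lam hS h p⟩
    rw [G2_eq hS h] at h0
    exact h0
  have hzV : ∀ p ∈ (univ : Set EE), G2 Φ u w₀ k₀ f₀ p = 0 → p ∈ VV Φ w₀ :=
    fun p _ h0 => G2_zero_mem h hU2 h0
  refine ⟨hadmG.mono isOpen_VV (subset_univ _) hzV, ?_⟩
  rw [deg_excision hadmG isOpen_VV (subset_univ _) hzV, h3]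

lemma Loc.continuousOn_eta (hS : Symm Φ) (h : Loc Φ v u w₀ k₀ r R δ) (T : ℝ) :
    ContinuousOn (eta Φ v w₀ k₀ f₀ T) (closedBall w₀ r) := by
  have hU : closedBall w₀ r ⊆ {w | IsUnit (Dop Φ w₀ w)} := by
    intro w hw
    rw [mem_closedBall, dist_eq_norm] at hw
    exact h.unit w hw
  have c1 : ContinuousOn (fun w => Sc Φ w₀ w k₀) (closedBall w₀ r) :=
    (continuousOn_Sc.mono hU).clm_apply continuousOn_const
  have c2 := continuous_Ap hS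
  unfold eta
  refine (mkL k₀ f₀).continuous.comp_continuousOn ?_
  refine ContinuousOn.prodMk (by fun_prop) (ContinuousOn.prodMk (by fun_prop) c1)

/-- Lower bound on the annulus. -/
lemma Loc.exists_eps (hS : Symm Φ) (h : Loc Φ v u w₀ k₀ r R δ) :
    ∃ ε > 0, ∀ w, r / 2 ≤ ‖w - w₀‖ → ‖w - w₀‖ ≤ r →
      ε ≤ ‖Pr (A Φ w₀) (Ap Φ w v)‖ + (|‖w‖ ^ 2 - 1| + ‖Sc Φ w₀ w k₀‖) := by
  set C : Set W := {w | r / 2 ≤ ‖w - w₀‖} ∩ closedBall w₀ r with hC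
  have hCc : IsCompact C := by
    have h1 : IsClosed {w : W | r / 2 ≤ ‖w - w₀‖} := isClosed_le (by fun_prop) (by fun_prop)
    rw [hC, inter_comm]
    exact (isCompact_closedBall _ _).inter_right h1
  have hU : closedBall w₀ r ⊆ {w | IsUnit (Dop Φ w₀ w)} := by
    intro w hw
    rw [mem_closedBall, dist_eq_norm] at hw
    exact h.unit w hw
  have c1 : ContinuousOn (fun w => Sc Φ w₀ w k₀) C :=
    ((continuousOn_Sc.mono hU).clm_apply continuousOn_const).mono inter_subset_right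
  have c2 := continuous_Ap hS
  have hcont : ContinuousOn (fun w => ‖Pr (A Φ w₀) (Ap Φ w v)‖ + (|‖w‖ ^ 2 - 1| + ‖Sc Φ w₀ w k₀‖)) C := by
    refine ContinuousOn.add (by fun_prop) (ContinuousOn.add (by fun_prop) c1.norm)
  rcases C.eq_empty_or_nonempty with he | hne
  · refine ⟨1, one_pos, fun w h1 h2 => ?_⟩
    have : w ∈ C := ⟨h1, by rw [mem_closedBall, dist_eq_norm]; exact h2⟩
    rw [he] at this
    exact this.elim
  · obtain ⟨w1, hw1, hmin⟩ := hCc.exists_isMinOn hne hcont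
    refine ⟨_, ?_, fun w h1 h2 => hmin (show w ∈ C from ⟨h1, by
      rw [mem_closedBall, dist_eq_norm]; exact h2⟩)⟩
    by_contra hcon
    push Not at hcon
    have hr1 : ‖w1 - w₀‖ ≤ r := by
      have := hw1.2
      rwa [mem_closedBall, dist_eq_norm] at this
    have n1 := norm_nonneg (Pr (A Φ w₀) (Ap Φ w1 v))
    have n2 := abs_nonneg (‖w1‖ ^ 2 - 1)
    have n3 := norm_nonneg (Sc Φ w₀ w1 k₀)
    have z1 : Pr (A Φ w₀) (Ap Φ w1 v) = 0 := norm_le_zero_iff.1 (by linarith)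
    have z2 : ‖w1‖ ^ 2 - 1 = 0 := abs_eq_zero.1 (le_antisymm (by linarith) n2)
    have z3 : Sc Φ w₀ w1 k₀ = 0 := norm_le_zero_iff.1 (by linarith)
    have hw1n : ‖w1‖ = 1 := by
      have h0 := norm_nonneg w1
      nlinarith
    have hker := exists_ker_of_Sc h.ker h.nrm (h.unit w1 hr1) z3
    have hfr := finrank_Kr_even hS w1 hker
    have hp := h.prc w1 hr1 hfr
    have ha : Ap Φ w1 v = 0 := by
      have e1 : Ap Φ w1 v = (Pr (A Φ w1) - Pr (A Φ w₀)) (Ap Φ w1 v) := by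
        rw [sub_apply, Pr_of_mem (Ap_mem w1 v), z1, sub_zero]
      have e2 : ‖Ap Φ w1 v‖ ≤ (1 / 4) * ‖Ap Φ w1 v‖ := by
        conv_lhs => rw [e1]
        exact (ContinuousLinearMap.le_opNorm _ _).trans (by gcongr)
      have := norm_nonneg (Ap Φ w1 v)
      exact norm_le_zero_iff.1 (by linarith)
    have := h.isol w1 ⟨hw1n, hker⟩ hr1 ha
    have h2 : r / 2 ≤ ‖w1 - w₀‖ := hw1.1
    rw [this, sub_self, norm_zero] at h2
    have := h.r_pos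
    linarith

/-- The localisation statement: `T` large compared with a bound `R₁` and the lower bound `ε`. -/
lemma eta_loc (hS : Symm Φ) (ho : OF Φ w₀ k₀ f₀) {ε R₁ T : ℝ} (hε : 0 < ε)
    (hεb : ∀ w, r / 2 ≤ ‖w - w₀‖ → ‖w - w₀‖ ≤ r →
      ε ≤ ‖Pr (A Φ w₀) (Ap Φ w v)‖ + (|‖w‖ ^ 2 - 1| + ‖Sc Φ w₀ w k₀‖))
    (hT0 : 0 < T) (hTε : 4 * R₁ < T * ε) {w : W} (hw : ‖w - w₀‖ ≤ r) {ω : W}
    (h1 : ‖xxL f₀ ω‖ ≤ R₁) (h2 : |ccL ω| < ε / 4)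
    (h3 : ‖ssL k₀ ω‖ < ε / 4) {t : ℝ} (ht : t ∈ Icc (0 : ℝ) 1)
    (heq : eta Φ v w₀ k₀ f₀ T w = t • ω) : ‖w - w₀‖ ≤ r / 2 := by
  by_contra hcon
  push Not at hcon
  have hb := hεb w hcon.le hw
  have a1 : T • Pr (A Φ w₀) (Ap Φ w v) = t • xxL f₀ ω := by
    have := congrArg (xxL f₀) heq
    rw [eta, xxL_mkL hS ho, map_smul, map_smul] at this
    exact this
  have a2 : ‖w‖ ^ 2 - 1 = t * ccL ω := by
    have := congrArg ccL heq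
    rw [eta, ccL_mkL, map_smul] at this
    exact this
  have a3 : Sc Φ w₀ w k₀ = t • ssL k₀ ω := by
    have := congrArg (ssL k₀) heq
    rw [eta, ssL_mkL ho, map_smul, PK_Sc] at this
    exact this
  have b1 : T * ‖Pr (A Φ w₀) (Ap Φ w v)‖ ≤ R₁ := by
    have := congrArg norm a1
    rw [norm_smul, norm_smul, Real.norm_of_nonneg hT0.le, Real.norm_of_nonneg ht.1] at this
    rw [this]
    have h0 := norm_nonneg (xxL f₀ ω)
    nlinarith [ht.1, ht.2]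
  have b2 : |‖w‖ ^ 2 - 1| ≤ ε / 4 := by
    rw [a2, abs_mul, abs_of_nonneg ht.1]
    have h0 := abs_nonneg (ccL ω)
    nlinarith [ht.1, ht.2]
  have b3 : ‖Sc Φ w₀ w k₀‖ ≤ ε / 4 := by
    rw [a3, norm_smul, Real.norm_of_nonneg ht.1]
    have h0 := norm_nonneg (ssL k₀ ω)
    nlinarith [ht.1, ht.2]
  have b4 : ‖Pr (A Φ w₀) (Ap Φ w v)‖ < ε / 4 := by
    by_contra hc
    push Not at hc
    have : T * (ε / 4) ≤ T * ‖Pr (A Φ w₀) (Ap Φ w v)‖ := by gcongr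
    linarith
  linarith

lemma continuousOn_hmap {T : ℝ} {S : Set EE} {S' : Set W}
    (hη : ContinuousOn (eta Φ v w₀ k₀ f₀ T) S') (hS : ∀ p ∈ S, p.1 ∈ S') :
    ContinuousOn (hmap Φ v w₀ k₀ f₀ T) S := by
  unfold hmap
  have c1 : ContinuousOn (fun p : EE => eta Φ v w₀ k₀ f₀ T p.1) S :=
    hη.comp (by fun_prop) (fun p hp => hS p hp)
  exact c1.prodMk (by fun_prop)

/-- The degree of the inner map at every point of `K`. -/
lemma deg_inner {T : ℝ} (hr : 0 < r)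
    (hηc : ContinuousOn (eta Φ v w₀ k₀ f₀ T) (ball w₀ r)) {ω : W} {c' : ℝ} {z' : V}
    (hz' : PK Φ w₀ z' ≠ 0)
    (hloc : ∀ w : W, ‖w - w₀‖ ≤ r → ∀ t ∈ Icc (0 : ℝ) 1, eta Φ v w₀ k₀ f₀ T w = t • ω →
      ‖w - w₀‖ ≤ r / 2) :
    deg (fun p => hmap Φ v w₀ k₀ f₀ T p - (ω, c', z')) (Ur Φ w₀ r) =
      deg (eta Φ v w₀ k₀ f₀ T) (ball w₀ r) := by
  have hWz : ∀ t ∈ Icc (0 : ℝ) 1, ∀ w ∈ ball w₀ r, eta Φ v w₀ k₀ f₀ T w - t • ω = 0 →
      w ∈ closedBall w₀ (r / 2) := by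
    intro t ht w hw h0
    rw [mem_ball, dist_eq_norm] at hw
    rw [mem_closedBall, dist_eq_norm]
    exact hloc w hw.le t ht (sub_eq_zero.1 h0)
  have hsub : closedBall w₀ (r / 2) ⊆ ball w₀ r :=
    closedBall_subset_ball (by linarith)
  have hW1 : deg (fun w => eta Φ v w₀ k₀ f₀ T w - (0 : ℝ) • ω) (ball w₀ r) =
      deg (fun w => eta Φ v w₀ k₀ f₀ T w - (1 : ℝ) • ω) (ball w₀ r) := by
    refine deg_homotopy (fun t w => eta Φ v w₀ k₀ f₀ T w - t • ω) isOpen_ball ?_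
      (isCompact_closedBall w₀ (r / 2)) hsub hWz
    refine ContinuousOn.sub ?_ (by fun_prop)
    exact hηc.comp (by fun_prop) (fun p hp => hp.2)
  have e1 : (fun w => eta Φ v w₀ k₀ f₀ T w - (0 : ℝ) • ω) = eta Φ v w₀ k₀ f₀ T := by
    funext w; rw [zero_smul, sub_zero]
  have e2 : (fun w => eta Φ v w₀ k₀ f₀ T w - (1 : ℝ) • ω) =
      fun w => eta Φ v w₀ k₀ f₀ T w - ω := by
    funext w; rw [one_smul]
  rw [e1, e2] at hW1
  have hadmW : Adm (fun w => eta Φ v w₀ k₀ f₀ T w - ω) (ball w₀ r) :=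
    Adm.of_subset_compact isOpen_ball (hηc.sub continuousOn_const)
      (isCompact_closedBall w₀ (r / 2)) hsub
      (fun w hw h0 => hWz 1 ⟨zero_le_one, le_rfl⟩ w hw (by rw [one_smul]; exact h0))
  -- the other factor
  have hYo : IsOpen {y : ℝ × V | PK Φ w₀ y.2 ≠ 0} := isOpen_ne_fun (by fun_prop) continuous_const
  have hy0 : ((c', z') : ℝ × V) ∈ {y : ℝ × V | PK Φ w₀ y.2 ≠ 0} := hz'
  have hid1 : (ContinuousLinearMap.id ℝ (ℝ × V)).det = 1 := by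
    unfold ContinuousLinearMap.det
    exact LinearMap.det_id
  have hY1 : deg (fun y : ℝ × V => y - (c', z')) {y : ℝ × V | PK Φ w₀ y.2 ≠ 0} = 1 := by
    have := deg_affine (ContinuousLinearMap.id ℝ (ℝ × V)) (by rw [hid1]; exact one_ne_zero)
      hYo hy0
    rw [hid1] at this
    simpa using this
  have hadmY : Adm (fun y : ℝ × V => y - (c', z')) {y : ℝ × V | PK Φ w₀ y.2 ≠ 0} :=
    Adm.of_subset_compact hYo (by fun_prop) (isCompact_singleton (x := ((c', z') : ℝ × V)))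
      (singleton_subset_iff.2 hy0) (fun y _ h0 => sub_eq_zero.1 h0)
  have hprod := deg_prod hadmW hadmY
  rw [hY1, mul_one, ← hW1] at hprod
  rw [← hprod]
  rfl

/-- compactness of the preimage -/
lemma compact_pre {T : ℝ} (hr : 0 < r)
    (hηc : ContinuousOn (eta Φ v w₀ k₀ f₀ T) (ball w₀ r)) {K : Set EE} (hKc : IsCompact K)
    (hKV : K ⊆ VV Φ w₀)
    (hloc : ∀ w : W, ‖w - w₀‖ ≤ r → ∀ ω y, ((ω, y) : EE) ∈ K → eta Φ v w₀ k₀ f₀ T w = ω →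
      ‖w - w₀‖ ≤ r / 2) :
    IsCompact (Ur Φ w₀ r ∩ hmap Φ v w₀ k₀ f₀ T ⁻¹' K) := by
  set C : Set EE := (closedBall w₀ (r / 2)) ×ˢ (Prod.snd '' K) with hCdef
  have hC : IsCompact C := (isCompact_closedBall _ _).prod (hKc.image continuous_snd)
  have hCU : C ⊆ Ur Φ w₀ r := by
    rintro ⟨w, y⟩ ⟨h1, ⟨p, hp, hpy⟩⟩
    refine ⟨?_, ?_⟩
    · have h1' : dist w w₀ ≤ r / 2 := h1
      have : dist w w₀ < r := by linarith
      exact this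
    · have h2 : PK Φ w₀ p.2.2 ≠ 0 := hKV hp
      have h3 : p.2 = y := hpy
      rw [h3] at h2
      exact h2
  have heq : Ur Φ w₀ r ∩ hmap Φ v w₀ k₀ f₀ T ⁻¹' K = C ∩ hmap Φ v w₀ k₀ f₀ T ⁻¹' K := by
    refine Set.Subset.antisymm ?_ (inter_subset_inter_left _ hCU)
    rintro ⟨w, y⟩ ⟨h1, h2⟩
    have h2' : ((eta Φ v w₀ k₀ f₀ T w, y) : EE) ∈ K := h2
    have h4 : ‖w - w₀‖ < r := by
      have : dist w w₀ < r := h1.1
      rwa [dist_eq_norm] at this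
    have h5 := hloc w h4.le _ _ h2' rfl
    refine ⟨⟨?_, ⟨_, h2', rfl⟩⟩, h2⟩
    have : dist w w₀ ≤ r / 2 := by rw [dist_eq_norm]; exact h5
    exact this
  rw [heq]
  have hcl : ContinuousOn (hmap Φ v w₀ k₀ f₀ T) C :=
    continuousOn_hmap hηc (fun p hp => (hCU hp).1)
  exact hC.of_isClosed_subset (hcl.preimage_isClosed_of_isClosed hC.isClosed hKc.isClosed)
    inter_subset_left

/-- The degree of the frozen system vanishes. -/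
theorem Loc.deg_frozen (hS : Symm Φ) (hZ : ZeroFree Φ) (h : Loc Φ v u w₀ k₀ r R δ)
    (ho : OF Φ w₀ k₀ f₀) (hU2 : ∀ x ∈ Fp (A Φ w₀), ∀ c : ℝ, q Φ (J1 x) - c • w₀ ≠ u)
    (hDD : DD Φ w₀ (fr k₀ f₀) = 0) :
    ∀ᶠ T : ℝ in atTop, deg (Fth Φ v u w₀ k₀ T 1) (Ur Φ w₀ r) = 0 := by
  obtain ⟨hadmG, hdegG⟩ := deg_G2 hS hZ ho hU2 hDD
  obtain ⟨ε, hε, hεb⟩ := h.exists_eps hS
  -- a compact neighbourhood of the zeros of `G2`
  have hOo : IsOpen (VV Φ w₀ ∩ {p : EE | |ccL p.1| < ε / 4 ∧ ‖ssL k₀ p.1‖ < ε / 4}) := by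
    have h1 : IsOpen {p : EE | |ccL p.1| < ε / 4} := isOpen_lt (by fun_prop) (by fun_prop)
    have h2 : IsOpen {p : EE | ‖ssL k₀ p.1‖ < ε / 4} := isOpen_lt (by fun_prop) (by fun_prop)
    exact isOpen_VV.inter (h1.inter h2)
  have hZO : (VV Φ w₀ ∩ (G2 Φ u w₀ k₀ f₀) ⁻¹' {0}) ⊆
      VV Φ w₀ ∩ {p : EE | |ccL p.1| < ε / 4 ∧ ‖ssL k₀ p.1‖ < ε / 4} := by
    rintro ⟨ω, c, z⟩ ⟨hp, h0⟩
    have h0' : G2 Φ u w₀ k₀ f₀ (ω, c, z) = 0 := h0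
    have h3 : ccL ω = 0 := congrArg (fun p : EE => p.2.1) h0'
    have h1 : ssL k₀ ω + QK Φ w₀ z = 0 := congrArg (fun p : EE => p.2.2) h0'
    have h2 := congrArg (PK Φ w₀) h1
    rw [map_add, PK_ssL ho, PK_QK, add_zero, map_zero] at h2
    refine ⟨hp, ?_, ?_⟩
    · change |ccL ω| < ε / 4
      rw [h3, abs_zero]; positivity
    · change ‖ssL k₀ ω‖ < ε / 4
      rw [h2, norm_zero]; positivity
  obtain ⟨K, hKc, hZK, hKO⟩ := exists_compact_between hadmG.comp hOo hZO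
  -- bound on K
  obtain ⟨R', hR'⟩ : ∃ R' : ℝ, ∀ p ∈ K, ‖xxL f₀ p.1‖ ≤ R' := by
    have hcont : Continuous fun p : EE => ‖xxL f₀ p.1‖ := by fun_prop
    obtain ⟨R', hR'⟩ := hKc.bddAbove_image hcont.continuousOn
    exact ⟨R', fun p hp => hR' ⟨p, hp, rfl⟩⟩
  filter_upwards [eventually_gt_atTop (4 * R' / ε), eventually_gt_atTop 0] with T hT hT0
  have hTε : 4 * R' < T * ε := by
    rwa [div_lt_iff₀ hε] at hT
  have hηc : ContinuousOn (eta Φ v w₀ k₀ f₀ T) (ball w₀ r) :=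
    (h.continuousOn_eta hS T).mono ball_subset_closedBall
  have hloc : ∀ w : W, ‖w - w₀‖ ≤ r → ∀ ω y, ((ω, y) : EE) ∈ K → ∀ t ∈ Icc (0 : ℝ) 1,
      eta Φ v w₀ k₀ f₀ T w = t • ω → ‖w - w₀‖ ≤ r / 2 := by
    intro w hw ω y hy t ht heq
    have hyO := (hKO hy).2
    exact eta_loc hS ho hε hεb hT0 hTε hw (hR' _ hy) hyO.1 hyO.2 ht heq
  have hKV : K ⊆ VV Φ w₀ := hKO.trans inter_subset_left
  have hpre := compact_pre h.r_pos hηc hKc hKV (fun w hw ω y hy heq =>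
    hloc w hw ω y hy 1 ⟨zero_le_one, le_rfl⟩ (by rw [one_smul]; exact heq))
  have hcomp := deg_comp (h := hmap Φ v w₀ k₀ f₀ T) (G := G2 Φ u w₀ k₀ f₀) (U := Ur Φ w₀ r)
    (V := VV Φ w₀) (K := K) (e := deg (eta Φ v w₀ k₀ f₀ T) (ball w₀ r)) isOpen_Ur
    (continuousOn_hmap hηc (fun p hp => hp.1)) isOpen_VV continuous_G2.continuousOn
    (fun p hp => hp.2) hKc hKV (fun p hp h0 => hZK ⟨hp, h0⟩) hpre (by
      rintro ⟨ω, c', z'⟩ hy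
      exact deg_inner h.r_pos hηc (hKV hy) (fun w hw t ht heq => hloc w hw ω _ hy t ht heq))
  rw [hdegG, mul_zero] at hcomp
  rw [← hcomp.2]
  congr 1
  funext p
  exact Fth_one hS ho T p

end

end Pool.Agent.Flip.Gam
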