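import Mathlib

/-!
# The positive part of a symmetric operator on a finite-dimensional real inner product space

`pos T` for `T : E →L[ℝ] E`.  Main results: characterization (`IsPos`), uniqueness,
Lipschitz dependence (Hilbert-Schmidt and operator norm), equivariance under isometries,
scaling, the orthogonal splitting `ker T`, `range (pos T)`, `range (pos (-T))`,
and the projection onto `range (pos T)` written as `δ⁻¹ (pos T - pos (T - δ))`.
-/

namespace Pool.Agent.Flip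

open scoped InnerProductSpace
open Module

noncomputable section

variable {E : Type*} [NormedAddCommGroup E] [InnerProductSpace ℝ E]

/-- `T` is symmetric. -/
def Sym (T : E →L[ℝ] E) : Prop := ∀ x y, ⟪T x, y⟫_ℝ = ⟪x, T y⟫_ℝ

lemma Sym.isSymmetric {T : E →L[ℝ] E} (h : Sym T) : (T : E →ₗ[ℝ] E).IsSymmetric := h

lemma Sym.add {S T : E →L[ℝ] E} (hS : Sym S) (hT : Sym T) : Sym (S + T) := by
  intro x y; simp [inner_add_left, inner_add_right, hS x y, hT x y]

lemma Sym.neg {T : E →L[ℝ] E} (hT : Sym T) : Sym (-T) := by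
  intro x y; simp [hT x y]

lemma Sym.sub {S T : E →L[ℝ] E} (hS : Sym S) (hT : Sym T) : Sym (S - T) := by
  intro x y; simp [inner_sub_left, inner_sub_right, hS x y, hT x y]

lemma Sym.smul {T : E →L[ℝ] E} (hT : Sym T) (c : ℝ) : Sym (c • T) := by
  intro x y; simp [inner_smul_left, inner_smul_right, hT x y]

lemma Sym.id : Sym (ContinuousLinearMap.id ℝ E) := by
  intro x y; simp

lemma Sym.zero : Sym (0 : E →L[ℝ] E) := by
  intro x y; simp

/-- `P` is the positive part of `T`. -/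
structure IsPos (T P : E →L[ℝ] E) : Prop where
  sym : Sym P
  nonneg : ∀ x, 0 ≤ ⟪P x, x⟫_ℝ
  nonneg_sub : ∀ x, 0 ≤ ⟪P x - T x, x⟫_ℝ
  mul : ∀ x, P (P x - T x) = 0

variable [FiniteDimensional ℝ E]

lemma exists_isPos {T : E →L[ℝ] E} (hT : Sym T) : ∃ P, IsPos T P := by
  set b := hT.isSymmetric.eigenvectorBasis rfl with hb
  set l := hT.isSymmetric.eigenvalues rfl with hl
  have hTb : ∀ i, T (b i) = l i • b i := fun i =>
    hT.isSymmetric.apply_eigenvectorBasis rfl i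
  let P : E →ₗ[ℝ] E := b.toBasis.constr ℝ (fun i => (max (l i) 0) • b i)
  have hPb : ∀ i, P (b i) = (max (l i) 0) • b i := fun i => by
    simp [P]
  have hPx : ∀ x, P x = ∑ i, (max (l i) 0 * ⟪b i, x⟫_ℝ) • b i := by
    intro x
    conv_lhs => rw [← b.sum_repr' x]
    rw [map_sum]
    refine Finset.sum_congr rfl fun i _ => ?_
    rw [map_smul, hPb, smul_smul, mul_comm]
  have hTx : ∀ x, T x = ∑ i, (l i * ⟪b i, x⟫_ℝ) • b i := by
    intro x
    conv_lhs => rw [← b.sum_repr' x]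
    rw [map_sum]
    refine Finset.sum_congr rfl fun i _ => ?_
    rw [map_smul, hTb, smul_smul, mul_comm]
  have key : ∀ (f : Fin (finrank ℝ E) → ℝ) (x y : E),
      ⟪∑ i, (f i * ⟪b i, x⟫_ℝ) • b i, y⟫_ℝ = ∑ i, f i * ⟪b i, x⟫_ℝ * ⟪b i, y⟫_ℝ := by
    intro f x y
    rw [sum_inner]
    refine Finset.sum_congr rfl fun i _ => ?_
    rw [real_inner_smul_left]
  refine ⟨LinearMap.toContinuousLinearMap P, ?_, ?_, ?_, ?_⟩
  · intro x y
    simp only [LinearMap.coe_toContinuousLinearMap']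
    rw [hPx x, key, real_inner_comm, hPx y, key]
    refine Finset.sum_congr rfl fun i _ => by ring
  · intro x
    simp only [LinearMap.coe_toContinuousLinearMap']
    rw [hPx x, key]
    refine Finset.sum_nonneg fun i _ => ?_
    rw [mul_assoc]
    exact mul_nonneg (le_max_right _ _) (mul_self_nonneg _)
  · intro x
    simp only [LinearMap.coe_toContinuousLinearMap']
    rw [inner_sub_left, hPx x, hTx x, key, key, ← Finset.sum_sub_distrib]
    refine Finset.sum_nonneg fun i _ => ?_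
    have h1 : max (l i) 0 * ⟪b i, x⟫_ℝ * ⟪b i, x⟫_ℝ - l i * ⟪b i, x⟫_ℝ * ⟪b i, x⟫_ℝ
      = (max (l i) 0 - l i) * (⟪b i, x⟫_ℝ * ⟪b i, x⟫_ℝ) := by ring
    rw [h1]
    exact mul_nonneg (sub_nonneg.2 (le_max_left _ _)) (mul_self_nonneg _)
  · intro x
    simp only [LinearMap.coe_toContinuousLinearMap']
    rw [hPx x, hTx x, ← Finset.sum_sub_distrib, map_sum]
    refine Finset.sum_eq_zero fun i _ => ?_
    rw [← sub_smul, map_smul, hPb, smul_smul]
    have : (max (l i) 0 * ⟪b i, x⟫_ℝ - l i * ⟪b i, x⟫_ℝ) * max (l i) 0 = 0 := by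
      rcases le_total (l i) 0 with h | h
      · rw [max_eq_right h]; ring
      · rw [max_eq_left h]; ring
    rw [this, zero_smul]

/-- The positive part (`0` if `T` is not symmetric). -/
def pos (T : E →L[ℝ] E) : E →L[ℝ] E :=
  open Classical in if h : Sym T then (exists_isPos h).choose else 0

lemma pos_spec {T : E →L[ℝ] E} (hT : Sym T) : IsPos T (pos T) := by
  classical
  unfold pos
  rw [dif_pos hT]
  exact (exists_isPos hT).choose_spec

omit [FiniteDimensional ℝ E] in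
lemma IsPos.nonneg_sub' {T P : E →L[ℝ] E} (h : IsPos T P) (x : E) : 0 ≤ ⟪(P - T) x, x⟫_ℝ :=
  h.nonneg_sub x

omit [FiniteDimensional ℝ E] in
/-- `T P = P²`. -/
lemma IsPos.mul' {T P : E →L[ℝ] E} (h : IsPos T P) (hT : Sym T) (x : E) : P (P x) - T (P x) = 0 := by
  refine ext_inner_right ℝ fun y => ?_
  rw [inner_sub_left, inner_zero_left, h.sym (P x) y, hT (P x) y, ← inner_sub_right,
    h.sym x, h.mul y, inner_zero_right]

lemma IsPos.comm {T P : E →L[ℝ] E} (h : IsPos T P) (hT : Sym T) (x : E) : P (T x) = T (P x) := by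
  have h1 := h.mul x
  have h2 := h.mul' hT x
  rw [map_sub, sub_eq_zero] at h1
  rw [sub_eq_zero] at h2
  rw [← h1, h2]

lemma IsPos.neg {T P : E →L[ℝ] E} (h : IsPos T P) (hT : Sym T) : IsPos (-T) (P - T) where
  sym := h.sym.sub hT
  nonneg x := h.nonneg_sub x
  nonneg_sub x := by simpa using h.nonneg x
  mul x := by
    have h1 : (P - T) x - (-T) x = P x := by simp
    rw [h1]
    simpa using h.mul' hT x

/-- `tr (P Q) ≥ 0` for positive symmetric operators. -/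
lemma trace_comp_nonneg {P Q : E →L[ℝ] E} (hP : Sym P) (hP0 : ∀ x, 0 ≤ ⟪P x, x⟫_ℝ)
    (hQ0 : ∀ x, 0 ≤ ⟪Q x, x⟫_ℝ) :
    0 ≤ LinearMap.trace ℝ E ((P : E →ₗ[ℝ] E) ∘ₗ (Q : E →ₗ[ℝ] E)) := by
  set b := hP.isSymmetric.eigenvectorBasis rfl with hb
  set l := hP.isSymmetric.eigenvalues rfl with hl
  have hPb : ∀ i, P (b i) = l i • b i := fun i =>
    hP.isSymmetric.apply_eigenvectorBasis rfl i
  have hl0 : ∀ i, 0 ≤ l i := fun i => by
    have := hP0 (b i)
    rw [hPb, real_inner_smul_left, real_inner_self_eq_norm_sq, b.orthonormal.1 i] at this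
    simpa using this
  rw [LinearMap.trace_eq_sum_inner _ b]
  refine Finset.sum_nonneg fun i _ => ?_
  simp only [LinearMap.comp_apply, ContinuousLinearMap.coe_coe]
  rw [← hP, hPb, real_inner_smul_left, real_inner_comm]
  exact mul_nonneg (hl0 i) (hQ0 _)

/-- The square of the Hilbert-Schmidt norm of a symmetric operator. -/
def hsq (T : E →L[ℝ] E) : ℝ := LinearMap.trace ℝ E ((T : E →ₗ[ℝ] E) ∘ₗ (T : E →ₗ[ℝ] E))

omit [FiniteDimensional ℝ E] in
lemma hsq_eq {T : E →L[ℝ] E} (hT : Sym T) {ι : Type*} [Fintype ι] (b : OrthonormalBasis ι ℝ E) :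
    hsq T = ∑ i, ‖T (b i)‖ ^ 2 := by
  unfold hsq
  rw [LinearMap.trace_eq_sum_inner _ b]
  refine Finset.sum_congr rfl fun i _ => ?_
  simp only [LinearMap.comp_apply, ContinuousLinearMap.coe_coe]
  rw [← hT, real_inner_self_eq_norm_sq]

lemma hsq_nonneg {T : E →L[ℝ] E} (hT : Sym T) : 0 ≤ hsq T := by
  rw [hsq_eq hT (stdOrthonormalBasis ℝ E)]; positivity

lemma norm_sq_le_hsq {T : E →L[ℝ] E} (hT : Sym T) : ‖T‖ ^ 2 ≤ hsq T := by
  have h0 := hsq_nonneg hT
  have : ‖T‖ ≤ Real.sqrt (hsq T) := by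
    refine T.opNorm_le_bound (Real.sqrt_nonneg _) fun x => ?_
    set b := stdOrthonormalBasis ℝ E
    have hTx : T x = ∑ i, ⟪b i, x⟫_ℝ • T (b i) := by
      conv_lhs => rw [← b.sum_repr' x]
      rw [map_sum]; simp
    have h1 : ‖T x‖ ≤ ∑ i, |⟪b i, x⟫_ℝ| * ‖T (b i)‖ := by
      rw [hTx]
      refine (norm_sum_le _ _).trans (le_of_eq ?_)
      refine Finset.sum_congr rfl fun i _ => ?_
      rw [norm_smul, Real.norm_eq_abs]
    have h2 : (∑ i, |⟪b i, x⟫_ℝ| * ‖T (b i)‖) ^ 2 ≤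
        (∑ i, |⟪b i, x⟫_ℝ| ^ 2) * (∑ i, ‖T (b i)‖ ^ 2) := Finset.sum_mul_sq_le_sq_mul_sq _ _ _
    have h3 : ∑ i, |⟪b i, x⟫_ℝ| ^ 2 = ‖x‖ ^ 2 := by
      rw [← b.sum_sq_norm_inner_right x]
      simp
    rw [h3, ← hsq_eq hT] at h2
    refine h1.trans ?_
    refine le_of_sq_le_sq ?_ (by positivity)
    rw [mul_pow, Real.sq_sqrt h0]
    linarith
  calc ‖T‖ ^ 2 ≤ (Real.sqrt (hsq T)) ^ 2 := by gcongr
    _ = hsq T := Real.sq_sqrt h0

lemma hsq_le {T : E →L[ℝ] E} (hT : Sym T) : hsq T ≤ (finrank ℝ E : ℝ) * ‖T‖ ^ 2 := by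
  set b := stdOrthonormalBasis ℝ E
  rw [hsq_eq hT b]
  calc ∑ i, ‖T (b i)‖ ^ 2 ≤ ∑ i : Fin (finrank ℝ E), ‖T‖ ^ 2 := by
        refine Finset.sum_le_sum fun i _ => ?_
        have h1 : ‖T (b i)‖ ≤ ‖T‖ := by
          have := T.le_opNorm (b i)
          rwa [b.orthonormal.1 i, mul_one] at this
        gcongr
    _ = _ := by simp

/-- The positive part is 1-Lipschitz in the Hilbert-Schmidt norm. -/
lemma IsPos.hsq_sub_le {S T P Q : E →L[ℝ] E} (hS : Sym S) (hT : Sym T) (hP : IsPos S P)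
    (hQ : IsPos T Q) : hsq (P - Q) ≤ hsq (S - T) := by
  have hPN := hP.neg hS
  have hQN := hQ.neg hT
  -- notation
  let P' : E →ₗ[ℝ] E := P
  let Q' : E →ₗ[ℝ] E := Q
  let S' : E →ₗ[ℝ] E := S
  let T' : E →ₗ[ℝ] E := T
  have e1 : hsq (P - Q) = LinearMap.trace ℝ E ((P' - Q') ∘ₗ (P' - Q')) := rfl
  have e2 : hsq (S - T) = LinearMap.trace ℝ E ((S' - T') ∘ₗ (S' - T')) := rfl
  have e3 : hsq ((P - S) - (Q - T)) =
    LinearMap.trace ℝ E (((P' - S') - (Q' - T')) ∘ₗ ((P' - S') - (Q' - T'))) := rfl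
  have n1 : 0 ≤ LinearMap.trace ℝ E (P' ∘ₗ (Q' - T')) := by
    have := trace_comp_nonneg hP.sym hP.nonneg (Q := Q - T) hQ.nonneg_sub'
    exact this
  have n2 : 0 ≤ LinearMap.trace ℝ E (Q' ∘ₗ (P' - S')) := by
    have := trace_comp_nonneg hQ.sym hQ.nonneg (Q := P - S) hP.nonneg_sub'
    exact this
  have z1 : P' ∘ₗ (P' - S') = 0 := by
    ext x; simpa [P', S'] using hP.mul x
  have z2 : Q' ∘ₗ (Q' - T') = 0 := by
    ext x; simpa [Q', T'] using hQ.mul x
  have n3 : 0 ≤ hsq ((P - S) - (Q - T)) := hsq_nonneg (hPN.sym.sub hQN.sym)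
  have c1 : LinearMap.trace ℝ E ((P' - Q') ∘ₗ ((P' - S') - (Q' - T'))) =
      - LinearMap.trace ℝ E (P' ∘ₗ (Q' - T')) - LinearMap.trace ℝ E (Q' ∘ₗ (P' - S')) := by
    have : (P' - Q') ∘ₗ ((P' - S') - (Q' - T')) =
        P' ∘ₗ (P' - S') - P' ∘ₗ (Q' - T') - Q' ∘ₗ (P' - S') + Q' ∘ₗ (Q' - T') := by
      ext x; simp; abel
    rw [this, z1, z2]; simp [sub_eq_add_neg]
  have c2 : LinearMap.trace ℝ E (((P' - S') - (Q' - T')) ∘ₗ (P' - Q')) =
      LinearMap.trace ℝ E ((P' - Q') ∘ₗ ((P' - S') - (Q' - T'))) := LinearMap.trace_comp_comm' _ _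
  have c3 : (S' - T') ∘ₗ (S' - T') = (P' - Q') ∘ₗ (P' - Q')
      - (P' - Q') ∘ₗ ((P' - S') - (Q' - T')) - ((P' - S') - (Q' - T')) ∘ₗ (P' - Q')
      + ((P' - S') - (Q' - T')) ∘ₗ ((P' - S') - (Q' - T')) := by
    ext x; simp; abel
  rw [e2, c3, map_add, map_sub, map_sub, c2, c1, ← e1, ← e3]
  linarith

lemma IsPos.norm_sub_le {S T P Q : E →L[ℝ] E} (hS : Sym S) (hT : Sym T) (hP : IsPos S P)
    (hQ : IsPos T Q) : ‖P - Q‖ ≤ Real.sqrt (finrank ℝ E) * ‖S - T‖ := by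
  have h1 := norm_sq_le_hsq (hP.sym.sub hQ.sym)
  have h2 := hsq_le (hS.sub hT)
  have h3 := hP.hsq_sub_le hS hT hQ
  refine le_of_sq_le_sq ?_ (by positivity)
  rw [mul_pow, Real.sq_sqrt (by positivity)]
  linarith

lemma IsPos.unique {T P Q : E →L[ℝ] E} (hT : Sym T) (hP : IsPos T P) (hQ : IsPos T Q) : P = Q := by
  have := hP.norm_sub_le hT hT hQ
  rw [sub_self, norm_zero, mul_zero] at this
  exact sub_eq_zero.1 (norm_le_zero_iff.1 this)

lemma IsPos.eq_pos {T P : E →L[ℝ] E} (hT : Sym T) (hP : IsPos T P) : pos T = P :=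
  (pos_spec hT).unique hT hP

/-! ### API for `pos` -/

lemma pos_sym {T : E →L[ℝ] E} (hT : Sym T) : Sym (pos T) := (pos_spec hT).sym

lemma pos_nonneg {T : E →L[ℝ] E} (hT : Sym T) (x : E) : 0 ≤ ⟪pos T x, x⟫_ℝ := (pos_spec hT).nonneg x

lemma norm_pos_sub_le {S T : E →L[ℝ] E} (hS : Sym S) (hT : Sym T) :
    ‖pos S - pos T‖ ≤ Real.sqrt (finrank ℝ E) * ‖S - T‖ :=
  (pos_spec hS).norm_sub_le hS hT (pos_spec hT)

lemma pos_neg {T : E →L[ℝ] E} (hT : Sym T) : pos (-T) = pos T - T :=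
  ((pos_spec hT).neg hT).eq_pos hT.neg

lemma pos_sub_pos_neg {T : E →L[ℝ] E} (hT : Sym T) : pos T - pos (-T) = T := by
  rw [pos_neg hT]; abel

lemma pos_apply_sub {T : E →L[ℝ] E} (hT : Sym T) (x : E) : pos T x - pos (-T) x = T x := by
  have := congrArg (fun S : E →L[ℝ] E => S x) (pos_sub_pos_neg hT)
  simpa using this

lemma pos_mul_pos_neg {T : E →L[ℝ] E} (hT : Sym T) (x : E) : pos T (pos (-T) x) = 0 := by
  rw [pos_neg hT]; exact (pos_spec hT).mul x

lemma pos_neg_mul_pos {T : E →L[ℝ] E} (hT : Sym T) (x : E) : pos (-T) (pos T x) = 0 := by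
  have := pos_mul_pos_neg hT.neg x
  rwa [neg_neg] at this

lemma pos_comm {T : E →L[ℝ] E} (hT : Sym T) (x : E) : pos T (T x) = T (pos T x) :=
  (pos_spec hT).comm hT x

lemma pos_pos {T : E →L[ℝ] E} (hT : Sym T) (x : E) : pos T (pos T x) = T (pos T x) :=
  sub_eq_zero.1 ((pos_spec hT).mul' hT x)

lemma pos_conj {T : E →L[ℝ] E} (hT : Sym T) (U : E ≃ₗᵢ[ℝ] E) (x : E) :
    pos ((U.toContinuousLinearEquiv : E →L[ℝ] E) ∘L T ∘L
      (U.symm.toContinuousLinearEquiv : E →L[ℝ] E)) x = U (pos T (U.symm x)) := by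
  have hs : Sym ((U.toContinuousLinearEquiv : E →L[ℝ] E) ∘L T ∘L
      (U.symm.toContinuousLinearEquiv : E →L[ℝ] E)) := by
    intro x y
    have h1 : ⟪U (T (U.symm x)), y⟫_ℝ = ⟪T (U.symm x), U.symm y⟫_ℝ := by
      rw [← U.inner_map_map (T (U.symm x)), U.apply_symm_apply]
    have h2 : ⟪x, U (T (U.symm y))⟫_ℝ = ⟪U.symm x, T (U.symm y)⟫_ℝ := by
      rw [← U.inner_map_map (U.symm x), U.apply_symm_apply]
    simpa [h1, h2] using hT _ _
  have h := pos_spec hT
  have hP : IsPos ((U.toContinuousLinearEquiv : E →L[ℝ] E) ∘L T ∘L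
      (U.symm.toContinuousLinearEquiv : E →L[ℝ] E)) ((U.toContinuousLinearEquiv : E →L[ℝ] E) ∘L (pos T) ∘L
      (U.symm.toContinuousLinearEquiv : E →L[ℝ] E)) := by
    refine ⟨?_, ?_, ?_, ?_⟩
    · intro x y
      have h1 : ⟪U (pos T (U.symm x)), y⟫_ℝ = ⟪pos T (U.symm x), U.symm y⟫_ℝ := by
        rw [← U.inner_map_map (pos T (U.symm x)), U.apply_symm_apply]
      have h2 : ⟪x, U (pos T (U.symm y))⟫_ℝ = ⟪U.symm x, pos T (U.symm y)⟫_ℝ := by
        rw [← U.inner_map_map (U.symm x), U.apply_symm_apply]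
      simpa [h1, h2] using h.sym _ _
    · intro x
      have h1 : ⟪U (pos T (U.symm x)), x⟫_ℝ = ⟪pos T (U.symm x), U.symm x⟫_ℝ := by
        rw [← U.inner_map_map (pos T (U.symm x)), U.apply_symm_apply]
      simpa [h1] using h.nonneg (U.symm x)
    · intro x
      have h1 : ⟪U (pos T (U.symm x)) - U (T (U.symm x)), x⟫_ℝ =
          ⟪pos T (U.symm x) - T (U.symm x), U.symm x⟫_ℝ := by
        rw [← U.inner_map_map (pos T (U.symm x) - T (U.symm x)), U.apply_symm_apply, map_sub]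
      simpa [h1] using h.nonneg_sub (U.symm x)
    · intro x
      have h1 := h.mul (U.symm x)
      simp only [ContinuousLinearMap.comp_apply, ContinuousLinearEquiv.coe_coe,
        LinearIsometryEquiv.coe_toContinuousLinearEquiv, map_sub, U.symm_apply_apply]
      rw [map_sub] at h1
      rw [← map_sub, h1, map_zero]
  rw [hP.eq_pos hs]
  simp

lemma pos_smul {T : E →L[ℝ] E} (hT : Sym T) {c : ℝ} (hc : 0 ≤ c) : pos (c • T) = c • pos T := by
  have h := pos_spec hT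
  refine IsPos.eq_pos (hT.smul c) ⟨h.sym.smul c, ?_, ?_, ?_⟩
  · intro x
    simpa [real_inner_smul_left] using mul_nonneg hc (h.nonneg x)
  · intro x
    have : (c • pos T) x - (c • T) x = c • (pos T x - T x) := by simp [smul_sub]
    rw [this, real_inner_smul_left]
    exact mul_nonneg hc (h.nonneg_sub x)
  · intro x
    have : (c • pos T) x - (c • T) x = c • (pos T x - T x) := by simp [smul_sub]
    rw [this]
    have h2 : (c • pos T) (c • (pos T x - T x)) = c • c • pos T (pos T x - T x) := by simp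
    rw [h2, h.mul, smul_zero, smul_zero]

end

end Pool.Agent.Flip
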